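import Pool.Agent.Work.MP_f6469e_gt.Mir.Defs

/-!
# Mir/Finu (size M): finiteness

* `finite_bdd`: `Λ` contains a basis `b` of `ℝ^(n+1)` (`exists_linearIndependent` in a spanning set, or `Submodule.exists_fun_fin_finrank_span_eq`). The
  map `u ↦ (L u (b i))_i` is injective (`L u y = 0` for all `y` gives `u = 0`) and has integer values on `Λ`, bounded for bounded `u`.
* `null_bound`: `(u i)² ≤ ∑ (u i.succ)² = (u 0)²`.
* `null_coercive`: `-L p u = p 0 u 0 - ∑ ≥ u 0 (p 0 - √(∑ (p i.succ)²))`, `c = p 0 - √(∑ (p i.succ)²) > 0`.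
* `exists_min`: take any `u* ∈ S`; the `u ∈ S` with `-L p u ≤ -L p u*` are finitely many (`null_coercive`, `null_bound`, `finite_bdd`).
-/

set_option autoImplicit false

namespace Pool.Agent.Work.MP_f6469e_gt.Mir

open Pool.Agent.Work.MP_f6469e_gt

private theorem L_nondeg {n : ℕ} {z : Fin (n + 1) → ℝ} (h : ∀ y, L n z y = 0) : z = 0 := by
  have h1 := h (fun i => Fin.cases (-(z 0)) (fun j => z j.succ) i)
  unfold L at h1
  simp only [Fin.cases_zero, Fin.cases_succ] at h1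
  have h2 : 0 ≤ ∑ i : Fin n, z i.succ * z i.succ :=
    Finset.sum_nonneg fun _ _ => mul_self_nonneg _
  have h3 : 0 ≤ z 0 * z 0 := mul_self_nonneg _
  have h4 : ∑ i : Fin n, z i.succ * z i.succ = 0 := by linarith
  have h5 : z 0 * z 0 = 0 := by linarith
  rw [Finset.sum_eq_zero_iff_of_nonneg (fun i _ => mul_self_nonneg _)] at h4
  funext i
  refine Fin.cases (mul_self_eq_zero.mp h5) (fun j => ?_) i
  exact mul_self_eq_zero.mp (h4 j (Finset.mem_univ _))

private theorem L_bound {n : ℕ} {u y : Fin (n + 1) → ℝ} {C : ℝ} (h : ∀ i, |u i| ≤ C) :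
    |L n u y| ≤ C * |y 0| + ∑ i : Fin n, C * |y i.succ| := by
  unfold L
  refine (abs_add_le _ _).trans (add_le_add ?_ ((Finset.abs_sum_le_sum_abs _ _).trans
    (Finset.sum_le_sum fun i _ => ?_)))
  · rw [abs_neg, abs_mul]
    exact mul_le_mul_of_nonneg_right (h 0) (abs_nonneg _)
  · rw [abs_mul]
    exact mul_le_mul_of_nonneg_right (h _) (abs_nonneg _)

theorem finite_bdd {n : ℕ} {Λ : AddSubgroup (Fin (n + 1) → ℝ)} (hΛ : IntLat n Λ) (C : ℝ) :
    {u : Fin (n + 1) → ℝ | u ∈ Λ ∧ ∀ i, |u i| ≤ C}.Finite := by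
  obtain ⟨b, hb, hspan, hli⟩ := exists_linearIndependent ℝ (Λ : Set (Fin (n + 1) → ℝ))
  have hfin : b.Finite := hli.setFinite
  have := hfin.fintype
  rw [hΛ.span] at hspan
  refine Set.Finite.of_finite_image (f := fun u => fun y : b => L n u y) ?_ ?_
  · refine (Set.Finite.pi (t := fun y : b => (fun m : ℤ => (m : ℝ)) ''
      Set.Icc (-⌈C * |(y : Fin (n + 1) → ℝ) 0| + ∑ i : Fin n, C *
        |(y : Fin (n + 1) → ℝ) i.succ|⌉) ⌈C * |(y : Fin (n + 1) → ℝ) 0| +
        ∑ i : Fin n, C * |(y : Fin (n + 1) → ℝ) i.succ|⌉)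
      fun y => (Set.finite_Icc _ _).image _).subset ?_
    rintro _ ⟨u, hu, rfl⟩
    intro y _
    obtain ⟨m, hm⟩ := hΛ.int u hu.1 y (hb y.2)
    refine ⟨m, ?_, hm.symm⟩
    have h1 := L_bound (y := (y : Fin (n + 1) → ℝ)) hu.2
    rw [hm] at h1
    have h2 := h1.trans (Int.le_ceil _)
    rw [abs_le] at h2
    constructor
    · exact_mod_cast h2.1
    · exact_mod_cast h2.2
  · intro u _ u' _ huu'
    have h1 : ∀ y ∈ b, L n (u - u') y = 0 := by
      intro y hy
      have := congrFun huu' ⟨y, hy⟩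
      simp only at this
      rw [L_sub_left, this, sub_self]
    have h2 : ∀ y, L n (u - u') y = 0 := by
      intro y
      have hy : y ∈ Submodule.span ℝ b := by rw [hspan]; trivial
      induction hy using Submodule.span_induction with
      | mem y hy => exact h1 y hy
      | zero => exact L_zero_right _
      | add y z _ _ hy hz => rw [L_add_right, hy, hz, add_zero]
      | smul a y _ hy => rw [L_smul_right, hy, mul_zero]
    exact sub_eq_zero.mp (L_nondeg h2)

theorem null_bound {n : ℕ} {u : Fin (n + 1) → ℝ} (h0 : 0 < u 0) (huu : L n u u = 0)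
    (i : Fin (n + 1)) : |u i| ≤ u 0 := by
  refine Fin.cases (abs_of_pos h0).le (fun j => ?_) i
  refine abs_le_of_sq_le_sq ?_ h0.le
  have h1 : ∑ i : Fin n, u i.succ * u i.succ = u 0 ^ 2 := by
    have := huu
    unfold L at this
    linarith
  rw [← h1, pow_two]
  exact Finset.single_le_sum (f := fun i : Fin n => u i.succ * u i.succ)
    (fun i _ => mul_self_nonneg _) (Finset.mem_univ j)

theorem null_coercive {n : ℕ} {p : Fin (n + 1) → ℝ} (hp0 : 0 < p 0) (hpp : L n p p < 0) :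
    ∃ c : ℝ, 0 < c ∧ ∀ u : Fin (n + 1) → ℝ, 0 < u 0 → L n u u = 0 → c * u 0 ≤ -L n p u := by
  have h1 : ∑ i : Fin n, p i.succ ^ 2 < p 0 ^ 2 := by
    have := hpp
    unfold L at this
    simp only [← pow_two] at this
    linarith
  have h0 : 0 ≤ ∑ i : Fin n, p i.succ ^ 2 := Finset.sum_nonneg fun _ _ => sq_nonneg _
  refine ⟨p 0 - √(∑ i : Fin n, p i.succ ^ 2), ?_, fun u hu0 huu => ?_⟩
  · rw [sub_pos, Real.sqrt_lt' hp0]
    exact h1
  · have hcs := Finset.sum_mul_sq_le_sq_mul_sq Finset.univ (fun i : Fin n => p i.succ)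
      (fun i : Fin n => u i.succ)
    have h2 : (∑ i : Fin n, u i.succ ^ 2) = u 0 ^ 2 := by
      have := huu
      unfold L at this
      simp only [← pow_two] at this
      linarith
    rw [h2] at hcs
    have h3 : (∑ i : Fin n, p i.succ * u i.succ) ^ 2 ≤
        (√(∑ i : Fin n, p i.succ ^ 2) * u 0) ^ 2 := by
      rw [mul_pow, Real.sq_sqrt h0]
      exact hcs
    have h4 := abs_le_of_sq_le_sq h3 (mul_nonneg (Real.sqrt_nonneg _) hu0.le)
    have h5 := le_abs_self (∑ i : Fin n, p i.succ * u i.succ)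
    have h6 : -L n p u = p 0 * u 0 - ∑ i : Fin n, p i.succ * u i.succ := by
      unfold L; ring
    rw [h6]
    linarith

theorem exists_min {n : ℕ} {Λ : AddSubgroup (Fin (n + 1) → ℝ)} (hΛ : IntLat n Λ)
    {p : Fin (n + 1) → ℝ} (hp0 : 0 < p 0) (hpp : L n p p < 0) (S : Set (Fin (n + 1) → ℝ))
    (hS : ∀ u ∈ S, u ∈ Λ ∧ 0 < u 0 ∧ L n u u = 0) (hne : S.Nonempty) :
    ∃ u ∈ S, ∀ w ∈ S, -L n p u ≤ -L n p w := by
  obtain ⟨us, hus⟩ := hne
  obtain ⟨c, hc0, hc⟩ := null_coercive hp0 hpp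
  have hfin : {u | u ∈ S ∧ -L n p u ≤ -L n p us}.Finite := by
    refine (finite_bdd hΛ (c⁻¹ * -L n p us)).subset ?_
    intro u hu
    obtain ⟨huΛ, hu0, huu⟩ := hS u hu.1
    refine ⟨huΛ, fun i => (null_bound hu0 huu i).trans ?_⟩
    have h1 := (hc u hu0 huu).trans hu.2
    rw [le_inv_mul_iff₀ hc0]
    exact h1
  obtain ⟨u, hu, hmin⟩ := Set.exists_min_image _ (fun u => -L n p u) hfin ⟨us, hus, le_rfl⟩
  refine ⟨u, hu.1, fun w hw => ?_⟩
  by_cases h : -L n p w ≤ -L n p us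
  · exact hmin w ⟨hw, h⟩
  · push Not at h
    exact hu.2.trans h.le

end Pool.Agent.Work.MP_f6469e_gt.Mir
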