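import Pool.Agent.Work.MP_f6469e_gt.Mir.Reg
import Pool.Agent.Work.MP_f6469e_gt.Mir.Finu

/-!
# Mir/Coc: the automorphisms of `Λ` do not act cocompactly on the region

Let `u` be the cusp of `region` and `x` an interior point with `L x x = -1`. The points `y_t = (x + t u) / √(1 + 2 t ν)`, `ν = -L x u`, are in the
region and `L y_t u → 0`. If `g_t y_t ∈ K`, then `g_t u` is a future null vector of `Λ` and `-L y_t u = -L (g_t y_t) (g_t u) ≥ c (g_t u) 0 ≥ c δ`.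
-/

set_option autoImplicit false

namespace Pool.Agent.Work.MP_f6469e_gt.Mir

open Pool.Agent.Work.MP_f6469e_gt

private theorem lower {n : ℕ} {x u : Fin (n + 1) → ℝ} (hx0 : 0 < x 0) (hxx : L n x x = -1)
    (hu0 : 0 < u 0) (huu : L n u u = 0) : u 0 / (2 * x 0) ≤ -L n x u := by
  have hcs := Finset.sum_mul_sq_le_sq_mul_sq Finset.univ (fun i : Fin n => x i.succ)
    (fun i : Fin n => u i.succ)
  have h1 : (∑ i : Fin n, x i.succ ^ 2) = x 0 ^ 2 - 1 := by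
    have := hxx
    unfold L at this
    simp only [← pow_two] at this
    linarith
  have h2 : (∑ i : Fin n, u i.succ ^ 2) = u 0 ^ 2 := by
    have := huu
    unfold L at this
    simp only [← pow_two] at this
    linarith
  have h3 : 0 ≤ ∑ i : Fin n, x i.succ ^ 2 := Finset.sum_nonneg fun _ _ => sq_nonneg _
  rw [h1] at h3
  rw [h1, h2] at hcs
  have h4 : -L n x u = x 0 * u 0 - ∑ i : Fin n, x i.succ * u i.succ := by
    unfold L; ring
  rw [h4]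
  have h5 : 0 ≤ x 0 * u 0 - u 0 / (2 * x 0) := by
    have h6 : x 0 * u 0 - u 0 / (2 * x 0) = u 0 * (2 * x 0 ^ 2 - 1) / (2 * x 0) := by
      field_simp
    rw [h6]
    refine div_nonneg (mul_nonneg hu0.le ?_) (by positivity)
    nlinarith
  have h7 : (∑ i : Fin n, x i.succ * u i.succ) ^ 2 ≤ (x 0 * u 0 - u 0 / (2 * x 0)) ^ 2 := by
    have h8 : (x 0 * u 0 - u 0 / (2 * x 0)) ^ 2 =
        (x 0 ^ 2 - 1) * u 0 ^ 2 + (u 0 / (2 * x 0)) ^ 2 := by
      field_simp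
      ring
    rw [h8]
    have := sq_nonneg (u 0 / (2 * x 0))
    linarith
  have h9 := abs_le_of_sq_le_sq h7 h5
  have h10 := le_abs_self (∑ i : Fin n, x i.succ * u i.succ)
  linarith

/-- A cusp of `Λ` in the ideal boundary of a region: the automorphisms of `Λ` do not act cocompactly on it. -/
theorem not_cocompact_of_cusp {n : ℕ} {Λ : AddSubgroup (Fin (n + 1) → ℝ)} (hΛ : IntLat n Λ)
    {W : Set (Fin (n + 1) → ℝ)} {u : Fin (n + 1) → ℝ} (hu : u ∈ Λ) (hu0 : 0 < u 0)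
    (huu : L n u u = 0) (huW : ∀ v ∈ W, L n u v ≤ 0)
    (hx : ∃ x : Fin (n + 1) → ℝ, 0 < x 0 ∧ L n x x < 0 ∧ ∀ v ∈ W, L n x v < 0)
    {K : Set (Fin (n + 1) → ℝ)} (hK : IsCompact K) (hK1 : ∀ x ∈ K, 0 < x 0 ∧ L n x x = -1) :
    ∃ x : Fin (n + 1) → ℝ, 0 < x 0 ∧ L n x x = -1 ∧ (∀ v ∈ W, L n x v ≤ 0) ∧
      ∀ g : (Fin (n + 1) → ℝ) →ₗ[ℝ] (Fin (n + 1) → ℝ),
        (∀ y z, L n (g y) (g z) = L n y z) → (∀ y ∈ Λ, g y ∈ Λ) → g x ∉ K := by
  obtain ⟨x, hx0, hxx, hxW⟩ := hx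
  -- the constant of the compact set
  obtain ⟨X, hX0, hX⟩ : ∃ X : ℝ, 0 < X ∧ ∀ x ∈ K, x 0 ≤ X := by
    rcases K.eq_empty_or_nonempty with h | h
    · exact ⟨1, one_pos, fun x hx => by rw [h] at hx; exact absurd hx (Set.notMem_empty x)⟩
    · obtain ⟨xm, hxm, hmax⟩ := hK.exists_isMaxOn h (continuous_apply 0).continuousOn
      exact ⟨xm 0, (hK1 xm hxm).1, fun x hx => hmax hx⟩
  -- the smallest future null vector of the lattice
  obtain ⟨δ, hδ0, hδ⟩ : ∃ δ : ℝ, 0 < δ ∧ ∀ w ∈ Λ, 0 < w 0 → L n w w = 0 → δ ≤ w 0 := by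
    have hfin : {w | (w ∈ Λ ∧ 0 < w 0 ∧ L n w w = 0) ∧ w 0 ≤ u 0}.Finite := by
      refine (finite_bdd hΛ (u 0)).subset ?_
      intro w hw
      exact ⟨hw.1.1, fun i => (null_bound hw.1.2.1 hw.1.2.2 i).trans hw.2⟩
    obtain ⟨w, hw, hmin⟩ := Set.exists_min_image _ (fun w => w 0) hfin
      ⟨u, ⟨hu, hu0, huu⟩, le_rfl⟩
    refine ⟨w 0, hw.1.2.1, fun z hz hz0 hzz => ?_⟩
    by_cases h : z 0 ≤ u 0
    · exact hmin z ⟨⟨hz, hz0, hzz⟩, h⟩
    · push Not at h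
      exact hw.2.trans h.le
  obtain ⟨ε, hε⟩ : ∃ ε : ℝ, ε = δ / (2 * X) := ⟨_, rfl⟩
  have hε0 : 0 < ε := by rw [hε]; positivity
  -- a point of the region close to the cusp
  have hν : L n x u < 0 := L_neg hxx hx0 huu.le hu0
  obtain ⟨t, ht0, ht⟩ : ∃ t : ℝ, 0 < t ∧
      L n x u ^ 2 < ε ^ 2 * (-L n x x + t * (-(2 * L n x u))) := by
    refine ⟨(L n x u ^ 2 + 1) / (ε ^ 2 * (-(2 * L n x u))), ?_, ?_⟩
    · have : 0 < -(2 * L n x u) := by linarith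
      positivity
    · have h1 : 0 < -(2 * L n x u) := by linarith
      have h2 : ε ^ 2 * ((L n x u ^ 2 + 1) / (ε ^ 2 * (-(2 * L n x u))) *
          (-(2 * L n x u))) = L n x u ^ 2 + 1 := by
        have h3 : ε ^ 2 ≠ 0 := by positivity
        have h4 : L n x u ≠ 0 := hν.ne
        field_simp
      have h3 : 0 < ε ^ 2 * (-L n x x) := mul_pos (by positivity) (by linarith)
      rw [mul_add, h2]
      linarith
  obtain ⟨z, hz⟩ : ∃ z, z = x + t • u := ⟨_, rfl⟩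
  have hzz : -L n z z = -L n x x + t * (-(2 * L n x u)) := by
    rw [hz]
    simp only [L_add_left, L_add_right, L_smul_left, L_smul_right, huu, L_comm u x]
    ring
  have hz0 : 0 < z 0 := by
    rw [hz]
    simp only [Pi.add_apply, Pi.smul_apply, smul_eq_mul]
    have := mul_pos ht0 hu0
    linarith
  have hzz0 : 0 < -L n z z := by
    rw [hzz]
    have := mul_pos ht0 (by linarith : (0 : ℝ) < -(2 * L n x u))
    linarith
  have hzu : L n z u = L n x u := by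
    rw [hz, L_add_left, L_smul_left, huu]; ring
  obtain ⟨r, hr⟩ : ∃ r : ℝ, r = √(-L n z z) := ⟨_, rfl⟩
  have hr0 : 0 < r := by rw [hr]; exact Real.sqrt_pos.mpr hzz0
  have hr2 : r ^ 2 = -L n z z := by rw [hr]; exact Real.sq_sqrt hzz0.le
  refine ⟨r⁻¹ • z, ?_, ?_, ?_, ?_⟩
  · simp only [Pi.smul_apply, smul_eq_mul]
    positivity
  · rw [L_smul_left, L_smul_right]
    have h1 : L n z z = -r ^ 2 := by linarith
    rw [h1]
    field_simp
  · intro v hv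
    rw [L_smul_left, hz, L_add_left, L_smul_left]
    have h1 := mul_nonpos_of_nonneg_of_nonpos ht0.le (huW v hv)
    exact mul_nonpos_of_nonneg_of_nonpos (by positivity) (by linarith [hxW v hv])
  · intro g hg hgΛ hgK
    obtain ⟨h1, h2⟩ := hK1 _ hgK
    have h3 : L n (g u) (g u) = 0 := by rw [hg, huu]
    have h4 : L n (g (r⁻¹ • z)) (g u) = r⁻¹ * L n x u := by
      rw [hg, L_smul_left, hzu]
    have h5 : r⁻¹ * L n x u < 0 := mul_neg_of_pos_of_neg (by positivity) hν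
    have h6 : 0 < (g u) 0 := time_zero (by rw [h2]; norm_num) h1 h3.le (by rw [h4]; exact h5)
    have h7 := lower h1 h2 h6 h3
    have h8 := hδ (g u) (hgΛ u hu) h6 h3
    have h9 : ε ≤ (g u) 0 / (2 * (g (r⁻¹ • z)) 0) := by
      rw [hε]
      have h10 := hX _ hgK
      gcongr
    rw [h4] at h7
    have h10 : ε * r ≤ -L n x u := by
      have h11 := h9.trans h7
      have h12 := mul_le_mul_of_nonneg_right h11 hr0.le
      have h13 : -(r⁻¹ * L n x u) * r = -L n x u := by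
        field_simp
      rw [h13] at h12
      exact h12
    have h11 : (ε * r) ^ 2 ≤ (-L n x u) ^ 2 := by
      have : 0 ≤ ε * r := by positivity
      gcongr
    rw [mul_pow, hr2, hzz, neg_sq] at h11
    linarith

theorem no_cocompact {n : ℕ} (hn : 4 ≤ n) {Λ : AddSubgroup (Fin (n + 1) → ℝ)}
    (hΛ : IntLat n Λ) (W : Set (Fin (n + 1) → ℝ)) {C : ℝ}
    (hW : ∀ v ∈ W, v ∈ Λ ∧ 0 < L n v v ∧ L n v v ≤ C)
    (hd : ∀ v ∈ W, ∀ w ∈ W, v ≠ w →
      L n v w = 0 ∨ (L n v w < 0 ∧ L n v v * L n w w ≤ L n v w ^ 2))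
    (hx : ∃ x : Fin (n + 1) → ℝ, 0 < x 0 ∧ L n x x < 0 ∧ ∀ v ∈ W, L n x v < 0)
    (hT : ∀ T : Finset (Fin (n + 1) → ℝ), (T : Set (Fin (n + 1) → ℝ)) ⊆ W →
      (∀ v ∈ T, ∀ w ∈ T, v ≠ w → L n v w = 0) → T.card < n - 2)
    {K : Set (Fin (n + 1) → ℝ)} (hK : IsCompact K) (hK1 : ∀ x ∈ K, 0 < x 0 ∧ L n x x = -1) :
    ∃ x : Fin (n + 1) → ℝ, 0 < x 0 ∧ L n x x = -1 ∧ (∀ v ∈ W, L n x v ≤ 0) ∧
      ∀ g : (Fin (n + 1) → ℝ) →ₗ[ℝ] (Fin (n + 1) → ℝ),
        (∀ y z, L n (g y) (g z) = L n y z) → (∀ y ∈ Λ, g y ∈ Λ) → g x ∉ K := by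
  obtain ⟨u, hu, hu0, huu, huW⟩ := region hn hΛ W hW hd hx hT
  exact not_cocompact_of_cusp hΛ hu hu0 huu huW hx hK hK1

end Pool.Agent.Work.MP_f6469e_gt.Mir
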