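import Pool.Agent.Work.MP_f6469e_gt.Mir.Defs

/-!
# Mir/App (size S-M): simultaneous approximation (Dirichlet)

Pigeonhole: for `j = 0, …, M³` put `ρ i = (j Y i) % d` (in `[0, d)`) and the box `(M * ρ i / d)_i` in `(Fin M)³`. There are `M³ + 1`
values of `j`, so two `j₁ < j₂` are in the same box; `j = j₂ - j₁`, `k i = (j₂ Y i) / d - (j₁ Y i) / d`; then
`j Y i - d k i = ρ₂ i - ρ₁ i` and `M |ρ₂ i - ρ₁ i| < d` (two integers with the same quotient by `d` differ by less than `d`).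
-/

set_option autoImplicit false

namespace Pool.Agent.Work.MP_f6469e_gt.Mir

open Pool.Agent.Work.MP_f6469e_gt

private theorem app_aux {M : ℕ} {d : ℤ} (hd : 0 < d) {a b : ℤ}
    (h : ((M : ℤ) * (a % d)) / d = ((M : ℤ) * (b % d)) / d) :
    (M : ℤ) * |(b - a) - d * (b / d - a / d)| < d := by
  have e1 : (b - a) - d * (b / d - a / d) = b % d - a % d := by
    rw [Int.emod_def, Int.emod_def]
    ring
  have e2 : (M : ℤ) * |b % d - a % d| = |(M : ℤ) * (b % d) - (M : ℤ) * (a % d)| := by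
    rw [← mul_sub, abs_mul, abs_of_nonneg (Int.natCast_nonneg M)]
  have s1 := Int.emod_nonneg ((M : ℤ) * (a % d)) hd.ne'
  have s2 := Int.emod_lt_of_pos ((M : ℤ) * (a % d)) hd
  have s3 := Int.emod_nonneg ((M : ℤ) * (b % d)) hd.ne'
  have s4 := Int.emod_lt_of_pos ((M : ℤ) * (b % d)) hd
  rw [Int.emod_def] at s1 s2 s3 s4
  rw [e1, e2, abs_lt]
  rw [h] at s1 s2
  constructor
  · linarith
  · linarith

private theorem app_fin {M : ℕ} {d : ℤ} (hd : 0 < d) (Y : Fin 3 → ℤ) {j₁ j₂ : ℕ} (h12 : j₁ < j₂)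
    (h2 : j₂ ≤ M ^ 3)
    (h : ∀ i, ((M : ℤ) * ((j₁ * Y i) % d)) / d = ((M : ℤ) * ((j₂ * Y i) % d)) / d) :
    ∃ (j : ℤ) (k : Fin 3 → ℤ), 1 ≤ j ∧ j ≤ (M : ℤ) ^ 3 ∧
      ∀ i, (M : ℤ) * |j * Y i - d * k i| < d := by
  refine ⟨(j₂ : ℤ) - j₁, fun i => (j₂ * Y i) / d - (j₁ * Y i) / d, by omega, ?_, fun i => ?_⟩
  · have : (j₂ : ℤ) ≤ (M : ℤ) ^ 3 := by exact_mod_cast h2
    have h0 : (0 : ℤ) ≤ j₁ := Int.natCast_nonneg _
    linarith
  · have h1 := app_aux (M := M) hd (h i)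
    have e : (j₂ : ℤ) * Y i - j₁ * Y i = ((j₂ : ℤ) - j₁) * Y i := by ring
    rw [e] at h1
    exact h1

theorem dirichlet_approx {M : ℕ} (hM : 0 < M) {d : ℤ} (hd : 0 < d) (Y : Fin 3 → ℤ) :
    ∃ (j : ℤ) (k : Fin 3 → ℤ), 1 ≤ j ∧ j ≤ (M : ℤ) ^ 3 ∧
      ∀ i, (M : ℤ) * |j * Y i - d * k i| < d := by
  have hb : ∀ r : ℤ, 0 ≤ ((M : ℤ) * (r % d)) / d ∧ ((M : ℤ) * (r % d)) / d < M := by
    intro r
    have h1 := Int.emod_nonneg r hd.ne'
    have h2 := Int.emod_lt_of_pos r hd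
    have hM' : (0 : ℤ) < M := by exact_mod_cast hM
    refine ⟨Int.ediv_nonneg (mul_nonneg hM'.le h1) hd.le, Int.ediv_lt_of_lt_mul hd ?_⟩
    exact mul_lt_mul_of_pos_left h2 hM'
  obtain ⟨x, y, hxy, he⟩ := Fintype.exists_ne_map_eq_of_card_lt
    (fun (j : Fin (M ^ 3 + 1)) (i : Fin 3) =>
      (⟨(((M : ℤ) * (((j : ℕ) * Y i) % d)) / d).toNat, by
        have := hb (((j : ℕ) : ℤ) * Y i)
        omega⟩ : Fin M)) (by
      rw [Fintype.card_fun, Fintype.card_fin, Fintype.card_fin, Fintype.card_fin]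
      omega)
  have h' : ∀ i, ((M : ℤ) * (((x : ℕ) * Y i) % d)) / d = ((M : ℤ) * (((y : ℕ) * Y i) % d)) / d := by
    intro i
    have h1 := congrArg Fin.val (congrFun he i)
    have h2 := hb (((x : ℕ) : ℤ) * Y i)
    have h3 := hb (((y : ℕ) : ℤ) * Y i)
    simp only at h1
    omega
  rcases lt_or_gt_of_ne (fun h => hxy (Fin.ext h) : (x : ℕ) ≠ y) with h | h
  · exact app_fin hd Y h (by omega) h'
  · exact app_fin hd Y h (by omega) fun i => (h' i).symm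

end Pool.Agent.Work.MP_f6469e_gt.Mir
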