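import Pool.Agent.Work.MP_f6469e_gt.Mir.Dis

/-!
# Mir/PDj (size S-M): walls which do not meet

* `dj`: if `i ∈ B`, `j ≠ i`, `L (e i) (e j) ≠ 0` then `L (e i) (e j) ≤ -1` (`dis`), and `Dj n (e i) (e j)`: `fut` with `p` (`pT`, `pn`: `L p (e i) ≤ 0` and
  `L p (e j) ≤ 0`, one of them is `< 0` as `i`, `j` are not both in `T`: for `i, j ∈ T` the product is `0` by `orth`).
* `act_orth`: by `dj` and `Dj.time_zero'`.
* `cone_min`: apply `hmin` to `y` divided by `√(-L y y)`.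
-/

set_option autoImplicit false

namespace Pool.Agent.Work.MP_f6469e_gt.Mir

open Pool.Agent.Work.MP_f6469e_gt

theorem Piece.dj {n N : ℕ} {e : Fin N → (Fin (n + 1) → ℝ)} {Λ : AddSubgroup (Fin (n + 1) → ℝ)}
    {B T : Finset (Fin N)} {p : Fin (n + 1) → ℝ} (h : Piece n N e Λ B T p) {i j : Fin N}
    (hi : i ∈ B) (hij : j ≠ i) (hne : L n (e i) (e j) ≠ 0) : Dj n (e i) (e j) := by
  have h1 : L n (e i) (e j) ≤ -1 := (h.dis i hi j hij).resolve_left hne
  have hle : ∀ k, L n p (e k) ≤ 0 := fun k => by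
    by_cases hk : k ∈ T
    · exact (h.pT k hk).le
    · exact (h.pn k hk).le
  refine ⟨?_, ?_, by linarith, ?_, p, ?_, h.p0, hle i, hle j, ?_⟩
  · rw [h.unit]
    norm_num
  · rw [h.unit]
    norm_num
  · rw [h.unit, h.unit]
    nlinarith
  · rw [h.pp]
    norm_num
  · by_cases hiT : i ∈ T
    · by_cases hjT : j ∈ T
      · exact absurd (h.orth i hiT j hjT (Ne.symm hij)) hne
      · exact Or.inr (h.pn j hjT)
    · exact Or.inl (h.pn i hiT)

/-- two walls through a point, one of them in `B`, are orthogonal -/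
theorem Piece.act_orth {n N : ℕ} {e : Fin N → (Fin (n + 1) → ℝ)}
    {Λ : AddSubgroup (Fin (n + 1) → ℝ)} {B T : Finset (Fin N)} {p : Fin (n + 1) → ℝ}
    (h : Piece n N e Λ B T p) {x : Fin (n + 1) → ℝ} (hx0 : 0 < x 0) (hxx : L n x x < 0)
    {i j : Fin N} (hi : i ∈ B) (hij : j ≠ i) (hxi : L n x (e i) = 0) (hxj : L n x (e j) = 0) :
    L n (e i) (e j) = 0 := by
  by_contra hne
  have h1 := (h.dj hi hij hne).time_zero' hx0 hxx hxi
  linarith

theorem cone_min {n N : ℕ} {e : Fin N → (Fin (n + 1) → ℝ)} {Λ : AddSubgroup (Fin (n + 1) → ℝ)}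
    {T : Finset (Fin N)} {μ : ℝ} (hμ : 0 < μ)
    (hmin : ∀ x ∈ Face n e T, ∀ u ∈ Cus n Λ e T, μ ≤ -L n x u) {y u : Fin (n + 1) → ℝ}
    (hy0 : 0 < y 0) (hyy : L n y y < 0) (hye : ∀ i, L n y (e i) ≤ 0)
    (hyT : ∀ i ∈ T, L n y (e i) = 0) (hu : u ∈ Cus n Λ e T) :
    μ ^ 2 * (-L n y y) ≤ L n y u ^ 2 := by
  obtain ⟨s, hs, hs2⟩ : ∃ s : ℝ, 0 < s ∧ s ^ 2 = -L n y y :=
    ⟨Real.sqrt (-L n y y), Real.sqrt_pos.2 (by linarith), Real.sq_sqrt (by linarith)⟩
  have hx : s⁻¹ • y ∈ Face n e T := by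
    refine ⟨?_, ?_, fun i => ?_, fun i hi => ?_⟩
    · show 0 < s⁻¹ * y 0
      positivity
    · rw [L_smul_left, L_smul_right]
      have e1 : L n y y = -s ^ 2 := by linarith
      rw [e1]
      field_simp
    · rw [L_smul_left]
      exact mul_nonpos_of_nonneg_of_nonpos (by positivity) (hye i)
    · rw [L_smul_left, hyT i hi, mul_zero]
  have h1 := hmin _ hx u hu
  rw [L_smul_left] at h1
  have h2 : μ * s ≤ -L n y u := by
    have h3 := mul_le_mul_of_nonneg_right h1 hs.le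
    have h4 : -(s⁻¹ * L n y u) * s = -L n y u := by
      field_simp
    rw [h4] at h3
    exact h3
  have h3 : (μ * s) ^ 2 ≤ (-L n y u) ^ 2 := pow_le_pow_left₀ (by positivity) h2 2
  rw [← hs2]
  calc μ ^ 2 * s ^ 2 = (μ * s) ^ 2 := by ring
    _ ≤ (-L n y u) ^ 2 := h3
    _ = L n y u ^ 2 := by ring

end Pool.Agent.Work.MP_f6469e_gt.Mir
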