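import Pool.Agent.Work.MP_f6469e_gt.Mir.MirT
import Pool.Agent.Work.MP_f6469e_gt.Mir.Finu
import Pool.Agent.Work.MP_f6469e_gt.Mir.PDj

/-!
# Mir/Back (size M-L): the mirrored cusp gives a contradiction

`μ = -L x₁ u₁ > 0`; `L u₁ (e b) = μ`. Let `v = c • e b ∈ Λ`, `c > 0` (`rat`), and apply `exists_mirror` with the set of the `c i • e i`, `i ∈ T`: there is `u' ∈ Cus` with
`L u' (e b) = -μ`. Let `S = {u ∈ Cus | L u (e b) = -μ}` and `u₃ ∈ S` with the least `-L p u₃` (`exists_min`).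
(1) If `j ∉ B`, `j` orthogonal to `T` and to `b`, then `L u₃ (e j) ≤ 0`: otherwise `u = u₃ - 2 L u₃ (e j) e j ∈ S` has smaller `-L p` (`L p (e j) < 0`; `j ∉ T` as `T ⊆ B`).
`0 < u 0`: `L u₃ u = -2 (L u₃ (e j))² < 0`, while `null_le` for `u₃`, `-u` would give `L u₃ u ≥ 0` if `u 0 < 0`, and a null vector with `u 0 = 0` is zero.
(2) `x₃ = μ⁻¹ u₃ + e b`: `L x₃ x₃ = -1`, `L x₃ (e b) = 0`, `L x₃ (e t) = 0` for `t ∈ T`, `L p x₃ < 0` (`L p u₃ < 0`, `L p (e b) < 0`), so `0 < x₃ 0`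
(`time_zero`). For `j ∉ T`, `j ≠ b`: if `L (e b) (e j) ≠ 0` then `L x₃ (e j) < 0` (`dj`, `Dj.time_zero'`); if `L (e t) (e j) ≠ 0` for some `t ∈ T` then
`L x₃ (e j) < 0` as well; otherwise `j` is orthogonal to `b` and `T`, so `j ∉ B` by `top`, and `L x₃ (e j) = μ⁻¹ L u₃ (e j) ≤ 0` by (1).
(3) For small `ε ∈ (0, 1)` the vector `y = x₃ - ε e b` satisfies the conditions of `cone_min`: `L y (e b) = -ε`, `L y (e t) = 0`; for `j` orthogonal to `b` nothing changes; for the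
finitely many other `j`: `L x₃ (e j) < 0`. `L y y = -1 + ε²`, `L y u₃ = -μ + ε μ` (`L x₃ u₃ = L (e b) u₃ = -μ`), so `μ² (1 - ε²) ≤ μ² (1 - ε)²`, a contradiction.
-/

set_option autoImplicit false

namespace Pool.Agent.Work.MP_f6469e_gt.Mir

open Pool.Agent.Work.MP_f6469e_gt

private theorem nbhd {n N : ℕ} {e : Fin N → (Fin (n + 1) → ℝ)} {x w : Fin (n + 1) → ℝ}
    (hx0 : 0 < x 0) (hxx : L n x x < 0) (hx : ∀ j, L n x (e j) ≤ 0)
    (hw : ∀ j, L n x (e j) = 0 → L n w (e j) ≤ 0) :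
    ∀ᶠ ε in nhdsWithin (0 : ℝ) (Set.Ioi 0), 0 < (x + ε • w) 0 ∧
      L n (x + ε • w) (x + ε • w) < 0 ∧ ∀ j, L n (x + ε • w) (e j) ≤ 0 := by
  have hc : Continuous fun ε : ℝ => x + ε • w := by fun_prop
  have h1 : ∀ᶠ ε in nhdsWithin (0 : ℝ) (Set.Ioi 0), 0 < (x + ε • w) 0 := by
    have hc1 : Continuous fun ε : ℝ => (x + ε • w) 0 := (continuous_apply 0).comp hc
    have := (hc1.tendsto 0).eventually (lt_mem_nhds (a := 0) (by simpa using hx0))
    exact this.filter_mono nhdsWithin_le_nhds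
  have h2 : ∀ᶠ ε in nhdsWithin (0 : ℝ) (Set.Ioi 0), L n (x + ε • w) (x + ε • w) < 0 := by
    have hc1 : Continuous fun ε : ℝ => L n (x + ε • w) (x + ε • w) :=
      continuous_L.comp (hc.prodMk hc)
    have := (hc1.tendsto 0).eventually_lt_const (u := 0) (by simpa using hxx)
    exact this.filter_mono nhdsWithin_le_nhds
  have h3 : ∀ j, ∀ᶠ ε in nhdsWithin (0 : ℝ) (Set.Ioi 0), L n (x + ε • w) (e j) ≤ 0 := by
    intro j
    rcases (hx j).eq_or_lt with h | h
    · filter_upwards [self_mem_nhdsWithin] with ε hε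
      rw [L_add_left, L_smul_left, h, zero_add]
      exact mul_nonpos_of_nonneg_of_nonpos (le_of_lt hε) (hw j h)
    · have hc1 : Continuous fun ε : ℝ => L n (x + ε • w) (e j) :=
        continuous_L.comp (hc.prodMk continuous_const)
      have := (hc1.tendsto 0).eventually_lt_const (u := 0) (by simpa using h)
      exact (this.filter_mono nhdsWithin_le_nhds).mono fun _ hh => le_of_lt hh
  exact h1.and (h2.and (Filter.eventually_all.mpr h3))

private theorem lam_le {n N : ℕ} {e : Fin N → (Fin (n + 1) → ℝ)}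
    {Λ : AddSubgroup (Fin (n + 1) → ℝ)} {T : Finset (Fin N)} {μ : ℝ} (hμ : 0 < μ)
    (hmin : ∀ x ∈ Face n e T, ∀ u ∈ Cus n Λ e T, μ ≤ -L n x u) {x w u : Fin (n + 1) → ℝ}
    (hx0 : 0 < x 0) (hxx : L n x x = -1) (hx : ∀ j, L n x (e j) ≤ 0)
    (hxT : ∀ i ∈ T, L n x (e i) = 0) (hwT : ∀ i ∈ T, L n w (e i) = 0)
    (hw : ∀ j, L n x (e j) = 0 → L n w (e j) ≤ 0) (hwx : L n w x = 0) (hu : u ∈ Cus n Λ e T)
    (hxu : L n x u = -μ) : L n w u ≤ 0 := by
  have h1 : ∀ᶠ ε in nhdsWithin (0 : ℝ) (Set.Ioi 0),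
      2 * μ * L n w u ≤ ε * (L n w u ^ 2 + μ ^ 2 * L n w w) := by
    filter_upwards [nbhd hx0 (by rw [hxx]; norm_num) hx hw, self_mem_nhdsWithin] with ε h2 hε
    obtain ⟨h3, h4, h5⟩ := h2
    have h6 := cone_min (n := n) (Λ := Λ) hμ hmin h3 h4 h5 (fun i hi => by
      rw [L_add_left, L_smul_left, hxT i hi, hwT i hi]; ring) hu
    have h7 : L n (x + ε • w) (x + ε • w) = -1 + ε ^ 2 * L n w w := by
      simp only [L_add_left, L_add_right, L_smul_left, L_smul_right, hxx, hwx, L_comm x w]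
      ring
    have h8 : L n (x + ε • w) u = -μ + ε * L n w u := by
      simp only [L_add_left, L_smul_left, hxu]
    rw [h7, h8] at h6
    have hε' : (0 : ℝ) < ε := hε
    have h9 : 0 ≤ ε * (ε * (L n w u ^ 2 + μ ^ 2 * L n w w) - 2 * μ * L n w u) := by
      nlinarith
    have h10 := nonneg_of_mul_nonneg_right h9 hε'
    linarith
  have h2 : Filter.Tendsto (fun ε : ℝ => ε * (L n w u ^ 2 + μ ^ 2 * L n w w))
      (nhdsWithin (0 : ℝ) (Set.Ioi 0)) (nhds 0) := by
    have hc : Continuous fun ε : ℝ => ε * (L n w u ^ 2 + μ ^ 2 * L n w w) := by fun_prop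
    have := hc.tendsto 0
    rw [zero_mul] at this
    exact this.mono_left nhdsWithin_le_nhds
  have h3 := ge_of_tendsto h2 h1
  nlinarith

theorem Piece.back {n N : ℕ} {e : Fin N → (Fin (n + 1) → ℝ)}
    {Λ : AddSubgroup (Fin (n + 1) → ℝ)} {B T : Finset (Fin N)} {p : Fin (n + 1) → ℝ}
    (h : Piece n N e Λ B T p) {x₁ u₁ : Fin (n + 1) → ℝ} (hx₁ : x₁ ∈ Face n e T)
    (hu₁ : u₁ ∈ Cus n Λ e T)
    (hmin : ∀ x ∈ Face n e T, ∀ u ∈ Cus n Λ e T, -L n x₁ u₁ ≤ -L n x u) {b : Fin N}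
    (hb : b ∈ B) (hbT : b ∉ T) (hbo : ∀ t ∈ T, L n (e t) (e b) = 0)
    (hxb : L n x₁ (e b) = 0) (hu : u₁ = (-L n x₁ u₁) • (x₁ + e b)) : False := by
  classical
  obtain ⟨hx0, hxx, hxe, hxT⟩ := hx₁
  obtain ⟨huΛ, hu0, huu, huT⟩ := hu₁
  have hxx' : L n x₁ x₁ < 0 := by rw [hxx]; norm_num
  have hpp' : L n p p < 0 := by rw [h.pp]; norm_num
  have hxu : L n x₁ u₁ < 0 := L_neg hxx' hx0 huu.le hu0
  obtain ⟨μ, hμ⟩ : ∃ μ : ℝ, μ = -L n x₁ u₁ := ⟨_, rfl⟩
  have hμ0 : 0 < μ := by linarith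
  rw [← hμ] at hu
  have hub : L n u₁ (e b) = μ := by
    rw [hu, L_smul_left, L_add_left, hxb, h.unit b]; ring
  have hrat := h.rat
  choose! c hc using hrat
  have hcb := hc b hb
  obtain ⟨u', hu'Λ, hu'0, hu'u', hu'T, hu'b⟩ := exists_mirror h.lat
    (T.image fun i => c i • e i)
    (fun t ht => by
      obtain ⟨i, hi, rfl⟩ := Finset.mem_image.mp ht
      refine ⟨(hc i (h.sub hi)).2, ?_⟩
      have := (hc i (h.sub hi)).1
      rw [L_smul_left, L_smul_right, h.unit i]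
      positivity)
    (fun s hs t ht hst => by
      obtain ⟨i, hi, rfl⟩ := Finset.mem_image.mp hs
      obtain ⟨j, hj, rfl⟩ := Finset.mem_image.mp ht
      have hij : i ≠ j := fun hh => hst (by rw [hh])
      rw [L_smul_left, L_smul_right, h.orth i hi j hj hij]; ring)
    (le_trans (Nat.add_le_add_right Finset.card_image_le 4) h.card)
    huΛ hu0 huu
    (fun t ht => by
      obtain ⟨i, hi, rfl⟩ := Finset.mem_image.mp ht
      rw [L_smul_right, huT i hi]; ring)
    hcb.2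
    (by rw [L_smul_left, L_smul_right, h.unit b]; have := hcb.1; positivity)
    (fun t ht => by
      obtain ⟨i, hi, rfl⟩ := Finset.mem_image.mp ht
      rw [L_smul_left, L_smul_right, L_comm (e b), hbo i hi]; ring)
    (by rw [L_smul_right, hub]; have := hcb.1; positivity)
  have hu'C : u' ∈ Cus n Λ e T := by
    refine ⟨hu'Λ, hu'0, hu'u', fun i hi => ?_⟩
    have h1 := hu'T (c i • e i) (Finset.mem_image_of_mem _ hi)
    rw [L_smul_right] at h1
    exact (mul_eq_zero.mp h1).resolve_left (hc i (h.sub hi)).1.ne'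
  have hu'b' : L n u' (e b) = -μ := by
    rw [L_smul_right, L_smul_right, hub, ← mul_neg] at hu'b
    exact mul_left_cancel₀ hcb.1.ne' hu'b
  obtain ⟨u₃, ⟨hC, hb₃⟩, hmin₃⟩ := exists_min h.lat h.p0 hpp'
    {u | u ∈ Cus n Λ e T ∧ L n u (e b) = -μ}
    (fun u hu => ⟨hu.1.1, hu.1.2.1, hu.1.2.2.1⟩) ⟨u', hu'C, hu'b'⟩
  have hC' := hC
  obtain ⟨h3Λ, h30, h33, h3T⟩ := hC'
  have hpu₃ : L n p u₃ < 0 := L_neg hpp' h.p0 h33.le h30
  have hpb : L n p (e b) < 0 := h.pn b hbT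
  -- (1)
  have h1 : ∀ j, j ∉ B → (∀ t ∈ T, L n (e t) (e j) = 0) → L n (e b) (e j) = 0 →
      L n u₃ (e j) ≤ 0 := by
    intro j hjB hjo hbj
    by_contra hneg
    push Not at hneg
    have hjT : j ∉ T := fun hj => hjB (h.sub hj)
    obtain ⟨u, hu⟩ : ∃ u, u = u₃ - (2 * L n u₃ (e j)) • e j := ⟨_, rfl⟩
    have huu2 : L n u u = 0 := by
      rw [hu]
      simp only [L_sub_left, L_sub_right, L_smul_left, L_smul_right, h33, h.unit j,
        L_comm (e j) u₃]
      ring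
    have hub2 : L n u (e b) = -μ := by
      rw [hu, L_sub_left, L_smul_left, hb₃, L_comm (e j), hbj]; ring
    have hu₃u : L n u₃ u = -(2 * L n u₃ (e j) ^ 2) := by
      rw [hu, L_sub_right, L_smul_right, h33]; ring
    have hu₃u' : L n u₃ u < 0 := by
      rw [hu₃u]
      have := pow_pos hneg 2
      linarith
    have hpos : 0 < u 0 := by
      rcases lt_trichotomy (u 0) 0 with hh | hh | hh
      · exfalso
        have h5 : L n u₃ (-u) ≤ 0 := null_le h30 h33 (by simpa using hh)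
          (by rw [L_neg_left, L_neg_right, huu2]; norm_num)
        rw [L_neg_right] at h5
        linarith
      · exfalso
        have h5 : L n p u = 0 ∨ L n p u ≠ 0 := em _
        rcases h5 with h5 | h5
        · by_cases hu00 : u = 0
          · rw [hu00, L_zero_right] at hu₃u'
            exact lt_irrefl _ hu₃u'
          · have := L_pos_of_orth hpp' h5 hu00
            linarith
        · rcases lt_or_gt_of_ne h5 with h6 | h6
          · have := time_zero hpp' h.p0 huu2.le h6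
            linarith
          · have := time_zero (y := -u) hpp' h.p0
              (by rw [L_neg_left, L_neg_right, huu2]; norm_num)
              (by rw [L_neg_right]; linarith)
            simp only [Pi.neg_apply] at this
            linarith
      · exact hh
    have huC : u ∈ Cus n Λ e T := by
      refine ⟨?_, hpos, huu2, ?_⟩
      · rw [hu]; exact h.refl j hjB u₃ h3Λ
      · intro t ht
        rw [hu, L_sub_left, L_smul_left, h3T t ht, L_comm (e j) (e t), hjo t ht]; ring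
    have h5 := hmin₃ u ⟨huC, hub2⟩
    have h6 : L n p u = L n p u₃ - 2 * L n u₃ (e j) * L n p (e j) := by
      rw [hu, L_sub_right, L_smul_right]
    have h7 := h.pn j hjT
    rw [h6] at h5
    nlinarith [mul_pos hneg (neg_pos.mpr h7)]
  -- (2)
  obtain ⟨x₃, hx₃⟩ : ∃ x₃, x₃ = μ⁻¹ • u₃ + e b := ⟨_, rfl⟩
  have hμi : μ⁻¹ * μ = 1 := inv_mul_cancel₀ hμ0.ne'
  have hμi0 : 0 < μ⁻¹ := inv_pos.mpr hμ0
  have hx33 : L n x₃ x₃ = -1 := by
    rw [hx₃]
    simp only [L_add_left, L_add_right, L_smul_left, L_smul_right, h33, h.unit b,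
      L_comm (e b) u₃, hb₃]
    linarith
  have hx3b : L n x₃ (e b) = 0 := by
    rw [hx₃, L_add_left, L_smul_left, hb₃, h.unit b]
    linarith
  have hx3T : ∀ t ∈ T, L n x₃ (e t) = 0 := by
    intro t ht
    rw [hx₃, L_add_left, L_smul_left, h3T t ht, L_comm (e b), hbo t ht]; ring
  have hx3u : L n x₃ u₃ = -μ := by
    rw [hx₃, L_add_left, L_smul_left, h33, L_comm (e b), hb₃]; ring
  have hx33' : L n x₃ x₃ < 0 := by rw [hx33]; norm_num
  have hx30 : 0 < x₃ 0 := by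
    refine time_zero hpp' h.p0 hx33'.le ?_
    rw [hx₃, L_add_right, L_smul_right]
    have := mul_neg_of_pos_of_neg hμi0 hpu₃
    linarith
  have hneg3 : ∀ j, j ≠ b → j ∉ T → L n (e b) (e j) ≠ 0 → L n x₃ (e j) < 0 :=
    fun j hjb hjT hne => (h.dj hb hjb hne).time_zero' hx30 hx33' hx3b
  have hx3e : ∀ j, L n x₃ (e j) ≤ 0 := by
    intro j
    by_cases hjb : j = b
    · rw [hjb, hx3b]
    by_cases hjT : j ∈ T
    · rw [hx3T j hjT]
    by_cases hbj : L n (e b) (e j) = 0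
    · by_cases hjo : ∀ t ∈ T, L n (e t) (e j) = 0
      · have hjB : j ∉ B := fun hjB =>
          h.top b hb j hjB hbT hjT (fun hh => hjb hh.symm) hbo hjo hbj
        rw [hx₃, L_add_left, L_smul_left, hbj, add_zero]
        exact mul_nonpos_of_nonneg_of_nonpos hμi0.le (h1 j hjB hjo hbj)
      · push Not at hjo
        obtain ⟨t, ht, hne⟩ := hjo
        exact ((h.dj (h.sub ht) (fun hh => hjT (by rw [hh]; exact ht)) hne).time_zero' hx30 hx33'
          (hx3T t ht)).le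
    · exact (hneg3 j hjb hjT hbj).le
  -- (3)
  have h5 := lam_le (w := -e b) hμ0
    (fun x hx u hu => by have := hmin x hx u hu; linarith) hx30 hx33 hx3e hx3T
    (fun t ht => by rw [L_neg_left, L_comm (e b), hbo t ht, neg_zero])
    (fun j hj => by
      rw [L_neg_left]
      by_cases hjb : j = b
      · rw [hjb, h.unit b]; norm_num
      by_cases hjT : j ∈ T
      · rw [L_comm (e b), hbo j hjT, neg_zero]
      by_cases hbj : L n (e b) (e j) = 0
      · rw [hbj, neg_zero]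
      · exact absurd hj (hneg3 j hjb hjT hbj).ne)
    (by rw [L_neg_left, L_comm (e b), hx3b, neg_zero]) hC hx3u
  rw [L_neg_left, L_comm (e b), hb₃] at h5
  linarith

end Pool.Agent.Work.MP_f6469e_gt.Mir
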