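import Pool.Agent.Work.MP_f6469e_gt.Mir.Defs

/-!
# Mir/Cliq (size S-M): a clique of maximal size, less one element

Take a clique `M` of maximal size `m ≤ k` among the finite cliques in `W` (`Nat.findGreatest` or a maximal element of the set of sizes).
If `m = 0` take `T = ∅` (then `W` is empty, as `{v}` would be a clique). If `m ≥ 1` take `T = M.erase a` for some `a ∈ M`: if `v ≠ w` in `W`, not in `T`,
are related to all of `T` and to each other, then `insert v (insert w T)` is a clique with `m + 1` elements.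
-/

set_option autoImplicit false

namespace Pool.Agent.Work.MP_f6469e_gt.Mir

open Pool.Agent.Work.MP_f6469e_gt

theorem exists_clique {α : Type*} [DecidableEq α] (W : Set α) (r : α → α → Prop)
    (hsym : ∀ v w, r v w → r w v) {k : ℕ} (hk : 1 ≤ k)
    (h : ∀ T : Finset α, (T : Set α) ⊆ W → (∀ v ∈ T, ∀ w ∈ T, v ≠ w → r v w) → T.card ≤ k) :
    ∃ T : Finset α, (T : Set α) ⊆ W ∧ (∀ v ∈ T, ∀ w ∈ T, v ≠ w → r v w) ∧ T.card + 1 ≤ k ∧
      ∀ v ∈ W, ∀ w ∈ W, v ∉ T → w ∉ T → v ≠ w → (∀ t ∈ T, r t v) → (∀ t ∈ T, r t w) →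
        ¬ r v w := by
  classical
  obtain ⟨M, hMW, hMr, hmax⟩ : ∃ M : Finset α, (M : Set α) ⊆ W ∧
      (∀ v ∈ M, ∀ w ∈ M, v ≠ w → r v w) ∧ ∀ T : Finset α, (T : Set α) ⊆ W →
        (∀ v ∈ T, ∀ w ∈ T, v ≠ w → r v w) → T.card ≤ M.card := by
    obtain ⟨P, hP⟩ : ∃ P : ℕ → Prop, ∀ m, P m ↔ ∃ T : Finset α, (T : Set α) ⊆ W ∧
        (∀ v ∈ T, ∀ w ∈ T, v ≠ w → r v w) ∧ T.card = m := ⟨_, fun _ => Iff.rfl⟩
    have h0 : P 0 := (hP 0).2 ⟨∅, by simp, by simp, rfl⟩
    have h1 := Nat.findGreatest_spec (P := P) (Nat.zero_le k) h0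
    obtain ⟨M, hM1, hM2, hM3⟩ := (hP _).1 h1
    refine ⟨M, hM1, hM2, fun T hT1 hT2 => ?_⟩
    rw [hM3]
    exact Nat.le_findGreatest (h T hT1 hT2) ((hP _).2 ⟨T, hT1, hT2, rfl⟩)
  rcases M.eq_empty_or_nonempty with hM | ⟨a, ha⟩
  · refine ⟨∅, by simp, by simp, by simpa using hk, fun v hv w _ _ _ _ _ _ _ => ?_⟩
    have h1 := hmax {v} (by simpa using hv) (by
      intro x hx y hy hxy
      rw [Finset.mem_singleton] at hx hy
      exact absurd (hx.trans hy.symm) hxy)
    rw [hM, Finset.card_singleton, Finset.card_empty] at h1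
    omega
  · have hcard : (M.erase a).card + 1 = M.card := Finset.card_erase_add_one ha
    have hsub : (((M.erase a : Finset α)) : Set α) ⊆ W := fun x hx =>
      hMW (Finset.mem_of_mem_erase hx)
    have hcl : ∀ v ∈ M.erase a, ∀ w ∈ M.erase a, v ≠ w → r v w := fun v hv w hw hvw =>
      hMr v (Finset.mem_of_mem_erase hv) w (Finset.mem_of_mem_erase hw) hvw
    refine ⟨M.erase a, hsub, hcl, ?_, ?_⟩
    · rw [hcard]
      exact h M hMW hMr
    · intro v hv w hw hvT hwT hvw hTv hTw hr
      have h1 := hmax (insert v (insert w (M.erase a))) (by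
        intro x hx
        rw [Finset.mem_coe, Finset.mem_insert, Finset.mem_insert] at hx
        rcases hx with hx | hx | hx
        · rw [hx]; exact hv
        · rw [hx]; exact hw
        · exact hsub hx) (by
        intro x hx y hy hxy
        rw [Finset.mem_insert, Finset.mem_insert] at hx hy
        rcases hx with hx | hx | hx
        · rcases hy with hy | hy | hy
          · exact absurd (hx.trans hy.symm) hxy
          · rw [hx, hy]; exact hr
          · rw [hx]; exact hsym _ _ (hTv y hy)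
        · rcases hy with hy | hy | hy
          · rw [hx, hy]; exact hsym _ _ hr
          · exact absurd (hx.trans hy.symm) hxy
          · rw [hx]; exact hsym _ _ (hTw y hy)
        · rcases hy with hy | hy | hy
          · rw [hy]; exact hTv x hx
          · rw [hy]; exact hTw x hx
          · exact hcl x hx y hy hxy)
      have h2 : v ∉ insert w (M.erase a) := by
        rw [Finset.mem_insert]
        exact fun h => h.elim hvw hvT
      rw [Finset.card_insert_of_notMem h2, Finset.card_insert_of_notMem hwT] at h1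
      omega

end Pool.Agent.Work.MP_f6469e_gt.Mir
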