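import Pool.Agent.Work.MP_f6469e_gt.Mir.Defs

/-!
# Mir/Dsc (size S-M): the descent step of Davenport and Cassels

Put `g₀ = ∑ a i Y i k i`, `κ = ∑ a i k i²`, `d' = j² N d - 2 j g₀ + d κ`, `g = j N d - g₀`,
`Y' i = (κ - j² N) Y i + 2 g k i`. Then `∑ a i (j Y i - d k i)² = d d'` (expand, use `hY`), so `0 < d' < d`, and
`∑ a i Y' i² = (κ - j² N)² N d² + 4 g (κ - j² N) g₀ + 4 g² κ = N d'²` (`ring` after rewriting the three sums).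
-/

set_option autoImplicit false

namespace Pool.Agent.Work.MP_f6469e_gt.Mir

open Pool.Agent.Work.MP_f6469e_gt

private theorem comb_sum (a Y k : Fin 3 → ℤ) (α β : ℤ) :
    ∑ i, a i * (α * Y i + β * k i) ^ 2 = α ^ 2 * (∑ i, a i * Y i ^ 2) +
      2 * α * β * (∑ i, a i * Y i * k i) + β ^ 2 * ∑ i, a i * k i ^ 2 := by
  simp only [Fin.sum_univ_three]
  ring

theorem descent_step (a : Fin 3 → ℤ) {N d : ℤ} (hd : 0 < d) {Y : Fin 3 → ℤ}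
    (hY : ∑ i, a i * Y i ^ 2 = N * d ^ 2) {j : ℤ} {k : Fin 3 → ℤ}
    (hpos : 0 < ∑ i, a i * (j * Y i - d * k i) ^ 2)
    (hlt : ∑ i, a i * (j * Y i - d * k i) ^ 2 < d ^ 2) :
    ∃ (d' : ℤ) (Y' : Fin 3 → ℤ), 0 < d' ∧ d' < d ∧ ∑ i, a i * Y' i ^ 2 = N * d' ^ 2 := by
  obtain ⟨g, hg⟩ : ∃ g : ℤ, g = ∑ i, a i * Y i * k i := ⟨_, rfl⟩
  obtain ⟨κ, hκ⟩ : ∃ κ : ℤ, κ = ∑ i, a i * k i ^ 2 := ⟨_, rfl⟩
  have h1 : ∑ i, a i * (j * Y i - d * k i) ^ 2 = d * (j ^ 2 * N * d - 2 * j * g + d * κ) := by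
    have e : ∀ i, j * Y i - d * k i = j * Y i + (-d) * k i := fun i => by ring
    simp only [e]
    rw [comb_sum, hY, ← hg, ← hκ]
    ring
  rw [h1] at hpos hlt
  refine ⟨j ^ 2 * N * d - 2 * j * g + d * κ,
    fun i => (κ - j ^ 2 * N) * Y i + 2 * (j * N * d - g) * k i, ?_, ?_, ?_⟩
  · exact (mul_pos_iff_of_pos_left hd).1 hpos
  · have h2 : d * (j ^ 2 * N * d - 2 * j * g + d * κ) < d * d := by
      rw [← pow_two]
      exact hlt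
    exact lt_of_mul_lt_mul_left h2 hd.le
  · rw [comb_sum, hY, ← hg, ← hκ]
    ring

end Pool.Agent.Work.MP_f6469e_gt.Mir
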