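import Pool.Agent.Work.MP_f6469e_gt.Mir.App
import Pool.Agent.Work.MP_f6469e_gt.Mir.Dsc

/-!
# Mir/Cls (size M): from rational to integral representations up to a fixed factor

Take `M` with `M² > ∑ a i` (e.g. `M = ∑ a i + 1`) and `h = (M³)!`. Strong induction on `d` (as a natural number): take `j`, `k` from
`dirichlet_approx`. `∑ a i (j Y i - d k i)² < d²`, as `M² (j Y i - d k i)² < d²` for each `i` and `∑ a i < M²`. If the sum is `0` then
`j Y i = d k i` for all `i` (`a i > 0`), so `∑ a i k i² = j² N` (cancel `d²`), and `y i = (h / j) k i` works (`j ∣ h` since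
`1 ≤ j ≤ M³`). Otherwise `descent_step` and the induction hypothesis for `d'`.
-/

set_option autoImplicit false

namespace Pool.Agent.Work.MP_f6469e_gt.Mir

open Pool.Agent.Work.MP_f6469e_gt

private theorem cls_small {a : Fin 3 → ℤ} (ha : ∀ i, 0 < a i) {M : ℤ} (hM : ∑ i, a i < M ^ 2)
    {d : ℤ} (hd : 0 < d) {u : Fin 3 → ℤ} (hu : ∀ i, M * |u i| < d) (hM0 : 0 < M) :
    ∑ i, a i * u i ^ 2 < d ^ 2 := by
  have h1 : ∀ i, M ^ 2 * u i ^ 2 < d ^ 2 := by
    intro i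
    have h2 : (M * |u i|) ^ 2 < d ^ 2 :=
      pow_lt_pow_left₀ (hu i) (mul_nonneg hM0.le (abs_nonneg _)) two_ne_zero
    rw [mul_pow, sq_abs] at h2
    exact h2
  have h3 : M ^ 2 * ∑ i, a i * u i ^ 2 < M ^ 2 * d ^ 2 := by
    have h4 : M ^ 2 * ∑ i, a i * u i ^ 2 ≤ (∑ i, a i) * d ^ 2 := by
      rw [Finset.mul_sum, Finset.sum_mul]
      refine Finset.sum_le_sum fun i _ => ?_
      have := mul_le_mul_of_nonneg_left (h1 i).le (ha i).le
      calc M ^ 2 * (a i * u i ^ 2) = a i * (M ^ 2 * u i ^ 2) := by ring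
        _ ≤ _ := this
    have h5 : (∑ i, a i) * d ^ 2 < M ^ 2 * d ^ 2 := mul_lt_mul_of_pos_right hM (by positivity)
    exact lt_of_le_of_lt h4 h5
  exact lt_of_mul_lt_mul_left h3 (by positivity)

private theorem cls_zero {a : Fin 3 → ℤ} (ha : ∀ i, 0 < a i) {u : Fin 3 → ℤ}
    (h : ∑ i, a i * u i ^ 2 = 0) (i : Fin 3) : u i = 0 := by
  have h1 := (Finset.sum_eq_zero_iff_of_nonneg
    (fun i _ => mul_nonneg (ha i).le (sq_nonneg (u i)))).1 h i (Finset.mem_univ i)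
  rcases mul_eq_zero.1 h1 with h2 | h2
  · exact absurd h2 (ha i).ne'
  · exact pow_eq_zero_iff two_ne_zero |>.1 h2

theorem exists_scale (a : Fin 3 → ℤ) (ha : ∀ i, 0 < a i) : ∃ h : ℤ, 0 < h ∧
    ∀ (N d : ℤ) (Y : Fin 3 → ℤ), 0 < d → ∑ i, a i * Y i ^ 2 = N * d ^ 2 →
      ∃ y : Fin 3 → ℤ, ∑ i, a i * y i ^ 2 = h ^ 2 * N := by
  obtain ⟨M, hM0, hM⟩ : ∃ M : ℕ, 0 < M ∧ ∑ i, a i < (M : ℤ) ^ 2 := by
    refine ⟨(∑ i, a i).toNat + 1, Nat.succ_pos _, ?_⟩
    have h1 : ∑ i, a i ≤ ((∑ i, a i).toNat : ℤ) := Int.self_le_toNat _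
    push_cast
    nlinarith [Int.natCast_nonneg (∑ i, a i).toNat]
  refine ⟨((M ^ 3).factorial : ℤ), by exact_mod_cast Nat.factorial_pos _, ?_⟩
  intro N d Y hd hY
  obtain ⟨n, hn⟩ : ∃ n : ℕ, n = d.toNat := ⟨_, rfl⟩
  induction n using Nat.strong_induction_on generalizing d Y with
  | _ n ih =>
    obtain ⟨j, k, hj1, hj2, hk⟩ := dirichlet_approx hM0 hd Y
    have hlt := cls_small ha hM hd hk (by exact_mod_cast hM0)
    have hnn : 0 ≤ ∑ i, a i * (j * Y i - d * k i) ^ 2 :=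
      Finset.sum_nonneg fun i _ => mul_nonneg (ha i).le (sq_nonneg _)
    rcases hnn.lt_or_eq with hpos | hzero
    · obtain ⟨d', Y', hd', hlt', hY'⟩ := descent_step a hd hY hpos hlt
      exact ih d'.toNat (by omega) d' Y' hd' hY' rfl
    · have hu := cls_zero ha hzero.symm
      have hjY : ∀ i, j * Y i = d * k i := fun i => by
        have := hu i
        linarith
      have e1 : d ^ 2 * ∑ i, a i * k i ^ 2 = d ^ 2 * (j ^ 2 * N) := by
        have e2 : d ^ 2 * ∑ i, a i * k i ^ 2 = j ^ 2 * ∑ i, a i * Y i ^ 2 := by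
          rw [Finset.mul_sum, Finset.mul_sum]
          refine Finset.sum_congr rfl fun i _ => ?_
          have := hjY i
          linear_combination (-(a i) * (j * Y i + d * k i)) * this
        rw [e2, hY]
        ring
      have e3 : ∑ i, a i * k i ^ 2 = j ^ 2 * N :=
        mul_left_cancel₀ (pow_ne_zero 2 hd.ne') e1
      obtain ⟨j', rfl⟩ := Int.eq_ofNat_of_zero_le (by linarith : 0 ≤ j)
      have hj1' : 0 < j' := by
        have : (1 : ℤ) ≤ (j' : ℤ) := hj1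
        omega
      have hj2' : j' ≤ M ^ 3 := by exact_mod_cast hj2
      obtain ⟨c, hc⟩ := Nat.dvd_factorial hj1' hj2'
      refine ⟨fun i => (c : ℤ) * k i, ?_⟩
      have e4 : ∑ i, a i * ((c : ℤ) * k i) ^ 2 = (c : ℤ) ^ 2 * ∑ i, a i * k i ^ 2 := by
        rw [Finset.mul_sum]
        exact Finset.sum_congr rfl fun i _ => by ring
      rw [e4, e3, hc]
      push_cast
      ring

end Pool.Agent.Work.MP_f6469e_gt.Mir
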