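import Pool.Agent.Work.MP_f6469e_gt.Mir.HsM

/-!
# Mir/Comb (size M): the end of the proof of Meyer: algebra

In the rational numbers put `w = s₁ + s₂ > 0`, so `e w = m² n₀`.
`Hs (w s₁) (w s₂)`: `w s₁ + w s₂ = w²`. (1) times `n₀`: `n₀ e s₁ x² + n₀ p₂ y² = (n₀ z)²` and `n₀ e = w (e / m)²`, so `Hs (w s₁) (n₀ p₂)`
(`of_sq`; `z ≠ 0` gives `(x, y) ≠ 0`). (2): `Hs (w s₂) (n₀ p₁)`. (3): `Hs (n₀ p₁) (n₀ p₂)`.
`mul`: `Hs (w s₁) (w s₂ n₀ p₂)`, `Hs (n₀ p₁) (w s₂ n₀ p₂)`; `symm`, `mul`, `symm`: `Hs (w s₁ n₀ p₁) (w s₂ n₀ p₂)`. As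
`w n₀ = e (w / m)²`: `Hs (e s₁ p₁) (e s₂ p₂)` (`of_sq`, twice). So there are rational, hence integral `X, Y, Z` with
`s₁ p₁ X² + s₂ p₂ Y² = e Z²`, `(X, Y) ≠ 0` (divide the third variable by `e`, clear denominators).
With (4), (5) (`p₁ z₁² = f₁² + a b g₁²`, `p₂ z₂² = f₂² + c d g₂²`): multiply by `(z₁ z₂)²`:
`s₁ (p₁ z₁²) = (a x₀² + b x₁²)(f₁² + a b g₁²) = a (x₀ f₁ + b x₁ g₁)² + b (x₁ f₁ - a x₀ g₁)²`, and the same for `s₂`. The result is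
`a X₀² + b X₁² + c X₂² + d X₃² = e X₄²` with `X₄ = Z z₁ z₂`; the left side is `s₁ p₁ (X z₁ z₂)² + s₂ p₂ (Y z₁ z₂)² > 0`, so `X₄ ≠ 0`.
-/

set_option autoImplicit false

namespace Pool.Agent.Work.MP_f6469e_gt.Mir

open Pool.Agent.Work.MP_f6469e_gt

private theorem clear3 (x y z : ℚ) : ∃ D : ℤ, D ≠ 0 ∧ ∃ x' y' z' : ℤ,
    (x' : ℚ) = D * x ∧ (y' : ℚ) = D * y ∧ (z' : ℚ) = D * z := by
  have hx : x * x.den = x.num := Rat.mul_den_eq_num x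
  have hy : y * y.den = y.num := Rat.mul_den_eq_num y
  have hz : z * z.den = z.num := Rat.mul_den_eq_num z
  refine ⟨x.den * y.den * z.den, ?_, x.num * y.den * z.den, y.num * x.den * z.den,
    z.num * x.den * y.den, ?_, ?_, ?_⟩
  · have h1 := x.den_nz
    have h2 := y.den_nz
    have h3 := z.den_nz
    exact mul_ne_zero (mul_ne_zero (by exact_mod_cast h1) (by exact_mod_cast h2))
      (by exact_mod_cast h3)
  · push_cast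
    rw [← hx]
    ring
  · push_cast
    rw [← hy]
    ring
  · push_cast
    rw [← hz]
    ring

theorem combine {a b c d e s₁ s₂ m n₀ p₁ p₂ x₀ x₁ x₂ x₃ : ℤ} (ha : 0 < a) (hb : 0 < b)
    (hc : 0 < c) (hd : 0 < d) (he : 0 < e) (hs₁ : 0 < s₁) (hs₂ : 0 < s₂) (hm : 0 < m)
    (hn₀ : 0 < n₀) (hp₁ : 0 < p₁) (hp₂ : 0 < p₂) (h₁ : s₁ = a * x₀ ^ 2 + b * x₁ ^ 2)
    (h₂ : s₂ = c * x₂ ^ 2 + d * x₃ ^ 2) (hw : e * (s₁ + s₂) = m ^ 2 * n₀)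
    (l1 : ∃ x y z : ℤ, z ≠ 0 ∧ e * s₁ * x ^ 2 + p₂ * y ^ 2 = n₀ * z ^ 2)
    (l2 : ∃ x y z : ℤ, z ≠ 0 ∧ e * s₂ * x ^ 2 + p₁ * y ^ 2 = n₀ * z ^ 2)
    (l3 : ∃ x y z : ℤ, z ≠ 0 ∧ p₁ * x ^ 2 + p₂ * y ^ 2 = n₀ * z ^ 2)
    (l4 : ∃ x y z : ℤ, z ≠ 0 ∧ x ^ 2 + a * b * y ^ 2 = p₁ * z ^ 2)
    (l5 : ∃ x y z : ℤ, z ≠ 0 ∧ x ^ 2 + c * d * y ^ 2 = p₂ * z ^ 2) :
    ∃ y₀ y₁ y₂ y₃ y₄ : ℤ, y₄ ≠ 0 ∧
      a * y₀ ^ 2 + b * y₁ ^ 2 + c * y₂ ^ 2 + d * y₃ ^ 2 = e * y₄ ^ 2 := by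
  have heQ : (e : ℚ) ≠ 0 := by exact_mod_cast he.ne'
  have hmQ : (m : ℚ) ≠ 0 := by exact_mod_cast hm.ne'
  have hnQ : (n₀ : ℚ) ≠ 0 := by exact_mod_cast hn₀.ne'
  have hwpos : 0 < s₁ + s₂ := by omega
  have hwQ0 : ((s₁ : ℚ) + s₂) ≠ 0 := by exact_mod_cast hwpos.ne'
  obtain ⟨w, hwdef⟩ : ∃ w : ℚ, w = (s₁ : ℚ) + s₂ := ⟨_, rfl⟩
  rw [← hwdef] at hwQ0
  have hwQ : (e : ℚ) * w = m ^ 2 * n₀ := by
    rw [hwdef]
    exact_mod_cast hw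
  have hu : (n₀ : ℚ) * e = w * (e / m) ^ 2 := by
    field_simp
    linear_combination (-1 : ℚ) * hwQ
  have hv : w * (n₀ : ℚ) = e * (w / m) ^ 2 := by
    field_simp
    linear_combination (-1 : ℚ) * hwQ
  have H0 : Hs (w * s₁) (w * s₂) := by
    refine ⟨1, 1, w, fun h => one_ne_zero h.1, ?_⟩
    rw [hwdef]
    ring
  have H1 : Hs (w * s₁) (n₀ * p₂) := by
    obtain ⟨x, y, z, hz, hxyz⟩ := l1
    have hq : (e : ℚ) * s₁ * x ^ 2 + p₂ * y ^ 2 = n₀ * z ^ 2 := by exact_mod_cast hxyz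
    have hzQ : (z : ℚ) ≠ 0 := by exact_mod_cast hz
    refine ⟨e / m * x, y, n₀ * z, ?_, ?_⟩
    · rintro ⟨h1, h2⟩
      have h3 : (x : ℚ) = 0 := by
        rcases mul_eq_zero.mp h1 with h4 | h4
        · exact absurd h4 (div_ne_zero heQ hmQ)
        · exact h4
      rw [h3, h2] at hq
      have h4 : (n₀ : ℚ) * z ^ 2 = 0 := by linarith
      rcases mul_eq_zero.mp h4 with h5 | h5
      · exact hnQ h5
      · exact hzQ (pow_eq_zero_iff (two_ne_zero)|>.mp h5)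
    · linear_combination (n₀ : ℚ) * hq - (s₁ : ℚ) * x ^ 2 * hu
  have H2 : Hs (w * s₂) (n₀ * p₁) := by
    obtain ⟨x, y, z, hz, hxyz⟩ := l2
    have hq : (e : ℚ) * s₂ * x ^ 2 + p₁ * y ^ 2 = n₀ * z ^ 2 := by exact_mod_cast hxyz
    have hzQ : (z : ℚ) ≠ 0 := by exact_mod_cast hz
    refine ⟨e / m * x, y, n₀ * z, ?_, ?_⟩
    · rintro ⟨h1, h2⟩
      have h3 : (x : ℚ) = 0 := by
        rcases mul_eq_zero.mp h1 with h4 | h4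
        · exact absurd h4 (div_ne_zero heQ hmQ)
        · exact h4
      rw [h3, h2] at hq
      have h4 : (n₀ : ℚ) * z ^ 2 = 0 := by linarith
      rcases mul_eq_zero.mp h4 with h5 | h5
      · exact hnQ h5
      · exact hzQ (pow_eq_zero_iff (two_ne_zero)|>.mp h5)
    · linear_combination (n₀ : ℚ) * hq - (s₂ : ℚ) * x ^ 2 * hu
  have H3 : Hs (n₀ * p₁) (n₀ * p₂) := by
    obtain ⟨x, y, z, hz, hxyz⟩ := l3
    have hq : (p₁ : ℚ) * x ^ 2 + p₂ * y ^ 2 = n₀ * z ^ 2 := by exact_mod_cast hxyz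
    have hzQ : (z : ℚ) ≠ 0 := by exact_mod_cast hz
    refine ⟨x, y, n₀ * z, ?_, ?_⟩
    · rintro ⟨h1, h2⟩
      rw [h1, h2] at hq
      have h4 : (n₀ : ℚ) * z ^ 2 = 0 := by linarith
      rcases mul_eq_zero.mp h4 with h5 | h5
      · exact hnQ h5
      · exact hzQ (pow_eq_zero_iff (two_ne_zero)|>.mp h5)
    · linear_combination (n₀ : ℚ) * hq
  have G1 := (H0.mul H1).symm
  have G2 := (H2.symm.mul H3).symm
  obtain ⟨y, x, z, hxy, hxyz⟩ := G1.mul G2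
  obtain ⟨D, hD, X, Y, Z, hX, hY, hZ⟩ := clear3 (w / m * x) (w / m * y) (z / e)
  have hDQ : (D : ℚ) ≠ 0 := by exact_mod_cast hD
  have hwm : w / m ≠ 0 := div_ne_zero hwQ0 hmQ
  have hq : (e : ℚ) * (z / e) = z := mul_div_cancel₀ z heQ
  have hXYZq : (s₁ : ℚ) * p₁ * X ^ 2 + s₂ * p₂ * Y ^ 2 = e * Z ^ 2 := by
    rw [hX, hY, hZ]
    refine mul_left_cancel₀ heQ ?_
    generalize z / (e : ℚ) = q at hq
    generalize w / (m : ℚ) = r at hv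
    linear_combination (-(D : ℚ) ^ 2 * (s₁ * p₁ * x ^ 2 + s₂ * p₂ * y ^ 2)) * hv
      + (D : ℚ) ^ 2 * hxyz - (D : ℚ) ^ 2 * (e * q + z) * hq
  have hXYZ : s₁ * p₁ * X ^ 2 + s₂ * p₂ * Y ^ 2 = e * Z ^ 2 := by exact_mod_cast hXYZq
  have hXY0 : ¬ (X = 0 ∧ Y = 0) := by
    rintro ⟨h1, h2⟩
    rw [h1, Int.cast_zero] at hX
    rw [h2, Int.cast_zero] at hY
    refine hxy ⟨?_, ?_⟩
    · rcases mul_eq_zero.mp hY.symm with h3 | h3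
      · exact absurd h3 hDQ
      · rcases mul_eq_zero.mp h3 with h4 | h4
        · exact absurd h4 hwm
        · exact h4
    · rcases mul_eq_zero.mp hX.symm with h3 | h3
      · exact absurd h3 hDQ
      · rcases mul_eq_zero.mp h3 with h4 | h4
        · exact absurd h4 hwm
        · exact h4
  have hZ0 : Z ≠ 0 := by
    intro h0
    rw [h0] at hXYZ
    have hA : 0 < s₁ * p₁ := mul_pos hs₁ hp₁
    have hB : 0 < s₂ * p₂ := mul_pos hs₂ hp₂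
    have hXX := mul_nonneg hA.le (sq_nonneg X)
    have hYY := mul_nonneg hB.le (sq_nonneg Y)
    have e1 : s₁ * p₁ * X ^ 2 = 0 := by nlinarith
    have e2 : s₂ * p₂ * Y ^ 2 = 0 := by nlinarith
    refine hXY0 ⟨?_, ?_⟩
    · rcases mul_eq_zero.mp e1 with h3 | h3
      · exact absurd h3 hA.ne'
      · exact pow_eq_zero_iff two_ne_zero |>.mp h3
    · rcases mul_eq_zero.mp e2 with h3 | h3
      · exact absurd h3 hB.ne'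
      · exact pow_eq_zero_iff two_ne_zero |>.mp h3
  obtain ⟨f₁, g₁, z₁, hz₁, E4⟩ := l4
  obtain ⟨f₂, g₂, z₂, hz₂, E5⟩ := l5
  refine ⟨(x₀ * f₁ + b * x₁ * g₁) * X * z₂, (x₁ * f₁ - a * x₀ * g₁) * X * z₂,
    (x₂ * f₂ + d * x₃ * g₂) * Y * z₁, (x₃ * f₂ - c * x₂ * g₂) * Y * z₁, Z * z₁ * z₂,
    mul_ne_zero (mul_ne_zero hZ0 hz₁) hz₂, ?_⟩
  linear_combination z₁ ^ 2 * z₂ ^ 2 * hXYZ
    + X ^ 2 * z₂ ^ 2 * (s₁ * E4 - (f₁ ^ 2 + a * b * g₁ ^ 2) * h₁)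
    + Y ^ 2 * z₁ ^ 2 * (s₂ * E5 - (f₂ ^ 2 + c * d * g₂ ^ 2) * h₂)

end Pool.Agent.Work.MP_f6469e_gt.Mir
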