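import Pool.Agent.Work.MP_f6469e_gt.Lor

/-!
# Mir/Defs (FIXED: do not change; tell helper31 if something is wrong)

Regions and polytopes of hyperbolic space bounded by walls which are rational for a lattice `Λ` on which the Lorentz form
`L n x y = -x 0 * y 0 + ∑ x i.succ * y i.succ` has integer values.
-/

set_option autoImplicit false

namespace Pool.Agent.Work.MP_f6469e_gt.Mir

open Pool.Agent.Work.MP_f6469e_gt

/-- A subgroup which spans `ℝ^(n+1)` and on which the Lorentz form has integer values, i.e. a lattice with an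
integral form of signature `(n, 1)`. -/
structure IntLat (n : ℕ) (Λ : AddSubgroup (Fin (n + 1) → ℝ)) : Prop where
  span : Submodule.span ℝ (Λ : Set (Fin (n + 1) → ℝ)) = ⊤
  int : ∀ x ∈ Λ, ∀ y ∈ Λ, ∃ m : ℤ, L n x y = m

/-! ## auxiliary definitions (only used in the proofs) -/

/-- The hyperplanes orthogonal to `v`, `w` are disjoint, and the region `L x v ≤ 0`, `L x w ≤ 0` lies between them. -/
structure Dj (n : ℕ) (v w : Fin (n + 1) → ℝ) : Prop where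
  vv : 0 < L n v v
  ww : 0 < L n w w
  neg : L n v w < 0
  big : L n v v * L n w w ≤ L n v w ^ 2
  fut : ∃ p : Fin (n + 1) → ℝ, L n p p < 0 ∧ 0 < p 0 ∧ L n p v ≤ 0 ∧ L n p w ≤ 0 ∧
    (L n p v < 0 ∨ L n p w < 0)

/-- The face of the polytope with outer unit normals `e i` on the walls of `T`. -/
def Face (n : ℕ) {N : ℕ} (e : Fin N → (Fin (n + 1) → ℝ)) (T : Finset (Fin N)) :
    Set (Fin (n + 1) → ℝ) :=
  {x | 0 < x 0 ∧ L n x x = -1 ∧ (∀ i, L n x (e i) ≤ 0) ∧ ∀ i ∈ T, L n x (e i) = 0}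

/-- The future null vectors of `Λ` orthogonal to the `e i`, `i ∈ T`. -/
def Cus (n : ℕ) {N : ℕ} (Λ : AddSubgroup (Fin (n + 1) → ℝ)) (e : Fin N → (Fin (n + 1) → ℝ))
    (T : Finset (Fin N)) : Set (Fin (n + 1) → ℝ) :=
  {u | u ∈ Λ ∧ 0 < u 0 ∧ L n u u = 0 ∧ ∀ i ∈ T, L n u (e i) = 0}

/-- The situation in the proof of the theorem on polytopes: `B` are the walls whose reflections need not preserve
`Λ`, `T` is a set of mutually orthogonal walls of `B` such that the walls of `B` orthogonal to `T` are not orthogonal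
to each other, `p` is an interior point of the face of `T`. -/
structure Piece (n N : ℕ) (e : Fin N → (Fin (n + 1) → ℝ)) (Λ : AddSubgroup (Fin (n + 1) → ℝ))
    (B T : Finset (Fin N)) (p : Fin (n + 1) → ℝ) : Prop where
  lat : IntLat n Λ
  unit : ∀ i, L n (e i) (e i) = 1
  cpt : IsCompact {x : Fin (n + 1) → ℝ | 0 < x 0 ∧ L n x x = -1 ∧ ∀ i, L n x (e i) ≤ 0}
  rat : ∀ i ∈ B, ∃ c : ℝ, 0 < c ∧ c • e i ∈ Λ
  refl : ∀ i, i ∉ B → ∀ x ∈ Λ, x - (2 * L n x (e i)) • e i ∈ Λ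
  dis : ∀ i ∈ B, ∀ j, j ≠ i → L n (e i) (e j) = 0 ∨ L n (e i) (e j) ≤ -1
  sub : T ⊆ B
  orth : ∀ i ∈ T, ∀ j ∈ T, i ≠ j → L n (e i) (e j) = 0
  card : T.card + 4 ≤ n
  top : ∀ i ∈ B, ∀ j ∈ B, i ∉ T → j ∉ T → i ≠ j → (∀ t ∈ T, L n (e t) (e i) = 0) →
    (∀ t ∈ T, L n (e t) (e j) = 0) → L n (e i) (e j) ≠ 0
  p0 : 0 < p 0
  pp : L n p p = -1
  pT : ∀ i ∈ T, L n p (e i) = 0
  pn : ∀ i, i ∉ T → L n p (e i) < 0

/-- `N` is an even power of `ℓ` times a unit square in the `ℓ`-adic integers. -/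
def Good (ℓ : ℕ) (N : ℤ) : Prop :=
  ∃ (j : ℕ) (M : ℤ), N = (ℓ : ℤ) ^ (2 * j) * M ∧
    ((ℓ = 2 ∧ M % 8 = 1) ∨ (ℓ ≠ 2 ∧ ¬ (ℓ : ℤ) ∣ M ∧ ∃ s : ℤ, (ℓ : ℤ) ∣ s ^ 2 - M))

/-- `A x² + B y² = z²` has a nontrivial rational solution. -/
def Hs (A B : ℚ) : Prop := ∃ x y z : ℚ, ¬ (x = 0 ∧ y = 0) ∧ A * x ^ 2 + B * y ^ 2 = z ^ 2

end Pool.Agent.Work.MP_f6469e_gt.Mir
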