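import Pool.Agent.Work.MP_f6469e_gt.Mir.Defs

/-!
# Mir/Dir (size S-M): primes in residue classes, Chinese remainders

* `crt`: from `x m + y n = 1` take `c = b x m + a y n`.
* `crt_sq`: `crt` for the two square roots.
* `exists_prime_mod`: Dirichlet, `Nat.forall_exists_prime_gt_and_eq_mod` (the class of `g` in `ZMod M` is a unit).
-/

set_option autoImplicit false

namespace Pool.Agent.Work.MP_f6469e_gt.Mir

open Pool.Agent.Work.MP_f6469e_gt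

theorem crt {m n : ℤ} (h : IsCoprime m n) (a b : ℤ) : ∃ c : ℤ, m ∣ c - a ∧ n ∣ c - b := by
  obtain ⟨x, y, h1⟩ := h
  refine ⟨b * x * m + a * y * n, ⟨(b - a) * x, ?_⟩, ⟨(a - b) * y, ?_⟩⟩
  · linear_combination a * h1
  · linear_combination b * h1

theorem crt_sq {m n d : ℤ} (h : IsCoprime m n) (h1 : ∃ s : ℤ, m ∣ s ^ 2 - d)
    (h2 : ∃ s : ℤ, n ∣ s ^ 2 - d) : ∃ s : ℤ, m * n ∣ s ^ 2 - d := by
  obtain ⟨s, hs⟩ := h1
  obtain ⟨t, ht⟩ := h2
  obtain ⟨c, hc1, hc2⟩ := crt h s t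
  refine ⟨c, h.mul_dvd ?_ ?_⟩
  · have h3 : c ^ 2 - d = (c - s) * (c + s) + (s ^ 2 - d) := by ring
    rw [h3]
    exact dvd_add (hc1.mul_right _) hs
  · have h3 : c ^ 2 - d = (c - t) * (c + t) + (t ^ 2 - d) := by ring
    rw [h3]
    exact dvd_add (hc2.mul_right _) ht

theorem exists_prime_mod {M : ℕ} (hM : 0 < M) {g : ℤ} (hg : IsCoprime g (M : ℤ)) (K : ℕ) :
    ∃ p : ℕ, p.Prime ∧ K < p ∧ (M : ℤ) ∣ p - g := by
  have := NeZero.mk hM.ne'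
  have hu : IsUnit (g : ZMod M) := (ZMod.coe_int_isUnit_iff_isCoprime g M).2 hg.symm
  obtain ⟨p, hpK, hp, hpg⟩ := Nat.forall_exists_prime_gt_and_eq_mod hu K
  refine ⟨p, hp, hpK, ?_⟩
  rw [← ZMod.intCast_eq_intCast_iff_dvd_sub]
  push_cast
  exact hpg.symm

end Pool.Agent.Work.MP_f6469e_gt.Mir
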