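import Pool.Agent.Work.MP_f6469e_gt.Mir.Defs

/-!
# Mir/Dis (size M): disjoint walls

Let `N = √(L w w) v + √(L v v) w`. `L N N = 2 L v v L w w + 2 √(L v v L w w) L v w ≤ 0` (as `-L v w ≥ √(L v v L w w)`), `L p N < 0` for `p` of
`fut`, so `0 < N 0` (`time_zero`).
* `null_le`: `L u N ≤ 0` for a future null vector `u` and a future vector `N` with `L N N ≤ 0`: Cauchy-Schwarz (or: `L (u + ε p) N < 0` for all
  `ε > 0` by `L_neg`, let `ε → 0`).
* `time_zero'`: `L x N < 0` (`L_neg`), so `L x v = 0` gives `L x w < 0`.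
* `null_zero`: `L u N ≤ 0`.
* `depth`: if `L u N = 0` then with `t = -L p N / L p u` the vector `N + t u` is orthogonal to `p` and `L (N + t u) (N + t u) = L N N ≤ 0`, so
  `N = -t u` (`L_pos_of_orth`), `t ≠ 0` as `N ≠ 0`, so `L N N = 0`, `√(L v v L w w) = -L v w`, `L v N = √(L w w) L v v + √(L v v) L v w = 0`, hence
  `L v u = 0`: contradiction. So `L u N < 0`: `√(L v v) L u w < -√(L w w) L u v`, both sides positive: square.
-/

set_option autoImplicit false

namespace Pool.Agent.Work.MP_f6469e_gt.Mir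

open Pool.Agent.Work.MP_f6469e_gt

theorem null_le {n : ℕ} {u y : Fin (n + 1) → ℝ} (hu0 : 0 < u 0) (huu : L n u u = 0)
    (hy0 : 0 < y 0) (hyy : L n y y ≤ 0) : L n u y ≤ 0 := by
  have h1 := Finset.sum_mul_sq_le_sq_mul_sq Finset.univ (fun i : Fin n => u i.succ)
    (fun i : Fin n => y i.succ)
  have h2 : ∑ i : Fin n, u i.succ ^ 2 = ∑ i : Fin n, u i.succ * u i.succ :=
    Finset.sum_congr rfl fun i _ => by ring
  have h3 : ∑ i : Fin n, y i.succ ^ 2 = ∑ i : Fin n, y i.succ * y i.succ :=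
    Finset.sum_congr rfl fun i _ => by ring
  have h4 : 0 ≤ ∑ i : Fin n, u i.succ * u i.succ :=
    Finset.sum_nonneg fun _ _ => mul_self_nonneg _
  rw [h2, h3] at h1
  unfold L at *
  have h5 : (∑ i : Fin n, u i.succ * y i.succ) ^ 2 ≤ (u 0 * y 0) ^ 2 := by
    refine h1.trans ?_
    have e1 : ∑ i : Fin n, u i.succ * u i.succ = u 0 * u 0 := by linarith
    rw [e1]
    have e2 : ∑ i : Fin n, y i.succ * y i.succ ≤ y 0 * y 0 := by linarith
    calc u 0 * u 0 * ∑ i : Fin n, y i.succ * y i.succ ≤ u 0 * u 0 * (y 0 * y 0) :=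
          mul_le_mul_of_nonneg_left e2 (mul_self_nonneg _)
      _ = (u 0 * y 0) ^ 2 := by ring
  have h6 := abs_le_of_sq_le_sq h5 (by positivity)
  have h7 := (abs_le.1 h6).2
  linarith

private theorem Dj.nn {n : ℕ} {v w : Fin (n + 1) → ℝ} (h : Dj n v w) :
    ∃ a b : ℝ, 0 < a ∧ 0 < b ∧ a ^ 2 = L n v v ∧ b ^ 2 = L n w w ∧ a * b ≤ -L n v w ∧
      0 < (b • v + a • w) 0 ∧
      L n (b • v + a • w) (b • v + a • w) = 2 * a * b * (a * b + L n v w) ∧
      L n (b • v + a • w) (b • v + a • w) ≤ 0 := by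
  obtain ⟨a, ha, ha2⟩ : ∃ a : ℝ, 0 < a ∧ a ^ 2 = L n v v :=
    ⟨Real.sqrt (L n v v), Real.sqrt_pos.2 h.vv, Real.sq_sqrt h.vv.le⟩
  obtain ⟨b, hb, hb2⟩ : ∃ b : ℝ, 0 < b ∧ b ^ 2 = L n w w :=
    ⟨Real.sqrt (L n w w), Real.sqrt_pos.2 h.ww, Real.sq_sqrt h.ww.le⟩
  have hbig : a * b ≤ -L n v w := by
    have h1 : (a * b) ^ 2 ≤ (-L n v w) ^ 2 := by
      rw [mul_pow, ha2, hb2, neg_sq]
      exact h.big
    have h2 : 0 ≤ -L n v w := by linarith [h.neg]
    exact (abs_le.1 (abs_le_of_sq_le_sq h1 h2)).2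
  have hN : L n (b • v + a • w) (b • v + a • w) = 2 * a * b * (a * b + L n v w) := by
    rw [L_add_left, L_add_right, L_add_right, L_smul_left, L_smul_left, L_smul_left, L_smul_left,
      L_smul_right, L_smul_right, L_smul_right, L_smul_right, L_comm w v, ← ha2, ← hb2]
    ring
  have hN0 : L n (b • v + a • w) (b • v + a • w) ≤ 0 := by
    rw [hN]
    exact mul_nonpos_of_nonneg_of_nonpos (by positivity) (by linarith)
  obtain ⟨p, hpp, hp0, hpv, hpw, hlt⟩ := h.fut
  have hpN : L n p (b • v + a • w) < 0 := by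
    rw [L_add_right, L_smul_right, L_smul_right]
    rcases hlt with hlt | hlt
    · have h1 := mul_neg_of_pos_of_neg hb hlt
      have h2 := mul_nonpos_of_nonneg_of_nonpos ha.le hpw
      linarith
    · have h1 := mul_neg_of_pos_of_neg ha hlt
      have h2 := mul_nonpos_of_nonneg_of_nonpos hb.le hpv
      linarith
  exact ⟨a, b, ha, hb, ha2, hb2, hbig, time_zero hpp hp0 hN0 hpN, hN, hN0⟩

theorem Dj.time_zero' {n : ℕ} {v w x : Fin (n + 1) → ℝ} (h : Dj n v w) (hx0 : 0 < x 0)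
    (hxx : L n x x < 0) (hv : L n x v = 0) : L n x w < 0 := by
  obtain ⟨a, b, ha, hb, _, _, _, hN0, _, hNN⟩ := h.nn
  have h1 := L_neg hxx hx0 hNN hN0
  rw [L_add_right, L_smul_right, L_smul_right, hv, mul_zero, zero_add] at h1
  by_contra hcon
  rw [not_lt] at hcon
  have := mul_nonneg ha.le hcon
  linarith

theorem Dj.null_zero {n : ℕ} {v w u : Fin (n + 1) → ℝ} (h : Dj n v w) (hu0 : 0 < u 0)
    (huu : L n u u = 0) (hv : L n u v = 0) : L n u w ≤ 0 := by
  obtain ⟨a, b, ha, hb, _, _, _, hN0, _, hNN⟩ := h.nn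
  have h1 := null_le hu0 huu hN0 hNN
  rw [L_add_right, L_smul_right, L_smul_right, hv, mul_zero, zero_add] at h1
  by_contra hcon
  rw [not_le] at hcon
  have := mul_pos ha hcon
  linarith

theorem Dj.depth {n : ℕ} {v w u : Fin (n + 1) → ℝ} (h : Dj n v w) (hu0 : 0 < u 0)
    (huu : L n u u = 0) (hv : L n u v < 0) (hw : 0 < L n u w) :
    L n u w ^ 2 * L n v v < L n u v ^ 2 * L n w w := by
  obtain ⟨a, b, ha, hb, ha2, hb2, hab, hN0, hNe, hNN⟩ := h.nn
  obtain ⟨p, hpp, hp0, hpv, hpw, hlt⟩ := h.fut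
  have h1 := null_le hu0 huu hN0 hNN
  rcases h1.lt_or_eq with h2 | h2
  · rw [L_add_right, L_smul_right, L_smul_right] at h2
    have h3 : a * L n u w < b * -L n u v := by linarith
    have h4 : (a * L n u w) ^ 2 < (b * -L n u v) ^ 2 :=
      pow_lt_pow_left₀ h3 (by positivity) two_ne_zero
    rw [← ha2, ← hb2]
    calc L n u w ^ 2 * a ^ 2 = (a * L n u w) ^ 2 := by ring
      _ < (b * -L n u v) ^ 2 := h4
      _ = L n u v ^ 2 * b ^ 2 := by ring
  · exfalso
    have hpu : L n p u < 0 := L_neg hpp hp0 huu.le hu0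
    obtain ⟨N, hN⟩ : ∃ N, N = b • v + a • w := ⟨_, rfl⟩
    rw [← hN] at h2 hNN hNe
    have hpN : L n p N < 0 := L_neg hpp hp0 hNN (by rw [hN]; exact hN0)
    obtain ⟨t, ht⟩ : ∃ t : ℝ, t = -L n p N / L n p u := ⟨_, rfl⟩
    have ht0 : t ≠ 0 := by
      rw [ht]
      exact div_ne_zero (by linarith) hpu.ne
    have horth : L n p (N + t • u) = 0 := by
      rw [L_add_right, L_smul_right, ht, div_mul_cancel₀ _ hpu.ne]
      ring
    have hself : L n (N + t • u) (N + t • u) = L n N N := by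
      rw [L_add_left, L_add_right, L_add_right, L_smul_left, L_smul_left, L_smul_right,
        L_smul_right, huu, L_comm N u, h2]
      ring
    have hz : N + t • u = 0 := by
      by_contra hne
      have := L_pos_of_orth hpp horth hne
      linarith
    have hNN0 : L n N N = 0 := by
      have e : N = -(t • u) := eq_neg_of_add_eq_zero_left hz
      rw [e, L_neg_left, L_neg_right, L_smul_left, L_smul_right, huu]
      ring
    have h5 : a * b + L n v w = 0 := by
      rw [hNN0] at hNe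
      rcases mul_eq_zero.1 hNe.symm with h6 | h6
      · exact absurd h6 (by positivity)
      · exact h6
    have h6 : L n v (N + t • u) = t * L n v u := by
      rw [L_add_right, L_smul_right, hN, L_add_right, L_smul_right, L_smul_right, ← ha2]
      linear_combination a * h5
    rw [hz, L_zero_right] at h6
    rcases mul_eq_zero.1 h6.symm with h7 | h7
    · exact ht0 h7
    · rw [L_comm] at h7
      linarith

end Pool.Agent.Work.MP_f6469e_gt.Mir
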