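import Pool.Agent.Work.MP_f6469e_gt.Mir.PDj

/-!
# Mir/Foot (size M-L): the foot of the minimal cusp

`μ = -L x₁ u₁ > 0`. Let `y = u₁ - μ x₁`: `L y x₁ = 0`, `L y y = μ²`, `L y (e t) = 0` for `t ∈ T`.
(1) If `j ∉ B`, `L x₁ (e j) = 0` then `L u₁ (e j) ≤ 0`: `j` is orthogonal to all `t ∈ T` (`act_orth`), so `u = u₁ - 2 L u₁ (e j) e j ∈ Cus` (`refl`;
`0 < u 0`: `L p u < 0` and `time_zero`, or: `L x₁ u = L x₁ u₁ < 0`), `L x₁ u = L x₁ u₁`, so `-L p u₁ ≤ -L p u = -L p u₁ + 2 L u₁ (e j) L p (e j)`, and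
`L p (e j) < 0`.
(2) If `j ∈ B \ T` and `L x₁ (e j) = 0` then `j` is orthogonal to `T` (`act_orth`); two such `j` are equal (`act_orth` and `top`).
(3) Let `w = y` if there is no `j` as in (2), and `w = y - c e b`, `c = max (L y (e b)) 0`, if `b` is the one. Then `L w x₁ = 0`, `L w (e t) = 0` for `t ∈ T`,
and `L w (e j) ≤ 0` for all `j ∉ T` with `L x₁ (e j) = 0` (`j = b`: clear; `j ∉ B`: `L (e b) (e j) = 0` by `act_orth` and
`L y (e j) = L u₁ (e j) ≤ 0`). So for small `ε > 0` the vector `x₁ + ε w` satisfies the conditions of `cone_min`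
(`L (x₁ + ε w) (x₁ + ε w) = -1 + ε² L w w < 0`; finitely many `j` with `L x₁ (e j) < 0`; `0 < (x₁ + ε w) 0`): with `λ = L w u₁`:
`μ² (1 - ε² L w w) ≤ (-μ + ε λ)²`, i.e. `2 μ λ ≤ ε (λ² + μ² L w w)`; `ε → 0`: `λ ≤ 0`.
`λ = L w y = L w w + c L w (e b) = L w w` (if `c > 0` then `L w (e b) = L y (e b) - c = 0`). So `L w w ≤ 0`, `w = 0` (`L_pos_of_orth` with the
time-like `x₁`). As `y ≠ 0`, `b` exists, `y = c e b`, `c > 0`, `c² = L y y = μ²`, `c = μ`.
-/

set_option autoImplicit false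

namespace Pool.Agent.Work.MP_f6469e_gt.Mir

open Pool.Agent.Work.MP_f6469e_gt

private theorem nbhd {n N : ℕ} {e : Fin N → (Fin (n + 1) → ℝ)} {x w : Fin (n + 1) → ℝ}
    (hx0 : 0 < x 0) (hxx : L n x x < 0) (hx : ∀ j, L n x (e j) ≤ 0)
    (hw : ∀ j, L n x (e j) = 0 → L n w (e j) ≤ 0) :
    ∀ᶠ ε in nhdsWithin (0 : ℝ) (Set.Ioi 0), 0 < (x + ε • w) 0 ∧
      L n (x + ε • w) (x + ε • w) < 0 ∧ ∀ j, L n (x + ε • w) (e j) ≤ 0 := by
  have hc : Continuous fun ε : ℝ => x + ε • w := by fun_prop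
  have h1 : ∀ᶠ ε in nhdsWithin (0 : ℝ) (Set.Ioi 0), 0 < (x + ε • w) 0 := by
    have hc1 : Continuous fun ε : ℝ => (x + ε • w) 0 := (continuous_apply 0).comp hc
    have := (hc1.tendsto 0).eventually (lt_mem_nhds (a := 0) (by simpa using hx0))
    exact this.filter_mono nhdsWithin_le_nhds
  have h2 : ∀ᶠ ε in nhdsWithin (0 : ℝ) (Set.Ioi 0), L n (x + ε • w) (x + ε • w) < 0 := by
    have hc1 : Continuous fun ε : ℝ => L n (x + ε • w) (x + ε • w) :=
      continuous_L.comp (hc.prodMk hc)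
    have := (hc1.tendsto 0).eventually_lt_const (u := 0) (by simpa using hxx)
    exact this.filter_mono nhdsWithin_le_nhds
  have h3 : ∀ j, ∀ᶠ ε in nhdsWithin (0 : ℝ) (Set.Ioi 0), L n (x + ε • w) (e j) ≤ 0 := by
    intro j
    rcases (hx j).eq_or_lt with h | h
    · filter_upwards [self_mem_nhdsWithin] with ε hε
      rw [L_add_left, L_smul_left, h, zero_add]
      exact mul_nonpos_of_nonneg_of_nonpos (le_of_lt hε) (hw j h)
    · have hc1 : Continuous fun ε : ℝ => L n (x + ε • w) (e j) :=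
        continuous_L.comp (hc.prodMk continuous_const)
      have := (hc1.tendsto 0).eventually_lt_const (u := 0) (by simpa using h)
      exact (this.filter_mono nhdsWithin_le_nhds).mono fun _ hh => le_of_lt hh
  exact h1.and (h2.and (Filter.eventually_all.mpr h3))

private theorem lam_le {n N : ℕ} {e : Fin N → (Fin (n + 1) → ℝ)}
    {Λ : AddSubgroup (Fin (n + 1) → ℝ)} {T : Finset (Fin N)} {μ : ℝ} (hμ : 0 < μ)
    (hmin : ∀ x ∈ Face n e T, ∀ u ∈ Cus n Λ e T, μ ≤ -L n x u) {x w u : Fin (n + 1) → ℝ}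
    (hx0 : 0 < x 0) (hxx : L n x x = -1) (hx : ∀ j, L n x (e j) ≤ 0)
    (hxT : ∀ i ∈ T, L n x (e i) = 0) (hwT : ∀ i ∈ T, L n w (e i) = 0)
    (hw : ∀ j, L n x (e j) = 0 → L n w (e j) ≤ 0) (hwx : L n w x = 0) (hu : u ∈ Cus n Λ e T)
    (hxu : L n x u = -μ) : L n w u ≤ 0 := by
  have h1 : ∀ᶠ ε in nhdsWithin (0 : ℝ) (Set.Ioi 0),
      2 * μ * L n w u ≤ ε * (L n w u ^ 2 + μ ^ 2 * L n w w) := by
    filter_upwards [nbhd hx0 (by rw [hxx]; norm_num) hx hw, self_mem_nhdsWithin] with ε h2 hε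
    obtain ⟨h3, h4, h5⟩ := h2
    have h6 := cone_min (n := n) (Λ := Λ) hμ hmin h3 h4 h5 (fun i hi => by
      rw [L_add_left, L_smul_left, hxT i hi, hwT i hi]; ring) hu
    have h7 : L n (x + ε • w) (x + ε • w) = -1 + ε ^ 2 * L n w w := by
      simp only [L_add_left, L_add_right, L_smul_left, L_smul_right, hxx, hwx, L_comm x w]
      ring
    have h8 : L n (x + ε • w) u = -μ + ε * L n w u := by
      simp only [L_add_left, L_smul_left, hxu]
    rw [h7, h8] at h6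
    have hε' : (0 : ℝ) < ε := hε
    have h9 : 0 ≤ ε * (ε * (L n w u ^ 2 + μ ^ 2 * L n w w) - 2 * μ * L n w u) := by
      nlinarith
    have h10 := nonneg_of_mul_nonneg_right h9 hε'
    linarith
  have h2 : Filter.Tendsto (fun ε : ℝ => ε * (L n w u ^ 2 + μ ^ 2 * L n w w))
      (nhdsWithin (0 : ℝ) (Set.Ioi 0)) (nhds 0) := by
    have hc : Continuous fun ε : ℝ => ε * (L n w u ^ 2 + μ ^ 2 * L n w w) := by fun_prop
    have := hc.tendsto 0
    rw [zero_mul] at this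
    exact this.mono_left nhdsWithin_le_nhds
  have h3 := ge_of_tendsto h2 h1
  nlinarith

theorem Piece.foot {n N : ℕ} {e : Fin N → (Fin (n + 1) → ℝ)}
    {Λ : AddSubgroup (Fin (n + 1) → ℝ)} {B T : Finset (Fin N)} {p : Fin (n + 1) → ℝ}
    (h : Piece n N e Λ B T p) {x₁ u₁ : Fin (n + 1) → ℝ} (hx₁ : x₁ ∈ Face n e T)
    (hu₁ : u₁ ∈ Cus n Λ e T)
    (hmin : ∀ x ∈ Face n e T, ∀ u ∈ Cus n Λ e T, -L n x₁ u₁ ≤ -L n x u)
    (hsec : ∀ u ∈ Cus n Λ e T, L n x₁ u = L n x₁ u₁ → -L n p u₁ ≤ -L n p u) :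
    ∃ b ∈ B, b ∉ T ∧ (∀ t ∈ T, L n (e t) (e b) = 0) ∧ L n x₁ (e b) = 0 ∧
      u₁ = (-L n x₁ u₁) • (x₁ + e b) := by
  classical
  obtain ⟨hx0, hxx, hxe, hxT⟩ := hx₁
  obtain ⟨huΛ, hu0, huu, huT⟩ := hu₁
  have hxx' : L n x₁ x₁ < 0 := by rw [hxx]; norm_num
  have hpp' : L n p p < 0 := by rw [h.pp]; norm_num
  have hxu : L n x₁ u₁ < 0 := L_neg hxx' hx0 huu.le hu0
  obtain ⟨μ, hμ⟩ : ∃ μ : ℝ, μ = -L n x₁ u₁ := ⟨_, rfl⟩
  have hμ0 : 0 < μ := by linarith
  have hxu' : L n x₁ u₁ = -μ := by linarith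
  -- (1)
  have h1 : ∀ j, j ∉ B → L n x₁ (e j) = 0 → L n u₁ (e j) ≤ 0 := by
    intro j hjB hxj
    by_contra hneg
    push Not at hneg
    have hjT : j ∉ T := fun hj => hjB (h.sub hj)
    have hjo : ∀ t ∈ T, L n (e t) (e j) = 0 := fun t ht =>
      h.act_orth hx0 hxx' (h.sub ht) (fun hh => hjT (hh ▸ ht)) (hxT t ht) hxj
    obtain ⟨u, hu⟩ : ∃ u, u = u₁ - (2 * L n u₁ (e j)) • e j := ⟨_, rfl⟩
    have hxu2 : L n x₁ u = L n x₁ u₁ := by
      rw [hu, L_sub_right, L_smul_right, hxj]; ring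
    have huu2 : L n u u = 0 := by
      rw [hu]
      simp only [L_sub_left, L_sub_right, L_smul_left, L_smul_right, huu, h.unit j,
        L_comm (e j) u₁]
      ring
    have hC : u ∈ Cus n Λ e T := by
      refine ⟨?_, ?_, huu2, ?_⟩
      · rw [hu]; exact h.refl j hjB u₁ huΛ
      · exact time_zero hxx' hx0 huu2.le (by rw [hxu2]; exact hxu)
      · intro t ht
        rw [hu, L_sub_left, L_smul_left, huT t ht, L_comm (e j) (e t), hjo t ht]; ring
    have h2 := hsec u hC hxu2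
    have h3 : L n p u = L n p u₁ - 2 * L n u₁ (e j) * L n p (e j) := by
      rw [hu, L_sub_right, L_smul_right]
    have h4 := h.pn j hjT
    rw [h3] at h2
    nlinarith [mul_pos hneg (neg_pos.mpr h4)]
  -- (2)
  have h2 : ∀ j, j ∈ B → j ∉ T → L n x₁ (e j) = 0 → ∀ t ∈ T, L n (e t) (e j) = 0 :=
    fun j hjB hjT hxj t ht =>
      h.act_orth hx0 hxx' (h.sub ht) (fun hh => hjT (hh ▸ ht)) (hxT t ht) hxj
  obtain ⟨y, hy⟩ : ∃ y, y = u₁ - μ • x₁ := ⟨_, rfl⟩
  have hyx : L n y x₁ = 0 := by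
    rw [hy, L_sub_left, L_smul_left, hxx, L_comm u₁, hxu']; ring
  have hyy : L n y y = μ ^ 2 := by
    rw [hy]
    simp only [L_sub_left, L_sub_right, L_smul_left, L_smul_right, huu, hxx, hxu',
      L_comm u₁ x₁]
    ring
  have hyT : ∀ t ∈ T, L n y (e t) = 0 := by
    intro t ht
    rw [hy, L_sub_left, L_smul_left, huT t ht, hxT t ht]; ring
  have hyj : ∀ j, L n x₁ (e j) = 0 → L n y (e j) = L n u₁ (e j) := by
    intro j hj
    rw [hy, L_sub_left, L_smul_left, hj]; ring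
  have hu₁y : u₁ = y + μ • x₁ := by rw [hy]; abel
  -- (3)
  have key : ∀ w : Fin (n + 1) → ℝ, L n w x₁ = 0 → (∀ i ∈ T, L n w (e i) = 0) →
      (∀ j, j ∉ T → L n x₁ (e j) = 0 → L n w (e j) ≤ 0) → L n w u₁ ≤ 0 := by
    intro w hwx hwT hw
    refine lam_le hμ0 (fun x hx u hu => ?_) hx0 hxx hxe hxT hwT ?_ hwx
      ⟨huΛ, hu0, huu, huT⟩ hxu'
    · have := hmin x hx u hu
      linarith
    · intro j hj
      by_cases hjT : j ∈ T
      · exact (hwT j hjT).le
      · exact hw j hjT hj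
  by_cases hex : ∃ b ∈ B, b ∉ T ∧ L n x₁ (e b) = 0
  · obtain ⟨b, hbB, hbT, hxb⟩ := hex
    have hbo := h2 b hbB hbT hxb
    refine ⟨b, hbB, hbT, hbo, hxb, ?_⟩
    obtain ⟨c, hc⟩ : ∃ c, c = max (L n y (e b)) 0 := ⟨_, rfl⟩
    obtain ⟨w, hw⟩ : ∃ w, w = y - c • e b := ⟨_, rfl⟩
    have hc0 : 0 ≤ c := by rw [hc]; exact le_max_right _ _
    have hwx : L n w x₁ = 0 := by
      rw [hw, L_sub_left, L_smul_left, hyx, L_comm (e b), hxb]; ring
    have hwb : L n w (e b) = L n y (e b) - c := by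
      rw [hw, L_sub_left, L_smul_left, h.unit b]; ring
    have hle := key w hwx (fun t ht => by
      rw [hw, L_sub_left, L_smul_left, hyT t ht, L_comm (e b), hbo t ht]; ring) (by
      intro j hjT hxj
      by_cases hjb : j = b
      · rw [hjb, hwb, hc]
        have := le_max_left (L n y (e b)) 0
        linarith
      · have hbj : L n (e b) (e j) = 0 := h.act_orth hx0 hxx' hbB hjb hxb hxj
        have hjB : j ∉ B := by
          intro hjB
          exact h.top b hbB j hjB hbT hjT (fun hh => hjb hh.symm) hbo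
            (h2 j hjB hjT hxj) hbj
        rw [hw, L_sub_left, L_smul_left, hbj, hyj j hxj]
        have := h1 j hjB hxj
        linarith)
    have hcw : c * L n w (e b) = 0 := by
      rw [hwb]
      rcases le_total (L n y (e b)) 0 with hh | hh
      · rw [hc, max_eq_right hh]; ring
      · rw [hc, max_eq_left hh]; ring
    have hww : L n w u₁ = L n w w := by
      rw [hu₁y, L_add_right, L_smul_right, hwx]
      have h5 : y = w + c • e b := by rw [hw]; abel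
      rw [h5, L_add_right, L_smul_right]
      linarith
    have hw0 : w = 0 := by
      by_contra hne
      have := L_pos_of_orth hxx' (by rw [L_comm]; exact hwx) hne
      linarith
    have hyc : y = c • e b := by
      have h5 : y = w + c • e b := by rw [hw]; abel
      rw [h5, hw0, zero_add]
    have hcμ : c = μ := by
      have h5 := hyy
      rw [hyc, L_smul_left, L_smul_right, h.unit b] at h5
      have h6 : c ^ 2 = μ ^ 2 := by rw [← h5]; ring
      exact (sq_eq_sq₀ hc0 hμ0.le).mp h6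
    rw [← hμ, smul_add, hu₁y, hyc, hcμ]
    abel
  · exfalso
    push Not at hex
    have hle := key y hyx hyT (by
      intro j hjT hxj
      by_cases hjB : j ∈ B
      · exact absurd hxj (hex j hjB hjT)
      · rw [hyj j hxj]; exact h1 j hjB hxj)
    have h5 : L n y u₁ = L n y y := by
      conv_lhs => rw [hu₁y]
      rw [L_add_right, L_smul_right, hyx]; ring
    rw [h5, hyy] at hle
    nlinarith [pow_pos hμ0 2]

end Pool.Agent.Work.MP_f6469e_gt.Mir
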