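import Pool.Agent.Work.MP_f6469e_gt.Mir.Defs

/-!
# Mir/Gd (size M): the property Good

* `good_open`: `N = ℓ^(2j) M₀`; `k = 2 j + 3`. If `ℓ^(2j+3) ∣ M - N` then `M = ℓ^(2j) (M₀ + ℓ³ c)`; for `ℓ = 2` this keeps
  `M₀ % 8 = 1`; for `ℓ ≠ 2` the same `s` works and `ℓ` does not divide `M₀ + ℓ³ c`.
* `good_coprime`: `ℓ ∤ N` forces `j = 0`.
* `good_peel`: strong induction on `N`. If no `ℓ ∈ S` divides `N`: `m = 1`, `n₀ = N`. Otherwise `ℓ ∣ N` for some `ℓ ∈ S`; as `Good ℓ N`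
  and `ℓ ∤ M` (for `ℓ = 2`: `M` is odd) we have `j ≥ 1`, so `N = ℓ² N₁` with `Good ℓ N₁`; for `ℓ' ∈ S`, `ℓ' ≠ ℓ`: `Good ℓ' N₁`: from
  `ℓ² N₁ = ℓ'^(2j') M'` get `ℓ'^(2j') ∣ N₁` (coprime), `M' = ℓ² M''`; if `ℓ' = 2`: `ℓ²` is `1` mod `8`, so `M'' % 8 = 1`; if `ℓ' ≠ 2`: `ℓ' ∤ M''`
  and with `c ℓ ≡ 1` mod `ℓ'` the number `c s` is a root: `(c s)² ≡ c² ℓ² M'' ≡ M''`. Induction gives `N₁ = m₁² n₀`, `m = ℓ m₁`.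
-/

set_option autoImplicit false

namespace Pool.Agent.Work.MP_f6469e_gt.Mir

open Pool.Agent.Work.MP_f6469e_gt

theorem good_open {ℓ : ℕ} (hℓ : ℓ.Prime) {N : ℤ} (h : Good ℓ N) :
    ∃ k : ℕ, ∀ M : ℤ, ((ℓ : ℤ) ^ k) ∣ M - N → Good ℓ M := by
  obtain ⟨j, M₀, hN, hM₀⟩ := h
  refine ⟨2 * j + 3, ?_⟩
  rintro M ⟨c, hc⟩
  refine ⟨j, M₀ + (ℓ : ℤ) ^ 3 * c, ?_, ?_⟩
  · rw [hN] at hc
    rw [pow_add] at hc
    linear_combination hc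
  · rcases hM₀ with ⟨h2, hM⟩ | ⟨h2, hM, s, hs⟩
    · left
      refine ⟨h2, ?_⟩
      rw [h2]
      push_cast
      omega
    · right
      refine ⟨h2, ?_, s, ?_⟩
      · intro hdvd
        refine hM ?_
        have h3 : (ℓ : ℤ) ∣ (ℓ : ℤ) ^ 3 * c := ⟨(ℓ : ℤ) ^ 2 * c, by ring⟩
        exact (dvd_add_left h3).mp hdvd
      · have h3 : s ^ 2 - (M₀ + (ℓ : ℤ) ^ 3 * c) = (s ^ 2 - M₀) - (ℓ : ℤ) * ((ℓ : ℤ) ^ 2 * c) := by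
          ring
        rw [h3]
        exact dvd_sub hs (dvd_mul_right _ _)

theorem good_coprime {ℓ : ℕ} (hℓ : ℓ.Prime) {N : ℤ} (h : Good ℓ N) (hN : ¬ (ℓ : ℤ) ∣ N) :
    (ℓ = 2 → N % 8 = 1) ∧ (ℓ ≠ 2 → ∃ s : ℤ, (ℓ : ℤ) ∣ s ^ 2 - N) := by
  obtain ⟨j, M, hM, hM'⟩ := h
  have hj : j = 0 := by
    by_contra hj
    obtain ⟨i, rfl⟩ := Nat.exists_eq_succ_of_ne_zero hj
    refine hN ?_
    rw [hM]
    exact ⟨(ℓ : ℤ) ^ (2 * i + 1) * M, by rw [Nat.succ_eq_add_one]; ring⟩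
  rw [hj, Nat.mul_zero, pow_zero, one_mul] at hM
  rw [hM]
  rcases hM' with ⟨h2, hM'⟩ | ⟨h2, hM', s, hs⟩
  · exact ⟨fun _ => hM', fun h => absurd h2 h⟩
  · exact ⟨fun h => absurd h h2, fun _ => ⟨s, hs⟩⟩

private theorem good_div {ℓ ℓ' : ℕ} (hℓ : ℓ.Prime) (hℓ' : ℓ'.Prime) (hne : ℓ' ≠ ℓ) {N : ℤ}
    (h : Good ℓ' ((ℓ : ℤ) ^ 2 * N)) : Good ℓ' N := by
  obtain ⟨j, M, hM, hM'⟩ := h
  have hcop : IsCoprime (ℓ : ℤ) (ℓ' : ℤ) :=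
    Nat.isCoprime_iff_coprime.mpr ((Nat.coprime_primes hℓ hℓ').mpr hne.symm)
  have hdvd : (ℓ' : ℤ) ^ (2 * j) ∣ N := by
    have h1 : IsCoprime ((ℓ' : ℤ) ^ (2 * j)) ((ℓ : ℤ) ^ 2) := hcop.symm.pow
    exact h1.dvd_of_dvd_mul_left (Dvd.intro _ hM.symm)
  obtain ⟨M'', hM''⟩ := hdvd
  have hℓ'0 : (ℓ' : ℤ) ^ (2 * j) ≠ 0 := pow_ne_zero _ (by exact_mod_cast hℓ'.ne_zero)
  have hMM : M = (ℓ : ℤ) ^ 2 * M'' := by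
    refine mul_left_cancel₀ hℓ'0 ?_
    rw [← hM, hM'']
    ring
  refine ⟨j, M'', hM'', ?_⟩
  rcases hM' with ⟨h2, hM'⟩ | ⟨h2, hM', s, hs⟩
  · left
    refine ⟨h2, ?_⟩
    have hodd : (ℓ : ℤ) % 2 = 1 := by
      have h3 : ℓ ≠ 2 := fun h3 => hne (h2.trans h3.symm)
      rcases hℓ.eq_two_or_odd with h4 | h4
      · exact absurd h4 h3
      · omega
    rw [hMM] at hM'
    have hsq : (ℓ : ℤ) ^ 2 % 8 = 1 := by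
      have h4 : (ℓ : ℤ) % 8 = 1 ∨ (ℓ : ℤ) % 8 = 3 ∨ (ℓ : ℤ) % 8 = 5 ∨ (ℓ : ℤ) % 8 = 7 := by omega
      rcases h4 with h4 | h4 | h4 | h4 <;> rw [pow_two, Int.mul_emod, h4] <;> norm_num
    rw [Int.mul_emod, hsq, one_mul, Int.emod_emod_of_dvd _ (dvd_refl 8)] at hM'
    exact hM'
  · right
    refine ⟨h2, ?_, ?_⟩
    · intro hd
      refine hM' ?_
      rw [hMM]
      exact Dvd.dvd.mul_left hd _
    · obtain ⟨a, b, hab⟩ := hcop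
      obtain ⟨t, ht⟩ := hs
      refine ⟨a * s, a ^ 2 * t - b * (a * ℓ + 1) * M'', ?_⟩
      rw [hMM] at ht
      linear_combination a ^ 2 * ht + (a * ℓ + 1) * M'' * hab

theorem good_peel (S : Finset ℕ) (hS : ∀ ℓ ∈ S, ℓ.Prime) {N : ℤ} (hN : 0 < N)
    (h : ∀ ℓ ∈ S, Good ℓ N) :
    ∃ m n₀ : ℤ, 0 < m ∧ 0 < n₀ ∧ N = m ^ 2 * n₀ ∧ ∀ ℓ ∈ S, ¬ (ℓ : ℤ) ∣ n₀ ∧ Good ℓ n₀ := by
  obtain ⟨n, hn⟩ : ∃ n : ℕ, N ≤ n := ⟨N.toNat, Int.self_le_toNat N⟩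
  induction n using Nat.strong_induction_on generalizing N with
  | _ n ih =>
    by_cases hex : ∃ ℓ ∈ S, (ℓ : ℤ) ∣ N
    · obtain ⟨ℓ, hℓS, hℓN⟩ := hex
      have hℓ := hS ℓ hℓS
      obtain ⟨j, M, hM, hM'⟩ := h ℓ hℓS
      have hj : j ≠ 0 := by
        rintro rfl
        rw [Nat.mul_zero, pow_zero, one_mul] at hM
        rw [hM] at hℓN
        rcases hM' with ⟨h2, hM'⟩ | ⟨h2, hM', -⟩
        · rw [h2] at hℓN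
          obtain ⟨c, hc⟩ := hℓN
          push_cast at hc
          omega
        · exact hM' hℓN
      obtain ⟨i, rfl⟩ := Nat.exists_eq_succ_of_ne_zero hj
      have hN1 : N = (ℓ : ℤ) ^ 2 * ((ℓ : ℤ) ^ (2 * i) * M) := by
        rw [hM, Nat.succ_eq_add_one]
        ring
      obtain ⟨N₁, hN₁⟩ : ∃ N₁ : ℤ, N₁ = (ℓ : ℤ) ^ (2 * i) * M := ⟨_, rfl⟩
      rw [← hN₁] at hN1
      have hℓ2 : (2 : ℤ) ≤ ℓ := by exact_mod_cast hℓ.two_le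
      have hN₁pos : 0 < N₁ := by
        by_contra hcon
        have h3 : N₁ ≤ 0 := not_lt.mp hcon
        have h4 : (ℓ : ℤ) ^ 2 * N₁ ≤ 0 := mul_nonpos_of_nonneg_of_nonpos (by positivity) h3
        omega
      have hlt : N₁ < N := by
        have h4 : (4 : ℤ) ≤ (ℓ : ℤ) ^ 2 := by nlinarith
        have h5 : 4 * N₁ ≤ (ℓ : ℤ) ^ 2 * N₁ := mul_le_mul_of_nonneg_right h4 hN₁pos.le
        omega
      have hGood : ∀ ℓ' ∈ S, Good ℓ' N₁ := by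
        intro ℓ' hℓ'
        by_cases heq : ℓ' = ℓ
        · rw [heq]
          exact ⟨i, M, hN₁, hM'⟩
        · refine good_div hℓ (hS ℓ' hℓ') heq ?_
          rw [← hN1]
          exact h ℓ' hℓ'
      have hle : N₁ ≤ ((N₁.toNat : ℕ) : ℤ) := Int.self_le_toNat N₁
      have hlt2 : N₁.toNat < n := by omega
      obtain ⟨m, n₀, hm, hn₀, hmn, hall⟩ := ih N₁.toNat hlt2 hN₁pos hGood hle
      refine ⟨ℓ * m, n₀, mul_pos (by omega) hm, hn₀, ?_, hall⟩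
      rw [hN1, hmn]
      ring
    · refine ⟨1, N, one_pos, hN, by ring, fun ℓ hℓ => ⟨fun hd => hex ⟨ℓ, hℓ, hd⟩, h ℓ hℓ⟩⟩

end Pool.Agent.Work.MP_f6469e_gt.Mir
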