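import Pool.Agent.Work.MP_f6469e_gt.Mir.Defs

/-!
# Mir/Spl (size S-M): splitting off the primes of a finite set

Strong induction on `n`: if some `ℓ ∈ S` divides `n`, split `n / ℓ` and multiply `κ` by `ℓ`; otherwise `κ = 1`, `r = n`.
-/

set_option autoImplicit false

namespace Pool.Agent.Work.MP_f6469e_gt.Mir

open Pool.Agent.Work.MP_f6469e_gt

theorem exists_split (S : Finset ℕ) (hS : ∀ ℓ ∈ S, ℓ.Prime) {n : ℕ} (hn : 0 < n) :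
    ∃ κ r : ℕ, n = κ * r ∧ 0 < κ ∧ 0 < r ∧ (∀ ℓ : ℕ, ℓ.Prime → ℓ ∣ κ → ℓ ∈ S) ∧
      ∀ ℓ ∈ S, ¬ ℓ ∣ r := by
  induction n using Nat.strong_induction_on with
  | _ n ih =>
    by_cases h : ∃ ℓ ∈ S, ℓ ∣ n
    · obtain ⟨ℓ, hℓ, k, rfl⟩ := h
      have hk : 0 < k := Nat.pos_of_ne_zero (by rintro rfl; simp at hn)
      have hlt : k < ℓ * k := by nlinarith [(hS ℓ hℓ).one_lt]
      obtain ⟨κ, r, h1, h2, h3, h4, h5⟩ := ih k hlt hk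
      refine ⟨ℓ * κ, r, by rw [h1, mul_assoc], Nat.mul_pos (hS ℓ hℓ).pos h2, h3, ?_, h5⟩
      intro q hq hqd
      rcases (Nat.Prime.dvd_mul hq).1 hqd with h | h
      · rw [(Nat.prime_dvd_prime_iff_eq hq (hS ℓ hℓ)).1 h]
        exact hℓ
      · exact h4 q hq h
    · push Not at h
      exact ⟨1, n, by simp, one_pos, hn, fun q hq h1 => absurd (Nat.dvd_one.1 h1) hq.one_lt.ne', h⟩

theorem coprime_split {S : Finset ℕ} {D r : ℕ} (hD : ∀ ℓ : ℕ, ℓ.Prime → ℓ ∣ D → ℓ ∈ S)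
    (hr : ∀ ℓ ∈ S, ¬ ℓ ∣ r) : D.Coprime r := by
  rw [Nat.coprime_iff_gcd_eq_one]
  by_contra hne
  obtain ⟨p, hp, hpd⟩ := Nat.exists_prime_and_dvd hne
  exact hr p (hD p hp (hpd.trans (Nat.gcd_dvd_left _ _))) (hpd.trans (Nat.gcd_dvd_right _ _))

end Pool.Agent.Work.MP_f6469e_gt.Mir
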