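import Pool.Agent.Work.MP_f6469e_gt.Mir.Gd
import Pool.Agent.Work.MP_f6469e_gt.Mir.Dir
import Pool.Agent.Work.MP_f6469e_gt.Mir.Spl

/-!
# Mir/Glob (size M): approximation at finitely many primes

(1) By induction on `S` (`good_open`, `crt`; coprime moduli since the modulus of `S` is a product of powers of the primes of `S`): there are
`x₀ y₀ z₀ t₀` and `M > 0`, all of whose prime factors are in `S`, such that all `x ≡ x₀`, `y ≡ y₀`, `z ≡ z₀`, `t ≡ t₀` mod `M` have the `Good`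
property for all `ℓ ∈ S` (a polynomial with integer coefficients has congruent values at congruent arguments).
(2) Choose `x > 0`, `x ≡ x₀` mod `M`, and `y = y₀`. `s₁ = a x² + b y² > 0`. `exists_split`: `s₁ = κ r`, the primes of `κ` are in `S`, no prime of
`S` divides `r`, so `r` is prime to `M` (`coprime_split`). Choose `z > 0` with `z ≡ z₀` mod `M`, `z ≡ 1` mod `r`, and `t` with `t ≡ t₀` mod `M`, `t ≡ 0` mod `r` (`crt`).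
(3) If `ℓ ∉ S` divides `a x² + b y²` then `ℓ ∣ r`, so `c z² + d t² ≡ c` mod `ℓ`; `ℓ ∣ c` would give `ℓ ∈ S`.
-/

set_option autoImplicit false

namespace Pool.Agent.Work.MP_f6469e_gt.Mir

open Pool.Agent.Work.MP_f6469e_gt

private theorem glob_aux {a b c d e : ℕ} (S : Finset ℕ) (hS : ∀ ℓ ∈ S, ℓ.Prime)
    (hloc : ∀ ℓ ∈ S, ∃ x y z t : ℤ,
      Good ℓ (e * (a * x ^ 2 + b * y ^ 2 + (c * z ^ 2 + d * t ^ 2)))) :
    ∃ (x₀ y₀ z₀ t₀ : ℤ) (M : ℕ), 0 < M ∧ (∀ ℓ : ℕ, ℓ.Prime → ℓ ∣ M → ℓ ∈ S) ∧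
      ∀ x y z t : ℤ, (M : ℤ) ∣ x - x₀ → (M : ℤ) ∣ y - y₀ → (M : ℤ) ∣ z - z₀ → (M : ℤ) ∣ t - t₀ →
        ∀ ℓ ∈ S, Good ℓ (e * (a * x ^ 2 + b * y ^ 2 + (c * z ^ 2 + d * t ^ 2))) := by
  classical
  induction S using Finset.induction_on with
  | empty =>
    refine ⟨0, 0, 0, 0, 1, one_pos, ?_, ?_⟩
    · intro ℓ hℓ h1
      exact absurd (Nat.dvd_one.1 h1) hℓ.one_lt.ne'
    · intro x y z t _ _ _ _ ℓ hℓ
      simp at hℓ
  | insert q S hq ih =>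
    obtain ⟨x₀, y₀, z₀, t₀, M, hM, hMS, hg⟩ :=
      ih (fun ℓ hℓ => hS ℓ (Finset.mem_insert_of_mem hℓ))
        (fun ℓ hℓ => hloc ℓ (Finset.mem_insert_of_mem hℓ))
    have hqp : q.Prime := hS q (Finset.mem_insert_self q S)
    obtain ⟨x₁, y₁, z₁, t₁, hg1⟩ := hloc q (Finset.mem_insert_self q S)
    obtain ⟨k, hk⟩ := good_open hqp hg1
    have hcop : IsCoprime (M : ℤ) ((q : ℤ) ^ k) := by
      have h1 : Nat.Coprime M (q ^ k) := by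
        apply Nat.Coprime.pow_right
        rw [Nat.coprime_comm, Nat.Prime.coprime_iff_not_dvd hqp]
        intro h2
        exact hq (hMS q hqp h2)
      have h2 := Nat.isCoprime_iff_coprime.2 h1
      simpa using h2
    obtain ⟨x₂, hx0, hx1⟩ := crt hcop x₀ x₁
    obtain ⟨y₂, hy0, hy1⟩ := crt hcop y₀ y₁
    obtain ⟨z₂, hz0, hz1⟩ := crt hcop z₀ z₁
    obtain ⟨t₂, ht0, ht1⟩ := crt hcop t₀ t₁
    refine ⟨x₂, y₂, z₂, t₂, M * q ^ k, Nat.mul_pos hM (pow_pos hqp.pos k), ?_, ?_⟩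
    · intro ℓ hℓ h1
      rcases (Nat.Prime.dvd_mul hℓ).1 h1 with h2 | h2
      · exact Finset.mem_insert_of_mem (hMS ℓ hℓ h2)
      · have h3 := hℓ.dvd_of_dvd_pow h2
        rw [(Nat.prime_dvd_prime_iff_eq hℓ hqp).1 h3]
        exact Finset.mem_insert_self q S
    · intro x y z t hx hy hz ht ℓ hℓ
      have key : ∀ u u₂ u₀ u₁ : ℤ, ((M * q ^ k : ℕ) : ℤ) ∣ u - u₂ → (M : ℤ) ∣ u₂ - u₀ →
          (q : ℤ) ^ k ∣ u₂ - u₁ → (M : ℤ) ∣ u - u₀ ∧ (q : ℤ) ^ k ∣ u - u₁ := by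
        intro u u₂ u₀ u₁ h1 h2 h3
        have h4 : ((M * q ^ k : ℕ) : ℤ) = (M : ℤ) * (q : ℤ) ^ k := by push_cast; ring
        rw [h4] at h1
        constructor
        · have h5 : u - u₀ = (u - u₂) + (u₂ - u₀) := by ring
          rw [h5]
          exact dvd_add ((Dvd.intro _ rfl).trans h1) h2
        · have h5 : u - u₁ = (u - u₂) + (u₂ - u₁) := by ring
          rw [h5]
          exact dvd_add ((Dvd.intro_left _ rfl).trans h1) h3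
      obtain ⟨hxa, hxb⟩ := key x x₂ x₀ x₁ hx hx0 hx1
      obtain ⟨hya, hyb⟩ := key y y₂ y₀ y₁ hy hy0 hy1
      obtain ⟨hza, hzb⟩ := key z z₂ z₀ z₁ hz hz0 hz1
      obtain ⟨hta, htb⟩ := key t t₂ t₀ t₁ ht ht0 ht1
      rcases Finset.mem_insert.1 hℓ with h1 | h1
      · rw [h1]
        apply hk
        obtain ⟨u1, hu1⟩ := hxb
        obtain ⟨u2, hu2⟩ := hyb
        obtain ⟨u3, hu3⟩ := hzb
        obtain ⟨u4, hu4⟩ := htb
        refine ⟨e * (a * (u1 * (x + x₁)) + b * (u2 * (y + y₁)) + (c * (u3 * (z + z₁)) +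
          d * (u4 * (t + t₁)))), ?_⟩
        linear_combination (e : ℤ) * (a * (x + x₁) * hu1 + b * (y + y₁) * hu2 +
          c * (z + z₁) * hu3 + d * (t + t₁) * hu4)
      · exact hg x y z t hxa hya hza hta ℓ h1

theorem exists_global {a b c d e : ℕ} (ha : 0 < a) (hb : 0 < b) (hc : 0 < c) (hd : 0 < d)
    (he : 0 < e) (S : Finset ℕ) (hS : ∀ ℓ ∈ S, ℓ.Prime)
    (hcS : ∀ ℓ : ℕ, ℓ.Prime → ℓ ∣ c → ℓ ∈ S)
    (hloc : ∀ ℓ ∈ S, ∃ x y z t : ℤ,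
      Good ℓ (e * (a * x ^ 2 + b * y ^ 2 + (c * z ^ 2 + d * t ^ 2)))) :
    ∃ x y z t : ℤ, 0 < x ∧ 0 < z ∧
      (∀ ℓ ∈ S, Good ℓ (e * (a * x ^ 2 + b * y ^ 2 + (c * z ^ 2 + d * t ^ 2)))) ∧
      ∀ ℓ : ℕ, ℓ.Prime → ℓ ∉ S → (ℓ : ℤ) ∣ a * x ^ 2 + b * y ^ 2 →
        ¬ (ℓ : ℤ) ∣ c * z ^ 2 + d * t ^ 2 := by
  classical
  obtain ⟨x₀, y₀, z₀, t₀, M, hM, hMS, hg⟩ := glob_aux S hS hloc
  have hMz : (0 : ℤ) < M := by exact_mod_cast hM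
  have haz : (0 : ℤ) < a := by exact_mod_cast ha
  have hbz : (0 : ℤ) < b := by exact_mod_cast hb
  -- the choice of x
  obtain ⟨x, hx0, hxM⟩ : ∃ x : ℤ, 0 < x ∧ (M : ℤ) ∣ x - x₀ := by
    refine ⟨x₀ + M * (|x₀| + 1), ?_, ⟨|x₀| + 1, by ring⟩⟩
    have h1 : -|x₀| ≤ x₀ := neg_abs_le x₀
    have h2 : 0 ≤ |x₀| := abs_nonneg x₀
    nlinarith
  have hs1 : 0 < (a : ℤ) * x ^ 2 + b * y₀ ^ 2 := by positivity
  obtain ⟨n, hn⟩ : ∃ n : ℕ, (n : ℤ) = (a : ℤ) * x ^ 2 + b * y₀ ^ 2 :=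
    ⟨((a : ℤ) * x ^ 2 + b * y₀ ^ 2).toNat, Int.toNat_of_nonneg hs1.le⟩
  have hn0 : 0 < n := by
    have : (0 : ℤ) < n := by rw [hn]; exact hs1
    exact_mod_cast this
  obtain ⟨κ, r, hκr, hκ, hr, hκS, hrS⟩ := exists_split S hS hn0
  have hcop : IsCoprime (M : ℤ) (r : ℤ) :=
    Nat.isCoprime_iff_coprime.2 (coprime_split hMS hrS)
  have hrz : (0 : ℤ) < r := by exact_mod_cast hr
  obtain ⟨z₁, hz0, hz1⟩ := crt hcop z₀ 1
  obtain ⟨t, ht0, ht1⟩ := crt hcop t₀ 0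
  obtain ⟨z, hzp, hzM, hzr⟩ : ∃ z : ℤ, 0 < z ∧ (M : ℤ) ∣ z - z₀ ∧ (r : ℤ) ∣ z - 1 := by
    refine ⟨z₁ + M * r * (|z₁| + 1), ?_, ?_, ?_⟩
    · have h1 : -|z₁| ≤ z₁ := neg_abs_le z₁
      have h2 : 0 ≤ |z₁| := abs_nonneg z₁
      have h3 : 0 < (M : ℤ) * r := mul_pos hMz hrz
      nlinarith
    · have h5 : z₁ + M * r * (|z₁| + 1) - z₀ = (z₁ - z₀) + M * (r * (|z₁| + 1)) := by ring
      rw [h5]
      exact dvd_add hz0 (Dvd.intro _ rfl)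
    · have h5 : z₁ + M * r * (|z₁| + 1) - 1 = (z₁ - 1) + r * (M * (|z₁| + 1)) := by ring
      rw [h5]
      exact dvd_add hz1 (Dvd.intro _ rfl)
  refine ⟨x, y₀, z, t, hx0, hzp, ?_, ?_⟩
  · intro ℓ hℓ
    exact hg x y₀ z t hxM (by simp) hzM ht0 ℓ hℓ
  · intro ℓ hℓ hℓS hdiv hdiv2
    rw [← hn] at hdiv
    have h1 : ℓ ∣ n := by exact_mod_cast hdiv
    rw [hκr] at h1
    have h2 : ℓ ∣ r := by
      rcases (Nat.Prime.dvd_mul hℓ).1 h1 with h3 | h3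
      · exact absurd (hκS ℓ hℓ h3) hℓS
      · exact h3
    have h2z : (ℓ : ℤ) ∣ r := by exact_mod_cast h2
    obtain ⟨u, hu⟩ := h2z.trans hzr
    obtain ⟨v, hv⟩ := h2z.trans ht1
    have h4 : (ℓ : ℤ) ∣ c := by
      obtain ⟨w, hw⟩ := hdiv2
      refine ⟨w - c * u * (z + 1) - d * v * t, ?_⟩
      linear_combination hw - c * (z + 1) * hu - d * t * hv
    have h5 : ℓ ∣ c := by exact_mod_cast h4
    exact hℓS (hcS ℓ hℓ h5)

end Pool.Agent.Work.MP_f6469e_gt.Mir
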