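import Pool.Agent.Work.MP_f6469e_gt.Mir.Defs

/-!
# Mir/HsM (size M): the symbol Hs

* `symm`: exchange `x` and `y`.
* `of_sq`: `(A k²) x² + B y² = z²` gives `A (k x)² + B y² = z²`.
* `mul`: let `A x² + B y² = z²`, `A x'² + C y'² = z'²`. If `y = 0` then `x ≠ 0`, `A = (z / x)²` is a square, and `(1, 0, z / x)` is a solution of
  `A X² + B C Y² = Z²`. The same if `y' = 0`. Otherwise `X = z x' + x z'`, `Y = y y' ≠ 0`, `Z = z z' + A x x'`:
  `Z² - A X² = (z² - A x²)(z'² - A x'²) = B C (y y')²`.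
-/

set_option autoImplicit false

namespace Pool.Agent.Work.MP_f6469e_gt.Mir

open Pool.Agent.Work.MP_f6469e_gt

theorem Hs.symm {A B : ℚ} (h : Hs A B) : Hs B A := by
  obtain ⟨x, y, z, h0, h1⟩ := h
  exact ⟨y, x, z, fun h2 => h0 ⟨h2.2, h2.1⟩, by rw [add_comm]; exact h1⟩

theorem Hs.of_sq {A B k : ℚ} (hk : k ≠ 0) (h : Hs (A * k ^ 2) B) : Hs A B := by
  obtain ⟨x, y, z, h0, h1⟩ := h
  refine ⟨k * x, y, z, ?_, by rw [← h1]; ring⟩
  rintro ⟨h2, h3⟩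
  rcases mul_eq_zero.1 h2 with h4 | h4
  · exact hk h4
  · exact h0 ⟨h4, h3⟩

private theorem hs_triv {A D x z : ℚ} (hx : x ≠ 0) (h : A * x ^ 2 = z ^ 2) : Hs A D := by
  refine ⟨1, 0, z / x, fun h2 => one_ne_zero h2.1, ?_⟩
  rw [div_pow, ← h]
  field_simp
  ring

theorem Hs.mul {A B C : ℚ} (h1 : Hs A B) (h2 : Hs A C) : Hs A (B * C) := by
  obtain ⟨x, y, z, h0, h1⟩ := h1
  obtain ⟨x', y', z', h0', h1'⟩ := h2
  by_cases hy : y = 0
  · subst hy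
    exact hs_triv (x := x) (z := z) (fun h => h0 ⟨h, rfl⟩) (by rw [← h1]; ring)
  by_cases hy' : y' = 0
  · subst hy'
    exact hs_triv (x := x') (z := z') (fun h => h0' ⟨h, rfl⟩) (by rw [← h1']; ring)
  refine ⟨z * x' + x * z', y * y', z * z' + A * x * x', fun h => mul_ne_zero hy hy' h.2, ?_⟩
  linear_combination (C * y' ^ 2) * h1 + (z ^ 2 - A * x ^ 2) * h1'

end Pool.Agent.Work.MP_f6469e_gt.Mir
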