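import Pool.Agent.Work.MP_f6469e_gt.Mir.LegP

/-!
# Mir/Leg (size M): the theorem of Legendre

Take `x, y, z` from `legendre_box` and let `F = a x² + b y² - c z²`.
(1) `a b c ∣ F`. Mod `c`: `a (a x² + b y²) = (a x)² + a b y² ≡ (s² + a b) y² ≡ 0`, and `a`, `c` are coprime. Mod `a`:
`b (b y² - c z²) = (b y)² - b c z² ≡ (t² - b c) z² ≡ 0`. Mod `b`: `a (a x² - c z²) ≡ (r² - a c) z² ≡ 0`. Then
coprimality (`IsCoprime.mul_dvd`).
(2) `a x² ≤ a b c`, `b y² ≤ a b c`, `c z² ≤ a b c`, so `-a b c ≤ F ≤ 2 a b c` and `F = k a b c` with `k = -1, 0, 1, 2`.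
* `F = 0`: `(x, y, z)` is a solution, `z ≠ 0` since `a, b > 0`.
* `F = -a b c`: then `a x² + b y² = c z² - a b c ≤ 0`, so `x = y = 0` and `z² = a b`. Now `a ∣ t z` and `t` is prime to `a`
  (`t² ≡ b c`), so `a ∣ z`; `b ∣ r z`, `r² ≡ a c`, so `b ∣ z`; so `a b ∣ z`, `(a b)² ∣ z² = a b`, `a b ≤ 1`: contradiction.
* `F = a b c`: the solution is `(x z + b y, y z - a x, z² + a b)`:
  `a (x z + b y)² + b (y z - a x)² = (z² + a b) (a x² + b y²) = c (z² + a b)²`, as `a x² + b y² = c z² + a b c`; `z² + a b > 0`.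
* `F = 2 a b c`: then `a x² = a b c`, `b y² = a b c`, `z = 0`, so `x² = b c`, `y² = c a`; `b ∣ a x` gives `b ∣ x`, `b² ∣ b c`, `b ∣ c`,
  `b = 1`; `a ∣ b y` gives `a ∣ y`, `a² ∣ c a`, `a ∣ c`, `a = 1`: contradiction to `1 < a * b`.
-/

set_option autoImplicit false

namespace Pool.Agent.Work.MP_f6469e_gt.Mir

open Pool.Agent.Work.MP_f6469e_gt

private theorem cop_of_dvd {A B C T : ℤ} (h1 : IsCoprime A B) (h2 : IsCoprime A C)
    (h : A ∣ T ^ 2 - B * C) : IsCoprime A T := by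
  obtain ⟨k, hk⟩ := h
  have h3 : IsCoprime A (B * C) := h1.mul_right h2
  have h4 : T ^ 2 = B * C + A * k := by linarith
  have h5 : IsCoprime A (T ^ 2) := by
    rw [h4]
    exact (IsCoprime.add_mul_left_right_iff).2 h3
  exact (IsCoprime.pow_right_iff (by norm_num)).1 h5

/-- the box argument in integers. -/
private theorem leg_core {A B C x y z s t r : ℤ} (hA : 0 < A) (hB : 0 < B) (hC : 0 < C)
    (hab : IsCoprime A B) (hbc : IsCoprime B C) (hac : IsCoprime A C) (h1 : 1 < A * B)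
    (hs : C ∣ s ^ 2 + A * B) (ht : A ∣ t ^ 2 - B * C) (hr : B ∣ r ^ 2 - A * C)
    (hne : x ≠ 0 ∨ y ≠ 0 ∨ z ≠ 0) (hx : x ^ 2 ≤ B * C) (hy : y ^ 2 ≤ C * A) (hz : z ^ 2 ≤ A * B)
    (d1 : C ∣ A * x - s * y) (d2 : A ∣ B * y - t * z) (d3 : B ∣ A * x - r * z) :
    ∃ x y z : ℤ, z ≠ 0 ∧ A * x ^ 2 + B * y ^ 2 = C * z ^ 2 := by
  -- the form is divisible by `A B C`
  have eC : C ∣ A * x ^ 2 + B * y ^ 2 - C * z ^ 2 := by
    apply hac.symm.dvd_of_dvd_mul_left
    obtain ⟨k1, hk1⟩ := d1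
    obtain ⟨k2, hk2⟩ := hs
    refine ⟨k1 * (A * x + s * y) + k2 * y ^ 2 - A * z ^ 2, ?_⟩
    linear_combination (A * x + s * y) * hk1 + y ^ 2 * hk2
  have eA : A ∣ A * x ^ 2 + B * y ^ 2 - C * z ^ 2 := by
    apply hab.dvd_of_dvd_mul_left
    obtain ⟨k1, hk1⟩ := d2
    obtain ⟨k2, hk2⟩ := ht
    refine ⟨k1 * (B * y + t * z) + k2 * z ^ 2 + B * x ^ 2, ?_⟩
    linear_combination (B * y + t * z) * hk1 + z ^ 2 * hk2
  have eB : B ∣ A * x ^ 2 + B * y ^ 2 - C * z ^ 2 := by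
    apply hab.symm.dvd_of_dvd_mul_left
    obtain ⟨k1, hk1⟩ := d3
    obtain ⟨k2, hk2⟩ := hr
    refine ⟨k1 * (A * x + r * z) + k2 * z ^ 2 + A * y ^ 2, ?_⟩
    linear_combination (A * x + r * z) * hk1 + z ^ 2 * hk2
  have eABC : A * B * C ∣ A * x ^ 2 + B * y ^ 2 - C * z ^ 2 := by
    apply IsCoprime.mul_dvd (hac.mul_left hbc) (IsCoprime.mul_dvd hab eA eB) eC
  obtain ⟨k, hk⟩ := eABC
  have hABC : 0 < A * B * C := mul_pos (mul_pos hA hB) hC
  have b1 : A * x ^ 2 ≤ A * B * C := by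
    calc A * x ^ 2 ≤ A * (B * C) := mul_le_mul_of_nonneg_left hx hA.le
      _ = A * B * C := by ring
  have b2 : B * y ^ 2 ≤ A * B * C := by
    calc B * y ^ 2 ≤ B * (C * A) := mul_le_mul_of_nonneg_left hy hB.le
      _ = A * B * C := by ring
  have b3 : C * z ^ 2 ≤ A * B * C := by
    calc C * z ^ 2 ≤ C * (A * B) := mul_le_mul_of_nonneg_left hz hC.le
      _ = A * B * C := by ring
  have p1 : 0 ≤ A * x ^ 2 := by positivity
  have p2 : 0 ≤ B * y ^ 2 := by positivity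
  have p3 : 0 ≤ C * z ^ 2 := by positivity
  have k1 : -1 ≤ k := by
    by_contra hcon
    have h2 : k ≤ -2 := by omega
    nlinarith
  have k2 : k ≤ 2 := by
    by_contra hcon
    have h2 : 3 ≤ k := by omega
    nlinarith
  have hcases : k = -1 ∨ k = 0 ∨ k = 1 ∨ k = 2 := by omega
  rcases hcases with rfl | rfl | rfl | rfl
  · -- `F = - A B C`
    exfalso
    have q1 : A * x ^ 2 = 0 := by linarith
    have q2 : B * y ^ 2 = 0 := by linarith
    have hx0 : x = 0 := by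
      rcases mul_eq_zero.1 q1 with h | h
      · omega
      · exact pow_eq_zero_iff (by norm_num) |>.1 h
    have hy0 : y = 0 := by
      rcases mul_eq_zero.1 q2 with h | h
      · omega
      · exact pow_eq_zero_iff (by norm_num) |>.1 h
    have q3 : C * z ^ 2 = C * (A * B) := by linarith
    have hz2 : z ^ 2 = A * B := mul_left_cancel₀ hC.ne' q3
    rw [hy0] at d2
    rw [hx0] at d3
    have e1 : A ∣ z := by
      apply (cop_of_dvd hab hac ht).dvd_of_dvd_mul_left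
      have h3 : A ∣ -(t * z) := by simpa using d2
      exact (dvd_neg.1 h3)
    have e2 : B ∣ z := by
      apply (cop_of_dvd hab.symm hbc hr).dvd_of_dvd_mul_left
      have h3 : B ∣ -(r * z) := by simpa using d3
      exact (dvd_neg.1 h3)
    have e3 : A * B ∣ z := IsCoprime.mul_dvd hab e1 e2
    have e4 : (A * B) ^ 2 ∣ z ^ 2 := pow_dvd_pow_of_dvd e3 2
    rw [hz2] at e4
    have e5 := Int.le_of_dvd (by linarith) e4
    nlinarith
  · -- `F = 0`
    refine ⟨x, y, z, ?_, by linarith⟩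
    rintro rfl
    have q1 : A * x ^ 2 = 0 := by linarith
    have q2 : B * y ^ 2 = 0 := by linarith
    have hx0 : x = 0 := by
      rcases mul_eq_zero.1 q1 with h | h
      · omega
      · exact pow_eq_zero_iff (by norm_num) |>.1 h
    have hy0 : y = 0 := by
      rcases mul_eq_zero.1 q2 with h | h
      · omega
      · exact pow_eq_zero_iff (by norm_num) |>.1 h
    rcases hne with h | h | h
    · exact h hx0
    · exact h hy0
    · exact h rfl
  · -- `F = A B C`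
    refine ⟨x * z + B * y, y * z - A * x, z ^ 2 + A * B, ?_, ?_⟩
    · have h2 : 0 ≤ z ^ 2 := sq_nonneg z
      linarith
    · have h2 : A * x ^ 2 + B * y ^ 2 = C * z ^ 2 + A * B * C := by linarith
      linear_combination (z ^ 2 + A * B) * h2
  · -- `F = 2 A B C`
    exfalso
    have q3 : C * z ^ 2 = 0 := by linarith
    have hz0 : z = 0 := by
      rcases mul_eq_zero.1 q3 with h | h
      · omega
      · exact pow_eq_zero_iff (by norm_num) |>.1 h
    have q1 : A * x ^ 2 = A * (B * C) := by linarith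
    have q2 : B * y ^ 2 = B * (C * A) := by linarith
    have hx2 : x ^ 2 = B * C := mul_left_cancel₀ hA.ne' q1
    have hy2 : y ^ 2 = C * A := mul_left_cancel₀ hB.ne' q2
    rw [hz0] at d2 d3
    have e1 : A ∣ y := by
      apply hab.dvd_of_dvd_mul_left
      simpa using d2
    have e2 : B ∣ x := by
      apply hab.symm.dvd_of_dvd_mul_left
      simpa using d3
    have e3 : A ∣ C := by
      have h3 : A ^ 2 ∣ y ^ 2 := pow_dvd_pow_of_dvd e1 2
      rw [hy2, pow_two] at h3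
      exact (mul_dvd_mul_iff_right hA.ne').1 h3
    have e4 : B ∣ C := by
      have h3 : B ^ 2 ∣ x ^ 2 := pow_dvd_pow_of_dvd e2 2
      rw [hx2, pow_two] at h3
      exact (mul_dvd_mul_iff_left hB.ne').1 h3
    have e5 : IsUnit A := hac.isUnit_of_dvd' dvd_rfl e3
    have e6 : IsUnit B := hbc.isUnit_of_dvd' dvd_rfl e4
    rcases Int.isUnit_iff.1 e5 with h | h
    · rcases Int.isUnit_iff.1 e6 with h' | h'
      · rw [h, h'] at h1
        omega
      · omega
    · omega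

theorem legendre {a b c : ℕ} (ha : 0 < a) (hb : 0 < b) (hc : 0 < c) (hab : a.Coprime b)
    (hbc : b.Coprime c) (hac : a.Coprime c) (h1 : 1 < a * b)
    (hs : ∃ s : ℤ, (c : ℤ) ∣ s ^ 2 + a * b) (ht : ∃ t : ℤ, (a : ℤ) ∣ t ^ 2 - b * c)
    (hr : ∃ r : ℤ, (b : ℤ) ∣ r ^ 2 - a * c) :
    ∃ x y z : ℤ, z ≠ 0 ∧ (a : ℤ) * x ^ 2 + b * y ^ 2 = c * z ^ 2 := by
  obtain ⟨s, hs⟩ := hs
  obtain ⟨t, ht⟩ := ht
  obtain ⟨r, hr⟩ := hr
  obtain ⟨x, y, z, hne, hx, hy, hz, d1, d2, d3⟩ := legendre_box ha hb hc s t r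
  exact leg_core (by exact_mod_cast ha) (by exact_mod_cast hb) (by exact_mod_cast hc)
    (Nat.isCoprime_iff_coprime.2 hab) (Nat.isCoprime_iff_coprime.2 hbc)
    (Nat.isCoprime_iff_coprime.2 hac) (by exact_mod_cast h1) hs ht hr hne hx hy hz d1 d2 d3

end Pool.Agent.Work.MP_f6469e_gt.Mir
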