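import Pool.Agent.Work.MP_f6469e_gt.Mir.JacC
import Pool.Agent.Work.MP_f6469e_gt.Mir.Leg
import Pool.Agent.Work.MP_f6469e_gt.Mir.Dir

/-!
# Mir/LThr (size M): three equations of Legendre

`legendre` three times, `g = κ₁ r₁`.
(1) `a = κ₁ r₁`, `b = p₂`, `c = n₀`: coprime (`p₂ ∤ κ₁` as `κ₁ ∣ D`, `p₂ % D = 1`; `p₂ ∣ r₁` would give `p₂ ∣ n₀` by `h3`; `p₂ ∣ n₀` would give
`p₂ ∣ κ₁ r₁` by `h4`). `n₀ ∣ g² + g p₂`; `κ₁ r₁ ∣ t² - p₂ n₀`: mod `κ₁` take `t = q` (`κ₁ ∣ q² - n₀`, `p₂ ≡ 1`), mod `r₁` take `t = n₀` (`h3`),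
`crt_sq`; `p₂ ∣ r² - κ₁ r₁ n₀`: `exists_sq`, `jac_three`.
(2) `a = κ₂ r₂`, `b = p₁`, `c = n₀`: `n₀ ∣ g² + κ₂ r₂ p₁` (`κ₂ r₂ ≡ -g`, `p₁ ≡ g`); `κ₂ r₂ ∣ t² - p₁ n₀` as before (`h1`); `p₁ ∣ r² - κ₂ r₂ n₀`.
(3) `a = p₁`, `b = p₂`, `c = n₀`: `n₀ ∣ g² + p₁ p₂`; `p₁ ∣ n₀² - p₂ n₀` (`h5`); `p₂ ∣ r² - p₁ n₀`.
-/

set_option autoImplicit false

namespace Pool.Agent.Work.MP_f6469e_gt.Mir

open Pool.Agent.Work.MP_f6469e_gt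

private theorem lt_cop {D p : ℕ} (hp : p % D = 1) : D.Coprime p := by
  rw [Nat.Coprime, Nat.gcd_rec, hp, Nat.gcd_one_left]

private theorem lt_sub {D p κ : ℕ} (hκ : κ ∣ D) (hD : D ≠ 1) (hp : p % D = 1) :
    (κ : ℤ) ∣ (p : ℤ) - 1 := by
  have h1 : p ≡ 1 [MOD D] := by
    have h2 : 1 % D = 1 := by
      rcases Nat.lt_or_ge 1 D with h3 | h3
      · exact Nat.mod_eq_of_lt h3
      · have : D = 0 := by omega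
        rw [this]
    rw [Nat.ModEq, hp, h2]
  have h4 : (1 : ℕ) ≡ p [MOD κ] := (h1.of_dvd hκ).symm
  have h5 := (Nat.modEq_iff_dvd).1 h4
  push_cast at h5
  exact h5

private theorem lt_sq {κ r p n : ℕ} {q : ℤ} (hc : κ.Coprime r) (hq : (κ : ℤ) ∣ q ^ 2 - n)
    (hp : (κ : ℤ) ∣ (p : ℤ) - 1) (hr : (r : ℤ) ∣ p - n) :
    ∃ t : ℤ, ((κ * r : ℕ) : ℤ) ∣ t ^ 2 - p * n := by
  have h1 : IsCoprime (κ : ℤ) (r : ℤ) := Nat.isCoprime_iff_coprime.2 hc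
  obtain ⟨s, hs⟩ := crt_sq (d := (p : ℤ) * n) h1 ⟨q, by
    have h2 : q ^ 2 - (p : ℤ) * n = (q ^ 2 - n) - n * ((p : ℤ) - 1) := by ring
    rw [h2]
    exact dvd_sub hq (hp.mul_left _)⟩ ⟨n, by
    have h2 : (n : ℤ) ^ 2 - (p : ℤ) * n = -(n * ((p : ℤ) - n)) := by ring
    rw [h2]
    exact (hr.mul_left _).neg_right⟩
  exact ⟨s, by push_cast; exact hs⟩

theorem three_eqs {κ₁ r₁ κ₂ r₂ n₀ D p₁ p₂ : ℕ} (hκ₁ : 0 < κ₁) (hκ₂ : 0 < κ₂) (hr₁ : 0 < r₁)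
    (hr₂ : 0 < r₂) (hD : 8 * κ₁ * κ₂ ∣ D) (hDr₁ : D.Coprime r₁) (hDr₂ : D.Coprime r₂)
    (hDn : D.Coprime n₀) (hr₁n : r₁.Coprime n₀) (hr₂n : r₂.Coprime n₀) (hn8 : n₀ % 8 = 1)
    (hq : ∃ q : ℤ, ((8 * κ₁ * κ₂ : ℕ) : ℤ) ∣ q ^ 2 - n₀)
    (hsum : (n₀ : ℤ) ∣ κ₁ * r₁ + κ₂ * r₂) (hp₁ : p₁.Prime) (hp₂ : p₂.Prime) (hne : p₁ ≠ p₂)
    (hp₁D : p₁ % D = 1) (hp₂D : p₂ % D = 1) (h1 : (r₂ : ℤ) ∣ p₁ - n₀)
    (h2 : (n₀ : ℤ) ∣ p₁ - κ₁ * r₁) (h3 : (r₁ : ℤ) ∣ p₂ - n₀) (h4 : (n₀ : ℤ) ∣ p₂ + κ₁ * r₁)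
    (h5 : (p₁ : ℤ) ∣ p₂ - n₀) :
    (∃ x y z : ℤ, z ≠ 0 ∧ (κ₁ * r₁ : ℤ) * x ^ 2 + p₂ * y ^ 2 = n₀ * z ^ 2) ∧
    (∃ x y z : ℤ, z ≠ 0 ∧ (κ₂ * r₂ : ℤ) * x ^ 2 + p₁ * y ^ 2 = n₀ * z ^ 2) ∧
    (∃ x y z : ℤ, z ≠ 0 ∧ (p₁ : ℤ) * x ^ 2 + p₂ * y ^ 2 = n₀ * z ^ 2) := by
  obtain ⟨j1, j2, j3⟩ := jac_three hκ₁ hκ₂ hr₁ hr₂ hD hDr₁ hDr₂ hDn hr₁n hr₂n hn8 hq hsum hp₁ hp₂
    hp₁D hp₂D h1 h2 h3 h4 h5
  obtain ⟨q, hq⟩ := hq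
  have hn0 : 0 < n₀ := by omega
  have hD1 : D ≠ 1 := by
    intro h0
    rw [h0, Nat.mod_one] at hp₁D
    omega
  have hκ₁D : κ₁ ∣ D := Dvd.dvd.trans ⟨8 * κ₂, by ring⟩ hD
  have hκ₂D : κ₂ ∣ D := Dvd.dvd.trans ⟨8 * κ₁, by ring⟩ hD
  have h2D : 2 ∣ D := Dvd.dvd.trans ⟨4 * κ₁ * κ₂, by ring⟩ hD
  have cD1 := lt_cop hp₁D
  have cD2 := lt_cop hp₂D
  have hp₁2 : p₁ ≠ 2 := by
    intro h0
    rw [h0] at cD1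
    have := Nat.dvd_gcd h2D (dvd_refl 2)
    rw [cD1] at this
    omega
  have hp₂2 : p₂ ≠ 2 := by
    intro h0
    rw [h0] at cD2
    have := Nat.dvd_gcd h2D (dvd_refl 2)
    rw [cD2] at this
    omega
  have hqκ₁ : (κ₁ : ℤ) ∣ q ^ 2 - n₀ := Dvd.dvd.trans ⟨8 * κ₂, by push_cast; ring⟩ hq
  have hqκ₂ : (κ₂ : ℤ) ∣ q ^ 2 - n₀ := Dvd.dvd.trans ⟨8 * κ₁, by push_cast; ring⟩ hq
  have cκ₁n : κ₁.Coprime n₀ := Nat.Coprime.coprime_dvd_left hκ₁D hDn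
  have cκ₂n : κ₂.Coprime n₀ := Nat.Coprime.coprime_dvd_left hκ₂D hDn
  have cκ₁r : κ₁.Coprime r₁ := Nat.Coprime.coprime_dvd_left hκ₁D hDr₁
  have cκ₂r : κ₂.Coprime r₂ := Nat.Coprime.coprime_dvd_left hκ₂D hDr₂
  have cg₁n : (κ₁ * r₁).Coprime n₀ := Nat.Coprime.mul_left cκ₁n hr₁n
  have cg₂n : (κ₂ * r₂).Coprime n₀ := Nat.Coprime.mul_left cκ₂n hr₂n
  -- a prime which divides two coprime numbers
  have nocop : ∀ {p a b : ℕ}, p.Prime → a.Coprime b → p ∣ a → p ∣ b → False := by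
    intro p a b hp hab ha hb
    have h6 := Nat.dvd_gcd ha hb
    rw [hab] at h6
    exact hp.one_lt.ne' (Nat.dvd_one.1 h6)
  -- `p₂`
  have nd2 : ¬ p₂ ∣ κ₁ * r₁ := by
    intro h6
    rcases hp₂.dvd_mul.1 h6 with h7 | h7
    · exact nocop hp₂ cD2 (h7.trans hκ₁D) (dvd_refl _)
    · have h8 : (p₂ : ℤ) ∣ p₂ - n₀ := (Int.natCast_dvd_natCast.2 h7).trans h3
      have h9 : (p₂ : ℤ) ∣ n₀ := by
        have := dvd_sub (dvd_refl (p₂ : ℤ)) h8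
        rwa [sub_sub_cancel] at this
      exact nocop hp₂ hr₁n h7 (Int.natCast_dvd_natCast.1 h9)
  have np2 : ¬ p₂ ∣ n₀ := by
    intro h6
    have h7 : (p₂ : ℤ) ∣ p₂ + κ₁ * r₁ := (Int.natCast_dvd_natCast.2 h6).trans h4
    have h8 : (p₂ : ℤ) ∣ ((κ₁ * r₁ : ℕ) : ℤ) := by
      have := dvd_sub h7 (dvd_refl (p₂ : ℤ))
      rw [add_sub_cancel_left] at this
      push_cast
      exact this
    exact nd2 (Int.natCast_dvd_natCast.1 h8)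
  -- `p₁`
  have nd1 : ¬ p₁ ∣ κ₂ * r₂ := by
    intro h6
    rcases hp₁.dvd_mul.1 h6 with h7 | h7
    · exact nocop hp₁ cD1 (h7.trans hκ₂D) (dvd_refl _)
    · have h8 : (p₁ : ℤ) ∣ p₁ - n₀ := (Int.natCast_dvd_natCast.2 h7).trans h1
      have h9 : (p₁ : ℤ) ∣ n₀ := by
        have := dvd_sub (dvd_refl (p₁ : ℤ)) h8
        rwa [sub_sub_cancel] at this
      exact nocop hp₁ hr₂n h7 (Int.natCast_dvd_natCast.1 h9)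
  have np1 : ¬ p₁ ∣ n₀ := by
    intro h6
    have h6' := Int.natCast_dvd_natCast.2 h6
    have h7 : (p₁ : ℤ) ∣ p₁ - κ₁ * r₁ := h6'.trans h2
    have h8 : (p₁ : ℤ) ∣ κ₁ * r₁ := by
      have := dvd_sub (dvd_refl (p₁ : ℤ)) h7
      rwa [sub_sub_cancel] at this
    have h9 : (p₁ : ℤ) ∣ ((κ₂ * r₂ : ℕ) : ℤ) := by
      have := dvd_sub (h6'.trans hsum) h8
      rw [add_sub_cancel_left] at this
      push_cast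
      exact this
    exact nd1 (Int.natCast_dvd_natCast.1 h9)
  have cp2 : p₂.Coprime n₀ := (Nat.Prime.coprime_iff_not_dvd hp₂).2 np2
  have cp1 : p₁.Coprime n₀ := (Nat.Prime.coprime_iff_not_dvd hp₁).2 np1
  have s1 : (κ₁ : ℤ) ∣ (p₂ : ℤ) - 1 := lt_sub hκ₁D hD1 hp₂D
  have s2 : (κ₂ : ℤ) ∣ (p₁ : ℤ) - 1 := lt_sub hκ₂D hD1 hp₁D
  refine ⟨?_, ?_, ?_⟩
  · have h6 := legendre (a := κ₁ * r₁) (b := p₂) (c := n₀) (Nat.mul_pos hκ₁ hr₁) hp₂.pos hn0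
      ((Nat.Prime.coprime_iff_not_dvd hp₂).2 nd2).symm cp2 cg₁n (by
        have h7 := hp₂.two_le
        have h8 : 1 ≤ κ₁ * r₁ := Nat.mul_pos hκ₁ hr₁
        nlinarith) ⟨κ₁ * r₁, by
        have h7 : ((κ₁ : ℤ) * r₁) ^ 2 + ((κ₁ * r₁ : ℕ) : ℤ) * p₂ =
            (κ₁ * r₁) * (p₂ + κ₁ * r₁) := by
          push_cast
          ring
        rw [h7]
        exact h4.mul_left _⟩ (lt_sq cκ₁r hqκ₁ s1 h3) (by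
        obtain ⟨r, hr⟩ := exists_sq hp₂ hp₂2 j1
        exact ⟨r, by push_cast; exact hr⟩)
    push_cast at h6
    exact h6
  · have h6 := legendre (a := κ₂ * r₂) (b := p₁) (c := n₀) (Nat.mul_pos hκ₂ hr₂) hp₁.pos hn0
      ((Nat.Prime.coprime_iff_not_dvd hp₁).2 nd1).symm cp1 cg₂n (by
        have h7 := hp₁.two_le
        have h8 : 1 ≤ κ₂ * r₂ := Nat.mul_pos hκ₂ hr₂
        nlinarith) ⟨κ₁ * r₁, by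
        have h7 : ((κ₁ : ℤ) * r₁) ^ 2 + ((κ₂ * r₂ : ℕ) : ℤ) * p₁ =
            (κ₁ * r₁ + κ₂ * r₂) * p₁ - (κ₁ * r₁) * (p₁ - κ₁ * r₁) := by
          push_cast
          ring
        rw [h7]
        exact dvd_sub (hsum.mul_right _) (h2.mul_left _)⟩ (lt_sq cκ₂r hqκ₂ s2 h1) (by
        obtain ⟨r, hr⟩ := exists_sq hp₁ hp₁2 j2
        exact ⟨r, by push_cast; exact hr⟩)
    push_cast at h6
    exact h6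
  · refine legendre (a := p₁) (b := p₂) (c := n₀) hp₁.pos hp₂.pos hn0
      ((Nat.coprime_primes hp₁ hp₂).2 hne) cp2 cp1 (by
        have h7 := hp₁.two_le
        have h8 := hp₂.two_le
        nlinarith) ⟨κ₁ * r₁, by
        have h7 : ((κ₁ : ℤ) * r₁) ^ 2 + (p₁ : ℤ) * p₂ =
            p₁ * (p₂ + κ₁ * r₁) - (κ₁ * r₁) * (p₁ - κ₁ * r₁) := by ring
        rw [h7]
        exact dvd_sub (h4.mul_left _) (h2.mul_left _)⟩ ⟨n₀, by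
        have h7 : (n₀ : ℤ) ^ 2 - (p₂ : ℤ) * n₀ = -(n₀ * ((p₂ : ℤ) - n₀)) := by ring
        rw [h7]
        exact (h5.mul_left _).neg_right⟩ (exists_sq hp₂ hp₂2 j3)

end Pool.Agent.Work.MP_f6469e_gt.Mir
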