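import Pool.Agent.Work.MP_f6469e_gt.Mir.SqL

/-!
# Mir/Loc2 (size M-L): a quaternary form represents a square, the prime 2

Write `b i = 4^(e i) c i` with `4 ∤ c i`. Let `β i = c i % 8` if `c i` is odd (`1, 3, 5, 7`) and `β i = c i % 16` if `c i` is even
(`2, 6, 10, 14`). There is an odd `η i` with `2^12 ∣ c i (η i)² - β i`: if `c i` is odd choose `d` with `d c i ≡ β i` mod `2^12`; `d ≡ 1` mod `8`
(as `c i ≡ β i`), so `d ≡ η²` mod `2^12` (`exists_sqrt_mod`, `Good 2 d`); if `c i = 2 c'`, `β i = 2 β'` the same with `c'`, `β'`.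
TABLE (tested by computer): for all `β` in `{1,3,5,7,2,6,10,14}^4` there are `y ∈ {0,1,2,3}^4` and `j ≤ 3` with
`(∑ β i y i²) % (8 * 4^j) = 4^j`. Prove it by `decide` for a boolean function on lists (`List.all`, `List.any`, natural numbers; in
pieces, one for each value of `β 0`, if it is slow). With `x i = 2^(E - e i) η i y i`, `E = ∑ e i`:
`∑ b i x i² = 4^E ∑ c i (η i)² (y i)² = 4^E (4^j (1 + 8 k) + 2^12 t) = 2^(2 (E + j)) (1 + 8 k + 2^(12 - 2 j) t)`, `12 - 2 j ≥ 6`.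
-/

set_option autoImplicit false

namespace Pool.Agent.Work.MP_f6469e_gt.Mir

open Pool.Agent.Work.MP_f6469e_gt

/-- the number `s` is `4^j` times a number which is `1` modulo `8`, `j ≤ 3` -/
private def okS (s : ℕ) : Bool :=
  s % 8 == 1 || (s % 32 == 4 || (s % 128 == 16 || s % 512 == 64))

private def tb : List ℕ := [1, 3, 5, 7, 2, 6, 10, 14]

private def ys : List ℕ := [0, 1, 2, 3]

private def fnd (p q r s : ℕ) : Bool :=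
  ys.any fun y₀ => ys.any fun y₁ => ys.any fun y₂ => ys.any fun y₃ =>
    okS (p * y₀ ^ 2 + q * y₁ ^ 2 + r * y₂ ^ 2 + s * y₃ ^ 2)

private theorem table_all :
    (tb.all fun p => tb.all fun q => tb.all fun r => tb.all fun s => fnd p q r s) = true := by
  decide +kernel

private theorem table {p q r s : ℕ} (hp : p ∈ tb) (hq : q ∈ tb) (hr : r ∈ tb) (hs : s ∈ tb) :
    ∃ y₀ y₁ y₂ y₃ : ℕ,
      okS (p * y₀ ^ 2 + q * y₁ ^ 2 + r * y₂ ^ 2 + s * y₃ ^ 2) = true := by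
  have h := table_all
  rw [List.all_eq_true] at h
  have h1 := h p hp
  rw [List.all_eq_true] at h1
  have h2 := h1 q hq
  rw [List.all_eq_true] at h2
  have h3 := h2 r hr
  rw [List.all_eq_true] at h3
  have h4 := h3 s hs
  unfold fnd at h4
  obtain ⟨y₀, _, h5⟩ := List.any_eq_true.1 h4
  obtain ⟨y₁, _, h6⟩ := List.any_eq_true.1 h5
  obtain ⟨y₂, _, h7⟩ := List.any_eq_true.1 h6
  obtain ⟨y₃, _, h8⟩ := List.any_eq_true.1 h7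
  exact ⟨y₀, y₁, y₂, y₃, h8⟩

private theorem two_pow_two_mul (E : ℕ) : (((2 : ℕ) : ℤ)) ^ (2 * E) = 4 ^ E := by
  rw [pow_mul]
  norm_num

private theorem good_fin (E s : ℕ) (T : ℤ) (h : okS s = true) :
    Good 2 (4 ^ E * (s + 4096 * T)) := by
  unfold okS at h
  simp only [Bool.or_eq_true, beq_iff_eq] at h
  rcases h with h | h | h | h
  · refine ⟨E, s + 4096 * T, ?_, Or.inl ⟨rfl, ?_⟩⟩
    · rw [two_pow_two_mul]
    · omega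
  · refine ⟨E + 1, ((s / 4 : ℕ) : ℤ) + 1024 * T, ?_, Or.inl ⟨rfl, ?_⟩⟩
    · rw [two_pow_two_mul]
      have h1 : (s : ℤ) = 4 * ((s / 4 : ℕ) : ℤ) := by omega
      rw [h1, pow_succ]
      ring
    · omega
  · refine ⟨E + 2, ((s / 16 : ℕ) : ℤ) + 256 * T, ?_, Or.inl ⟨rfl, ?_⟩⟩
    · rw [two_pow_two_mul]
      have h1 : (s : ℤ) = 16 * ((s / 16 : ℕ) : ℤ) := by omega
      rw [h1, pow_add]
      ring
    · omega
  · refine ⟨E + 3, ((s / 64 : ℕ) : ℤ) + 64 * T, ?_, Or.inl ⟨rfl, ?_⟩⟩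
    · rw [two_pow_two_mul]
      have h1 : (s : ℤ) = 64 * ((s / 64 : ℕ) : ℤ) := by omega
      rw [h1, pow_add]
      ring
    · omega

private theorem odd_coord {c : ℕ} (hc : c % 2 = 1) :
    ∃ η : ℤ, (4096 : ℤ) ∣ c * η ^ 2 - ((c % 8 : ℕ) : ℤ) := by
  have hcop : IsCoprime (c : ℤ) (4096 : ℤ) := by
    have h1 : Nat.Coprime c (2 ^ 12) := by
      apply Nat.Coprime.pow_right
      rw [Nat.coprime_comm, Nat.Prime.coprime_iff_not_dvd Nat.prime_two]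
      omega
    have h2 := Nat.isCoprime_iff_coprime.2 h1
    have h3 : (((2 ^ 12 : ℕ)) : ℤ) = 4096 := by norm_num
    rwa [h3] at h2
  have hcop8 : IsCoprime (8 : ℤ) (c : ℤ) := by
    have h1 : Nat.Coprime c (2 ^ 3) := by
      apply Nat.Coprime.pow_right
      rw [Nat.coprime_comm, Nat.Prime.coprime_iff_not_dvd Nat.prime_two]
      omega
    have h2 := Nat.isCoprime_iff_coprime.2 h1
    have h3 : (((2 ^ 3 : ℕ)) : ℤ) = 8 := by norm_num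
    rw [h3] at h2
    exact h2.symm
  obtain ⟨u, v, huv⟩ := hcop
  obtain ⟨g, hg⟩ : ∃ g : ℤ, g = ((c % 8 : ℕ) : ℤ) := ⟨_, rfl⟩
  obtain ⟨w, hw⟩ : ∃ w : ℤ, (c : ℤ) - g = 8 * w := ⟨(c : ℤ) / 8, by rw [hg]; omega⟩
  rw [← hg]
  have h8 : (8 : ℤ) ∣ u * g - 1 := by
    apply hcop8.dvd_of_dvd_mul_right
    refine ⟨-512 * v * g - w, ?_⟩
    linear_combination g * huv - hw
  have hm : (u * g) % 8 = 1 := by omega
  have hgood : Good 2 (u * g) := ⟨0, u * g, by simp, Or.inl ⟨rfl, hm⟩⟩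
  obtain ⟨q, hq⟩ := exists_sqrt_mod (n₀ := u * g) (M := 4096) (by norm_num) (by
    intro ℓ hℓ h1
    have h2 : ℓ ∣ 2 ^ 12 := by
      have h3 : (2 : ℕ) ^ 12 = 4096 := by norm_num
      rw [h3]
      exact h1
    have h3 : ℓ = 2 := (Nat.prime_dvd_prime_iff_eq hℓ Nat.prime_two).1 (hℓ.dvd_of_dvd_pow h2)
    subst h3
    refine ⟨?_, hgood⟩
    intro h4
    obtain ⟨k, hk⟩ := h4
    push_cast at hk
    omega)
  obtain ⟨k, hk⟩ := hq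
  refine ⟨q, c * k - v * g, ?_⟩
  push_cast at hk
  linear_combination (c : ℤ) * hk + g * huv

private theorem coord {n : ℕ} (hn : 0 < n) :
    ∃ (e c β : ℕ) (η : ℤ), n = 4 ^ e * c ∧ β ∈ tb ∧ (4096 : ℤ) ∣ c * η ^ 2 - β := by
  obtain ⟨e, c, hc, hn'⟩ := Nat.exists_eq_pow_mul_and_not_dvd hn.ne' 4 (by norm_num)
  rcases Nat.even_or_odd' c with ⟨c', hc' | hc'⟩
  · have hodd : c' % 2 = 1 := by omega
    obtain ⟨η, hη⟩ := odd_coord hodd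
    refine ⟨e, c, 2 * (c' % 8), η, hn', ?_, ?_⟩
    · have h1 : c' % 8 = 1 ∨ c' % 8 = 3 ∨ c' % 8 = 5 ∨ c' % 8 = 7 := by omega
      rcases h1 with h1 | h1 | h1 | h1 <;> rw [h1] <;> simp [tb]
    · obtain ⟨k, hk⟩ := hη
      refine ⟨2 * k, ?_⟩
      rw [hc']
      push_cast at hk ⊢
      linear_combination 2 * hk
  · have hodd : c % 2 = 1 := by omega
    obtain ⟨η, hη⟩ := odd_coord hodd
    refine ⟨e, c, c % 8, η, hn', ?_, hη⟩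
    have h1 : c % 8 = 1 ∨ c % 8 = 3 ∨ c % 8 = 5 ∨ c % 8 = 7 := by omega
    rcases h1 with h1 | h1 | h1 | h1 <;> rw [h1] <;> simp [tb]

private theorem four_pow_aux {e E : ℕ} (h : e ≤ E) :
    (4 : ℤ) ^ e * ((2 : ℤ) ^ (E - e)) ^ 2 = 4 ^ E := by
  have h1 : ((2 : ℤ) ^ (E - e)) ^ 2 = 4 ^ (E - e) := by
    rw [← pow_mul, mul_comm, pow_mul]
    norm_num
  rw [h1, ← pow_add]
  congr 1
  omega

private theorem term_aux {n e c β E : ℕ} {η t : ℤ} (y : ℕ) (h : e ≤ E) (hn : n = 4 ^ e * c)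
    (ht : c * η ^ 2 - β = 4096 * t) :
    (n : ℤ) * (2 ^ (E - e) * η * y) ^ 2 =
      4 ^ E * ((β * y ^ 2 : ℕ) : ℤ) + 4 ^ E * (4096 * (t * y ^ 2)) := by
  rw [hn]
  push_cast
  have h1 := four_pow_aux h
  have h2 : (4 : ℤ) ^ e * c * (2 ^ (E - e) * η * y) ^ 2 =
      ((4 : ℤ) ^ e * (2 ^ (E - e)) ^ 2) * (c * η ^ 2) * y ^ 2 := by ring
  rw [h2, h1]
  linear_combination (4 : ℤ) ^ E * y ^ 2 * ht

theorem good_two (b : Fin 4 → ℕ) (hb : ∀ i, 0 < b i) :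
    ∃ x : Fin 4 → ℤ, Good 2 (∑ i, b i * x i ^ 2) := by
  choose e c β η hn hβ hη using fun i => coord (hb i)
  choose t ht using hη
  obtain ⟨y₀, y₁, y₂, y₃, hy⟩ := table (hβ 0) (hβ 1) (hβ 2) (hβ 3)
  obtain ⟨E, hE⟩ : ∃ E : ℕ, E = e 0 + e 1 + e 2 + e 3 := ⟨_, rfl⟩
  refine ⟨![2 ^ (E - e 0) * η 0 * y₀, 2 ^ (E - e 1) * η 1 * y₁, 2 ^ (E - e 2) * η 2 * y₂,
    2 ^ (E - e 3) * η 3 * y₃], ?_⟩
  have h0 := term_aux y₀ (by omega : e 0 ≤ E) (hn 0) (ht 0)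
  have h1 := term_aux y₁ (by omega : e 1 ≤ E) (hn 1) (ht 1)
  have h2 := term_aux y₂ (by omega : e 2 ≤ E) (hn 2) (ht 2)
  have h3 := term_aux y₃ (by omega : e 3 ≤ E) (hn 3) (ht 3)
  have h4 := good_fin E _ (t 0 * y₀ ^ 2 + t 1 * y₁ ^ 2 + t 2 * y₂ ^ 2 + t 3 * y₃ ^ 2) hy
  rw [Fin.sum_univ_four]
  have h5 : (b 0 : ℤ) * (2 ^ (E - e 0) * η 0 * y₀) ^ 2 + b 1 * (2 ^ (E - e 1) * η 1 * y₁) ^ 2 +
      b 2 * (2 ^ (E - e 2) * η 2 * y₂) ^ 2 + b 3 * (2 ^ (E - e 3) * η 3 * y₃) ^ 2 =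
      4 ^ E * (((β 0 * y₀ ^ 2 + β 1 * y₁ ^ 2 + β 2 * y₂ ^ 2 + β 3 * y₃ ^ 2 : ℕ) : ℤ) +
        4096 * (t 0 * y₀ ^ 2 + t 1 * y₁ ^ 2 + t 2 * y₂ ^ 2 + t 3 * y₃ ^ 2)) := by
    rw [h0, h1, h2, h3]
    push_cast
    ring
  have h6 : (b 0 : ℤ) * ((![2 ^ (E - e 0) * η 0 * y₀, 2 ^ (E - e 1) * η 1 * y₁,
      2 ^ (E - e 2) * η 2 * y₂, 2 ^ (E - e 3) * η 3 * y₃] : Fin 4 → ℤ) 0) ^ 2 +
      b 1 * ((![2 ^ (E - e 0) * η 0 * y₀, 2 ^ (E - e 1) * η 1 * y₁,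
      2 ^ (E - e 2) * η 2 * y₂, 2 ^ (E - e 3) * η 3 * y₃] : Fin 4 → ℤ) 1) ^ 2 +
      b 2 * ((![2 ^ (E - e 0) * η 0 * y₀, 2 ^ (E - e 1) * η 1 * y₁,
      2 ^ (E - e 2) * η 2 * y₂, 2 ^ (E - e 3) * η 3 * y₃] : Fin 4 → ℤ) 2) ^ 2 +
      b 3 * ((![2 ^ (E - e 0) * η 0 * y₀, 2 ^ (E - e 1) * η 1 * y₁,
      2 ^ (E - e 2) * η 2 * y₂, 2 ^ (E - e 3) * η 3 * y₃] : Fin 4 → ℤ) 3) ^ 2 =
      (b 0 : ℤ) * (2 ^ (E - e 0) * η 0 * y₀) ^ 2 + b 1 * (2 ^ (E - e 1) * η 1 * y₁) ^ 2 +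
      b 2 * (2 ^ (E - e 2) * η 2 * y₂) ^ 2 + b 3 * (2 ^ (E - e 3) * η 3 * y₃) ^ 2 := rfl
  rw [h6, h5]
  exact h4

end Pool.Agent.Work.MP_f6469e_gt.Mir
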