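import Pool.Agent.Work.MP_f6469e_gt.Mir.Defs

/-!
# Mir/Jac (size M): Jacobi symbols

* `exists_sq`: `jacobiSym.legendreSym.to_jacobiSym`, `legendreSym.eq_one_iff` (`d ≠ 0 mod p`, as otherwise the symbol is `0`;
  `ZMod.isSquare` of the class of `d`, take an integer representative).
* `jac_mod`: `jacobiSym.mod_left'`.
* `jac_of_mod`, `jac_neg_of_mod`: `jacobiSym.mod_right` (`p` is odd, `p % (4 * m) = 1`), `jacobiSym.one_right`.
* `jac_rec`: `jacobiSym.quadratic_reciprocity_one_mod_four`.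
* `jac_neg`: `jacobiSym.neg`, `ZMod.χ₄` of `n` is `1` (`jacobiSym.at_neg_one`).
* `jac_sq`: let `Q = q.natAbs`. `Q² ≡ n` mod `8 m`, so `Q` is odd and prime to `m`. `J(m | n) = J(m | n % (4 m))` and
  `J(m | Q²) = J(m | Q² % (4 m))` (`jacobiSym.mod_right`), and the two remainders agree; `J(m | Q²) = J(m | Q)² = 1`
  (`jacobiSym.pow_right` or `jacobiSym.mul_right`, `jacobiSym.sq_one`).
-/

set_option autoImplicit false

namespace Pool.Agent.Work.MP_f6469e_gt.Mir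

open Pool.Agent.Work.MP_f6469e_gt

theorem exists_sq {p : ℕ} (hp : p.Prime) (h2 : p ≠ 2) {d : ℤ} (h : jacobiSym d p = 1) :
    ∃ s : ℤ, (p : ℤ) ∣ s ^ 2 - d := by
  have := Fact.mk hp
  have _ := h2
  obtain ⟨r, hr⟩ := ZMod.isSquare_of_jacobiSym_eq_one h
  refine ⟨(r.val : ℤ), ?_⟩
  rw [← ZMod.intCast_zmod_eq_zero_iff_dvd]
  push_cast
  rw [ZMod.natCast_zmod_val, hr]
  ring

theorem jac_mod {n : ℕ} {a b : ℤ} (h : (n : ℤ) ∣ a - b) : jacobiSym a n = jacobiSym b n := by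
  exact jacobiSym.mod_left' (Int.emod_eq_emod_iff_emod_sub_eq_zero.2 (Int.emod_eq_zero_of_dvd h))

theorem jac_of_mod {m p : ℕ} (hm : 0 < m) (hp : p % (8 * m) = 1) : jacobiSym m p = 1 := by
  have hodd : Odd p := by
    have h1 : p % 2 = 1 := by
      have h2 : p % (8 * m) % 2 = p % 2 := Nat.mod_mod_of_dvd _ ⟨4 * m, by ring⟩
      rw [hp] at h2
      exact h2.symm
    exact Nat.odd_iff.2 h1
  have h3 : p % (4 * m) = 1 := by
    have h4 : p % (8 * m) % (4 * m) = p % (4 * m) := Nat.mod_mod_of_dvd _ ⟨2, by ring⟩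
    rw [hp] at h4
    rw [← h4]
    exact Nat.mod_eq_of_lt (by omega)
  rw [jacobiSym.mod_right _ hodd, Int.natAbs_natCast, h3, jacobiSym.one_right]

theorem jac_neg_of_mod {m p : ℕ} (hm : 0 < m) (hp : p % (8 * m) = 1) :
    jacobiSym (-(m : ℤ)) p = 1 := by
  have hodd : Odd p := by
    have h1 : p % 2 = 1 := by
      have h2 : p % (8 * m) % 2 = p % 2 := Nat.mod_mod_of_dvd _ ⟨4 * m, by ring⟩
      rw [hp] at h2
      exact h2.symm
    exact Nat.odd_iff.2 h1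
  have h3 : p % (4 * m) = 1 := by
    have h4 : p % (8 * m) % (4 * m) = p % (4 * m) := Nat.mod_mod_of_dvd _ ⟨2, by ring⟩
    rw [hp] at h4
    rw [← h4]
    exact Nat.mod_eq_of_lt (by omega)
  rw [jacobiSym.mod_right _ hodd, Int.natAbs_neg, Int.natAbs_natCast, h3, jacobiSym.one_right]

theorem jac_rec {a b : ℕ} (ha : a % 2 = 1) (hb : b % 4 = 1) : jacobiSym a b = jacobiSym b a := by
  exact (jacobiSym.quadratic_reciprocity_one_mod_four hb (Nat.odd_iff.2 ha)).symm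

theorem jac_neg {n : ℕ} (hn : n % 4 = 1) (d : ℤ) : jacobiSym (-d) n = jacobiSym d n := by
  have hodd : Odd n := Nat.odd_iff.2 (by omega)
  rw [jacobiSym.neg _ hodd, ZMod.χ₄_nat_one_mod_four hn, one_mul]

theorem jac_sq {m n : ℕ} (hm : 0 < m) (hn : n % 8 = 1) (hc : m.Coprime n) {q : ℤ}
    (hq : ((8 * m : ℕ) : ℤ) ∣ q ^ 2 - n) : jacobiSym m n = 1 := by
  obtain ⟨Q, hQ⟩ : ∃ Q : ℕ, Q = q.natAbs := ⟨_, rfl⟩
  have hQ2 : ((8 * m : ℕ) : ℤ) ∣ (Q : ℤ) ^ 2 - n := by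
    rw [hQ, Int.natCast_natAbs, sq_abs]
    exact hq
  have hmod : (Q ^ 2) ≡ n [MOD 8 * m] := by
    rw [Nat.ModEq.comm, Nat.modEq_iff_dvd]
    push_cast at hQ2 ⊢
    exact hQ2
  have hnodd : Odd n := Nat.odd_iff.2 (by omega)
  have hQodd : Odd (Q ^ 2) := by
    have h1 : Q ^ 2 ≡ n [MOD 8] := hmod.of_dvd ⟨m, rfl⟩
    have h2 : Q ^ 2 % 8 = n % 8 := h1
    exact Nat.odd_iff.2 (by omega)
  have hcop : Nat.Coprime m Q := by
    rw [Nat.coprime_iff_gcd_eq_one] 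
    by_contra hne
    obtain ⟨p, hp, hpd⟩ := Nat.exists_prime_and_dvd hne
    have h1 : p ∣ m := hpd.trans (Nat.gcd_dvd_left _ _)
    have h2 : p ∣ Q := hpd.trans (Nat.gcd_dvd_right _ _)
    have h3 : Q ^ 2 ≡ n [MOD p] := hmod.of_dvd (h1.mul_left 8)
    have h4 : p ∣ n := (h3.dvd_iff (dvd_refl p)).1 (dvd_pow h2 two_ne_zero)
    have h5 : p ∣ 1 := by
      rw [← Nat.coprime_iff_gcd_eq_one.1 hc]
      exact Nat.dvd_gcd h1 h4
    exact hp.one_lt.ne' (Nat.dvd_one.1 h5)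
  have h5 : jacobiSym m (Q ^ 2) = 1 := by
    rw [jacobiSym.pow_right]
    exact jacobiSym.sq_one (by rw [Int.gcd_natCast_natCast]; exact hcop)
  have h6 : n % (4 * m) = Q ^ 2 % (4 * m) := ((hmod.of_dvd ⟨2, by ring⟩ : Q ^ 2 ≡ n [MOD 4 * m])).symm
  rw [← h5, jacobiSym.mod_right _ hnodd, jacobiSym.mod_right _ hQodd, Int.natAbs_natCast, h6]

end Pool.Agent.Work.MP_f6469e_gt.Mir
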