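import Pool.Agent.Work.MP_f6469e_gt.Mir.Leg
import Pool.Agent.Work.MP_f6469e_gt.Mir.Jac

/-!
# Mir/PNor (size S-M): primes which are norms

`jac_neg_of_mod` and `exists_sq` give `s₀` with `p ∣ s₀² + m`. Apply `legendre` with `a = 1`, `b = 4 m`, `c = p`: `p ∤ 4 m` (else
`p ∣ 8 m`, `p ≤ 8 m`, but `p % (8 * m) = 1`), `p ∣ (2 s₀)² + 4 m`, `1 ∣ ..`, `4 m ∣ 1² - p`. Result `x² + 4 m y² = p z²`, i.e.
`x² + m (2 y)² = p z²`.
-/

set_option autoImplicit false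

namespace Pool.Agent.Work.MP_f6469e_gt.Mir

open Pool.Agent.Work.MP_f6469e_gt

theorem prime_norm {m p : ℕ} (hm : 0 < m) (hp : p.Prime) (h : p % (8 * m) = 1) :
    ∃ x y z : ℤ, z ≠ 0 ∧ x ^ 2 + m * y ^ 2 = p * z ^ 2 := by
  obtain ⟨k, hk⟩ : ∃ k : ℕ, p = 8 * m * k + 1 := ⟨p / (8 * m), by
    have := Nat.div_add_mod p (8 * m)
    rw [h] at this
    exact this.symm⟩
  have hkz : (p : ℤ) = 8 * m * k + 1 := by exact_mod_cast hk
  have h2 : p ≠ 2 := by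
    intro h2
    have h3 : 8 * m * k + 1 = 2 := by rw [← hk, h2]
    have h4 : 8 * (m * k) + 1 = 2 := by rw [← mul_assoc]; exact h3
    omega
  obtain ⟨s, hs⟩ := exists_sq hp h2 (jac_neg_of_mod hm h)
  have hcop : (4 * m).Coprime p := by
    rw [← Nat.isCoprime_iff_coprime]
    refine ⟨-(2 * k), 1, ?_⟩
    rw [hkz]
    push_cast
    ring
  obtain ⟨x, y, z, hz, he⟩ := legendre (a := 1) (b := 4 * m) (c := p) one_pos (by omega) hp.pos
    (Nat.coprime_one_left _) hcop (Nat.coprime_one_left _) (by omega)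
    ⟨2 * s, by
      obtain ⟨e, he⟩ := hs
      refine ⟨4 * e, ?_⟩
      push_cast
      linear_combination 4 * he⟩
    ⟨0, by simp⟩
    ⟨1, by
      refine ⟨-(2 * k), ?_⟩
      rw [hkz]
      push_cast
      ring⟩
  refine ⟨x, 2 * y, z, hz, ?_⟩
  rw [← he]
  push_cast
  ring

end Pool.Agent.Work.MP_f6469e_gt.Mir
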