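import Pool.Agent.Work.MP_f6469e_gt.Mir.Dir

/-!
# Mir/Prm (size M): two auxiliary primes

`p₁`: by `crt` (twice) there is `c` with `D ∣ c - 1`, `r₂ ∣ c - n₀`, `n₀ ∣ c - g`; it is prime to `D r₂ n₀` (`n₀` is prime to `r₂`, `g` is prime
to `n₀`), so `exists_prime_mod` gives a prime `p₁ > D r₁ r₂ n₀` with `D r₂ n₀ ∣ p₁ - c`. As `D ≥ 8`: `p₁ % D = 1`.
`p₂`: the same with `D ∣ c - 1`, `r₁ ∣ c - n₀`, `n₀ ∣ c + g`, `p₁ ∣ c - n₀` (`p₁ > n₀` is prime to `D r₁ n₀` and to `n₀`), and `p₂ > p₁`.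
-/

set_option autoImplicit false

namespace Pool.Agent.Work.MP_f6469e_gt.Mir

open Pool.Agent.Work.MP_f6469e_gt

private theorem prm_trans {m a b c : ℤ} (h1 : m ∣ a - b) (h2 : m ∣ b - c) : m ∣ a - c := by
  have h3 := dvd_add h1 h2
  rw [sub_add_sub_cancel] at h3
  exact h3

private theorem prm_cop {m a b : ℤ} (h1 : m ∣ a - b) (h2 : IsCoprime b m) : IsCoprime a m := by
  obtain ⟨k, hk⟩ := h1
  have h3 : a = b + m * k := by linear_combination hk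
  rw [h3]
  exact h2.add_mul_left_left k

theorem exists_primes {D r₁ r₂ n₀ : ℕ} (hD : 0 < D) (h8 : 8 ∣ D) (hr₁ : 0 < r₁) (hr₂ : 0 < r₂)
    (hn₀ : 0 < n₀) (h1 : D.Coprime r₁) (h2 : D.Coprime r₂) (h3 : D.Coprime n₀)
    (h4 : r₁.Coprime n₀) (h5 : r₂.Coprime n₀) {g : ℤ} (hg : IsCoprime g (n₀ : ℤ)) :
    ∃ p₁ p₂ : ℕ, p₁.Prime ∧ p₂.Prime ∧ p₁ ≠ p₂ ∧ p₁ % D = 1 ∧ p₂ % D = 1 ∧
      (r₂ : ℤ) ∣ p₁ - n₀ ∧ (n₀ : ℤ) ∣ p₁ - g ∧ (r₁ : ℤ) ∣ p₂ - n₀ ∧ (n₀ : ℤ) ∣ p₂ + g ∧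
      (p₁ : ℤ) ∣ p₂ - n₀ := by
  have hD8 : 8 ≤ D := Nat.le_of_dvd hD h8
  have i1 : IsCoprime (D : ℤ) (r₁ : ℤ) := Nat.isCoprime_iff_coprime.2 h1
  have i2 : IsCoprime (D : ℤ) (r₂ : ℤ) := Nat.isCoprime_iff_coprime.2 h2
  have i3 : IsCoprime (D : ℤ) (n₀ : ℤ) := Nat.isCoprime_iff_coprime.2 h3
  have i4 : IsCoprime (r₁ : ℤ) (n₀ : ℤ) := Nat.isCoprime_iff_coprime.2 h4
  have i5 : IsCoprime (r₂ : ℤ) (n₀ : ℤ) := Nat.isCoprime_iff_coprime.2 h5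
  have hmodD : ∀ p : ℕ, (D : ℤ) ∣ p - 1 → p % D = 1 := by
    intro p hp
    have h6 : ((p : ℤ)) % D = 1 % D := Int.emod_eq_emod_iff_emod_sub_eq_zero.2
      (Int.emod_eq_zero_of_dvd hp)
    have h7 : ((p % D : ℕ) : ℤ) = ((1 % D : ℕ) : ℤ) := by push_cast; exact h6
    have h8' : p % D = 1 % D := by exact_mod_cast h7
    rw [h8', Nat.mod_eq_of_lt (by omega)]
  -- the first prime
  obtain ⟨c1, a1, a2⟩ := crt i2 1 (n₀ : ℤ)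
  obtain ⟨c, b1, b2⟩ := crt (i3.mul_left i5) c1 g
  have cD : (D : ℤ) ∣ c - 1 := prm_trans ((dvd_mul_right _ _).trans b1) a1
  have cr : (r₂ : ℤ) ∣ c - n₀ := prm_trans ((dvd_mul_left _ _).trans b1) a2
  have hcop : IsCoprime c ((D * r₂ * n₀ : ℕ) : ℤ) := by
    push_cast
    exact ((prm_cop cD isCoprime_one_left).mul_right (prm_cop cr i5.symm)).mul_right
      (prm_cop b2 hg)
  obtain ⟨p₁, hp₁, hK, hm⟩ := exists_prime_mod (by positivity) hcop (D * r₁ * r₂ * n₀)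
  push_cast at hm
  have e1 : (D : ℤ) ∣ p₁ - 1 :=
    prm_trans (((dvd_mul_right _ _).trans (dvd_mul_right _ _)).trans hm) cD
  have e2 : (r₂ : ℤ) ∣ p₁ - n₀ :=
    prm_trans (((dvd_mul_left _ _).trans (dvd_mul_right _ _)).trans hm) cr
  have e3 : (n₀ : ℤ) ∣ p₁ - g := prm_trans ((dvd_mul_left _ _).trans hm) b2
  -- the second prime
  have hlt : D * r₁ * n₀ < p₁ := by
    refine lt_of_le_of_lt ?_ hK
    calc D * r₁ * n₀ = D * r₁ * 1 * n₀ := by ring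
      _ ≤ D * r₁ * r₂ * n₀ := by gcongr; exact hr₂
  have j1 : IsCoprime ((D : ℤ) * r₁ * n₀) (p₁ : ℤ) := by
    have h6 : Nat.Coprime (D * r₁ * n₀) p₁ := by
      rw [Nat.coprime_comm, hp₁.coprime_iff_not_dvd]
      intro hd
      exact absurd (Nat.le_of_dvd (by positivity) hd) (not_le.2 hlt)
    have h7 := Nat.isCoprime_iff_coprime.2 h6
    push_cast at h7
    exact h7
  have j2 : IsCoprime (n₀ : ℤ) (p₁ : ℤ) := (IsCoprime.of_mul_left_right j1)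
  obtain ⟨c2, a3, a4⟩ := crt i1 1 (n₀ : ℤ)
  obtain ⟨c3, a5, a6⟩ := crt (i3.mul_left i4) c2 (-g)
  obtain ⟨c4, a7, a8⟩ := crt j1 c3 (n₀ : ℤ)
  have f1 : (D : ℤ) ∣ c4 - 1 := prm_trans (((dvd_mul_right _ _).trans (dvd_mul_right _ _)).trans a7)
    (prm_trans ((dvd_mul_right _ _).trans a5) a3)
  have f2 : (r₁ : ℤ) ∣ c4 - n₀ := prm_trans (((dvd_mul_left _ _).trans (dvd_mul_right _ _)).trans a7)
    (prm_trans ((dvd_mul_left _ _).trans a5) a4)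
  have f3 : (n₀ : ℤ) ∣ c4 - (-g) := prm_trans ((dvd_mul_left _ _).trans a7) a6
  have hcop2 : IsCoprime c4 ((D * r₁ * n₀ * p₁ : ℕ) : ℤ) := by
    push_cast
    exact (((prm_cop f1 isCoprime_one_left).mul_right (prm_cop f2 i4.symm)).mul_right
      (prm_cop f3 hg.neg_left)).mul_right (prm_cop a8 j2)
  obtain ⟨p₂, hp₂, hK2, hm2⟩ := exists_prime_mod (Nat.mul_pos (by positivity) hp₁.pos) hcop2 p₁
  push_cast at hm2
  have k1 : (D : ℤ) ∣ p₂ - 1 := prm_trans ((((dvd_mul_right _ _).trans (dvd_mul_right _ _)).trans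
    (dvd_mul_right _ _)).trans hm2) f1
  have k2 : (r₁ : ℤ) ∣ p₂ - n₀ := prm_trans ((((dvd_mul_left _ _).trans (dvd_mul_right _ _)).trans
    (dvd_mul_right _ _)).trans hm2) f2
  have k3 : (n₀ : ℤ) ∣ p₂ - (-g) := prm_trans (((dvd_mul_left _ _).trans
    (dvd_mul_right _ _)).trans hm2) f3
  have k4 : (p₁ : ℤ) ∣ p₂ - n₀ := prm_trans ((dvd_mul_left _ _).trans hm2) a8
  rw [sub_neg_eq_add] at k3
  exact ⟨p₁, p₂, hp₁, hp₂, hK2.ne, hmodD _ e1, hmodD _ k1, e2, e3, k2, k3, k4⟩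

end Pool.Agent.Work.MP_f6469e_gt.Mir
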