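import Pool.Agent.Work.MP_f6469e_gt.Mir.LocO
import Pool.Agent.Work.MP_f6469e_gt.Mir.Loc2
import Pool.Agent.Work.MP_f6469e_gt.Mir.Glob
import Pool.Agent.Work.MP_f6469e_gt.Mir.Spl
import Pool.Agent.Work.MP_f6469e_gt.Mir.Prm
import Pool.Agent.Work.MP_f6469e_gt.Mir.LThr
import Pool.Agent.Work.MP_f6469e_gt.Mir.PNor
import Pool.Agent.Work.MP_f6469e_gt.Mir.Comb

/-!
# Mir/Mey (size M-L): the theorem of Meyer for signature (4, 1)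

`S` = the prime factors of `2 a b c d e`. `good_odd`, `good_two` with the coefficients `e a, e b, e c, e d` give `hloc`; `exists_global` gives
`x y z t`. `s₁ = a x² + b y² > 0`, `s₂ = c z² + d t² > 0`, `good_peel` with `N = e (s₁ + s₂)`: `N = m² n₀`. `exists_split` for `e s₁ = κ₁ r₁`,
`e s₂ = κ₂ r₂` (natural numbers). `D = 8 κ₁ κ₂ (a b) (c d)`: all its prime factors are in `S`. `n₀` as a natural number: prime to `D`
(`coprime_split`), `n₀ % 8 = 1` (`good_coprime`, `2 ∈ S`). A prime `ℓ` which divides two of `r₁, r₂, n₀` is not in `S`, so it does not divide `e`; it divides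
two of `s₁, s₂, s₁ + s₂`, hence `s₁` and `s₂`: excluded. So they are pairwise coprime. `exists_sqrt_mod` with `M = 8 κ₁ κ₂`.
`n₀ ∣ e (s₁ + s₂) = κ₁ r₁ + κ₂ r₂`. `exists_primes` with `g = κ₁ r₁`; `three_eqs`; `prime_norm` for `p₁` (`m = a b`, `8 a b ∣ D`) and `p₂`
(`m = c d`); `combine`.
-/

set_option autoImplicit false

namespace Pool.Agent.Work.MP_f6469e_gt.Mir

open Pool.Agent.Work.MP_f6469e_gt

private theorem loc_all {a b c d e : ℕ} (ha : 0 < a) (hb : 0 < b) (hc : 0 < c) (hd : 0 < d)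
    (he : 0 < e) {ℓ : ℕ} (hℓ : ℓ.Prime) : ∃ x y z t : ℤ,
      Good ℓ (e * (a * x ^ 2 + b * y ^ 2 + (c * z ^ 2 + d * t ^ 2))) := by
  have hB : ∀ i, 0 < (![e * a, e * b, e * c, e * d] : Fin 4 → ℕ) i := by
    intro i
    fin_cases i
    · exact Nat.mul_pos he ha
    · exact Nat.mul_pos he hb
    · exact Nat.mul_pos he hc
    · exact Nat.mul_pos he hd
  have key : ∀ x : Fin 4 → ℤ,
      ∑ i, ((![e * a, e * b, e * c, e * d] : Fin 4 → ℕ) i : ℤ) * x i ^ 2 =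
      e * (a * x 0 ^ 2 + b * x 1 ^ 2 + (c * x 2 ^ 2 + d * x 3 ^ 2)) := by
    intro x
    rw [Fin.sum_univ_four]
    simp only [Matrix.cons_val_zero, Matrix.cons_val_one, Matrix.cons_val]
    push_cast
    ring
  by_cases h2 : ℓ = 2
  · subst h2
    obtain ⟨x, hx⟩ := good_two _ hB
    rw [key] at hx
    exact ⟨x 0, x 1, x 2, x 3, hx⟩
  · obtain ⟨x, hx⟩ := good_odd hℓ h2 _ hB
    rw [key] at hx
    exact ⟨x 0, x 1, x 2, x 3, hx⟩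

private theorem mod_of_dvd {p D k : ℕ} (h : p % D = 1) (hk : k ∣ D) (h1 : 1 < k) : p % k = 1 := by
  rw [← Nat.mod_mod_of_dvd p hk, h, Nat.mod_eq_of_lt h1]

theorem meyer {a b c d e : ℕ} (ha : 0 < a) (hb : 0 < b) (hc : 0 < c) (hd : 0 < d) (he : 0 < e) :
    ∃ y₀ y₁ y₂ y₃ y₄ : ℤ, y₄ ≠ 0 ∧
      (a : ℤ) * y₀ ^ 2 + b * y₁ ^ 2 + c * y₂ ^ 2 + d * y₃ ^ 2 = e * y₄ ^ 2 := by
  classical
  have hT : 2 * a * b * c * d * e ≠ 0 := by positivity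
  obtain ⟨S, hSdef⟩ : ∃ S : Finset ℕ, S = (2 * a * b * c * d * e).primeFactors := ⟨_, rfl⟩
  have hS : ∀ ℓ ∈ S, ℓ.Prime := by
    intro ℓ h
    rw [hSdef] at h
    exact Nat.prime_of_mem_primeFactors h
  have hmem : ∀ ℓ : ℕ, ℓ.Prime → ℓ ∣ 2 * a * b * c * d * e → ℓ ∈ S := by
    intro ℓ h1 h2
    rw [hSdef]
    exact Nat.mem_primeFactors.2 ⟨h1, h2, hT⟩
  have h2S : 2 ∈ S := hmem 2 Nat.prime_two ⟨a * b * c * d * e, by ring⟩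
  have haS : ∀ ℓ : ℕ, ℓ.Prime → ℓ ∣ a → ℓ ∈ S := fun ℓ h1 h2 =>
    hmem ℓ h1 (h2.trans ⟨2 * b * c * d * e, by ring⟩)
  have hbS : ∀ ℓ : ℕ, ℓ.Prime → ℓ ∣ b → ℓ ∈ S := fun ℓ h1 h2 =>
    hmem ℓ h1 (h2.trans ⟨2 * a * c * d * e, by ring⟩)
  have hcS : ∀ ℓ : ℕ, ℓ.Prime → ℓ ∣ c → ℓ ∈ S := fun ℓ h1 h2 =>
    hmem ℓ h1 (h2.trans ⟨2 * a * b * d * e, by ring⟩)
  have hdS : ∀ ℓ : ℕ, ℓ.Prime → ℓ ∣ d → ℓ ∈ S := fun ℓ h1 h2 =>
    hmem ℓ h1 (h2.trans ⟨2 * a * b * c * e, by ring⟩)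
  have heS : ∀ ℓ : ℕ, ℓ.Prime → ℓ ∣ e → ℓ ∈ S := fun ℓ h1 h2 =>
    hmem ℓ h1 (h2.trans ⟨2 * a * b * c * d, by ring⟩)
  obtain ⟨x, y, z, t, hx, hz, hgood, hcop⟩ := exists_global ha hb hc hd he S hS hcS
    (fun ℓ h => loc_all ha hb hc hd he (hS ℓ h))
  obtain ⟨s₁, hs₁def⟩ : ∃ s₁ : ℤ, s₁ = a * x ^ 2 + b * y ^ 2 := ⟨_, rfl⟩
  obtain ⟨s₂, hs₂def⟩ : ∃ s₂ : ℤ, s₂ = c * z ^ 2 + d * t ^ 2 := ⟨_, rfl⟩
  rw [← hs₁def, ← hs₂def] at hgood hcop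
  have haZ : (0 : ℤ) < a := by exact_mod_cast ha
  have hbZ : (0 : ℤ) < b := by exact_mod_cast hb
  have hcZ : (0 : ℤ) < c := by exact_mod_cast hc
  have hdZ : (0 : ℤ) < d := by exact_mod_cast hd
  have heZ : (0 : ℤ) < e := by exact_mod_cast he
  have hs₁ : 0 < s₁ := by
    rw [hs₁def]
    have h1 : 0 < (a : ℤ) * x ^ 2 := by positivity
    have h2 : 0 ≤ (b : ℤ) * y ^ 2 := by positivity
    linarith
  have hs₂ : 0 < s₂ := by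
    rw [hs₂def]
    have h1 : 0 < (c : ℤ) * z ^ 2 := by positivity
    have h2 : 0 ≤ (d : ℤ) * t ^ 2 := by positivity
    linarith
  have hN : 0 < (e : ℤ) * (s₁ + s₂) := by positivity
  obtain ⟨m, n₀, hm, hn₀, hNm, hpeel⟩ := good_peel S hS hN hgood
  obtain ⟨n, rfl⟩ := Int.eq_ofNat_of_zero_le hn₀.le
  have hn : 0 < n := by exact_mod_cast hn₀
  obtain ⟨t1, ht1⟩ := Int.eq_ofNat_of_zero_le (show (0 : ℤ) ≤ e * s₁ by positivity)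
  obtain ⟨t2, ht2⟩ := Int.eq_ofNat_of_zero_le (show (0 : ℤ) ≤ e * s₂ by positivity)
  have ht1p : 0 < t1 := by
    have h1 : (0 : ℤ) < t1 := by
      rw [← ht1]
      positivity
    exact_mod_cast h1
  have ht2p : 0 < t2 := by
    have h1 : (0 : ℤ) < t2 := by
      rw [← ht2]
      positivity
    exact_mod_cast h1
  obtain ⟨κ₁, r₁, e1, hκ₁, hr₁, hκ₁S, hr₁S⟩ := exists_split S hS ht1p
  obtain ⟨κ₂, r₂, e2, hκ₂, hr₂, hκ₂S, hr₂S⟩ := exists_split S hS ht2p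
  have es₁ : (e : ℤ) * s₁ = κ₁ * r₁ := by
    rw [ht1, e1]
    push_cast
    ring
  have es₂ : (e : ℤ) * s₂ = κ₂ * r₂ := by
    rw [ht2, e2]
    push_cast
    ring
  obtain ⟨D, hDdef⟩ : ∃ D : ℕ, D = 8 * κ₁ * κ₂ * (a * b) * (c * d) := ⟨_, rfl⟩
  have hDpos : 0 < D := by
    rw [hDdef]
    positivity
  have hDS : ∀ ℓ : ℕ, ℓ.Prime → ℓ ∣ D → ℓ ∈ S := by
    intro ℓ hℓ h
    rw [hDdef] at h
    rcases hℓ.dvd_mul.1 h with h | h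
    · rcases hℓ.dvd_mul.1 h with h | h
      · rcases hℓ.dvd_mul.1 h with h | h
        · rcases hℓ.dvd_mul.1 h with h | h
          · have h8 : (8 : ℕ) = 2 ^ 3 := by norm_num
            rw [h8] at h
            have h3 := hℓ.dvd_of_dvd_pow h
            have h4 := (Nat.prime_dvd_prime_iff_eq hℓ Nat.prime_two).1 h3
            rw [h4]
            exact h2S
          · exact hκ₁S ℓ hℓ h
        · exact hκ₂S ℓ hℓ h
      · rcases hℓ.dvd_mul.1 h with h | h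
        · exact haS ℓ hℓ h
        · exact hbS ℓ hℓ h
    · rcases hℓ.dvd_mul.1 h with h | h
      · exact hcS ℓ hℓ h
      · exact hdS ℓ hℓ h
  have hnS : ∀ ℓ ∈ S, ¬ ℓ ∣ n := by
    intro ℓ h1 h2
    exact (hpeel ℓ h1).1 (by exact_mod_cast h2)
  have hDr₁ : D.Coprime r₁ := coprime_split hDS hr₁S
  have hDr₂ : D.Coprime r₂ := coprime_split hDS hr₂S
  have hDn : D.Coprime n := coprime_split hDS hnS
  have hn8 : n % 8 = 1 := by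
    have h1 := (good_coprime Nat.prime_two (hpeel 2 h2S).2 (hpeel 2 h2S).1).1 rfl
    omega
  -- a common prime factor outside of `S`
  have hprime : ∀ ℓ : ℕ, ℓ.Prime → ℓ ∉ S → (ℓ : ℤ) ∣ e * s₁ → (ℓ : ℤ) ∣ e * s₂ → False := by
    intro ℓ hℓ hS' h1 h2
    have hp : Prime (ℓ : ℤ) := Nat.prime_iff_prime_int.1 hℓ
    have hne : ¬ (ℓ : ℤ) ∣ e := fun h => hS' (heS ℓ hℓ (by exact_mod_cast h))
    have h3 : (ℓ : ℤ) ∣ s₁ := (hp.dvd_or_dvd h1).resolve_left hne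
    have h4 : (ℓ : ℤ) ∣ s₂ := (hp.dvd_or_dvd h2).resolve_left hne
    exact hcop ℓ hℓ hS' h3 h4
  have hnN : (n : ℤ) ∣ e * s₁ + e * s₂ := by
    have h1 : (e : ℤ) * s₁ + e * s₂ = m ^ 2 * n := by
      rw [← hNm]
      ring
    rw [h1]
    exact Dvd.intro_left _ rfl
  have hr₁n : r₁.Coprime n := by
    apply Nat.coprime_of_dvd
    intro ℓ hℓ h1 h2
    have hS' : ℓ ∉ S := fun h => hr₁S ℓ h h1
    have h3 : (ℓ : ℤ) ∣ e * s₁ := by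
      rw [es₁]
      exact (Int.natCast_dvd_natCast.2 h1).trans (Dvd.intro_left _ rfl)
    have h4 : (ℓ : ℤ) ∣ e * s₁ + e * s₂ := (Int.natCast_dvd_natCast.2 h2).trans hnN
    exact hprime ℓ hℓ hS' h3 ((dvd_add_right h3).1 h4)
  have hr₂n : r₂.Coprime n := by
    apply Nat.coprime_of_dvd
    intro ℓ hℓ h1 h2
    have hS' : ℓ ∉ S := fun h => hr₂S ℓ h h1
    have h3 : (ℓ : ℤ) ∣ e * s₂ := by
      rw [es₂]
      exact (Int.natCast_dvd_natCast.2 h1).trans (Dvd.intro_left _ rfl)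
    have h4 : (ℓ : ℤ) ∣ e * s₁ + e * s₂ := (Int.natCast_dvd_natCast.2 h2).trans hnN
    exact hprime ℓ hℓ hS' ((dvd_add_left h3).1 h4) h3
  have hD1 : 8 * κ₁ * κ₂ ∣ D := by
    rw [hDdef]
    exact ⟨a * b * (c * d), by ring⟩
  have hD2 : 8 * (a * b) ∣ D := by
    rw [hDdef]
    exact ⟨κ₁ * κ₂ * (c * d), by ring⟩
  have hD3 : 8 * (c * d) ∣ D := by
    rw [hDdef]
    exact ⟨κ₁ * κ₂ * (a * b), by ring⟩
  have hD8 : 8 ∣ D := (Dvd.intro _ rfl : 8 ∣ 8 * (a * b)).trans hD2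
  have hq : ∃ q : ℤ, ((8 * κ₁ * κ₂ : ℕ) : ℤ) ∣ q ^ 2 - n := by
    apply exists_sqrt_mod (by positivity)
    intro ℓ hℓ h
    exact hpeel ℓ (hDS ℓ hℓ (h.trans hD1))
  have hsum : (n : ℤ) ∣ κ₁ * r₁ + κ₂ * r₂ := by
    rw [← es₁, ← es₂]
    exact hnN
  have hg : IsCoprime ((κ₁ * r₁ : ℤ)) (n : ℤ) := by
    apply IsCoprime.mul_left
    · have h0 : κ₁ ∣ 8 * κ₁ * κ₂ := Dvd.intro (8 * κ₂) (by ring)
      have h1 : κ₁.Coprime n := Nat.Coprime.coprime_dvd_left (dvd_trans h0 hD1) hDn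
      exact Nat.isCoprime_iff_coprime.2 h1
    · exact Nat.isCoprime_iff_coprime.2 hr₁n
  obtain ⟨p₁, p₂, hp₁, hp₂, hne, hp₁D, hp₂D, h1, h2, h3, h4, h5⟩ :=
    exists_primes hDpos hD8 hr₁ hr₂ hn hDr₁ hDr₂ hDn hr₁n hr₂n hg
  obtain ⟨l1, l2, l3⟩ := three_eqs hκ₁ hκ₂ hr₁ hr₂ hD1 hDr₁ hDr₂ hDn hr₁n hr₂n hn8 hq hsum hp₁ hp₂
    hne hp₁D hp₂D h1 h2 h3 h4 h5
  have hab : 0 < a * b := Nat.mul_pos ha hb
  have hcd : 0 < c * d := Nat.mul_pos hc hd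
  have l4 := prime_norm hab hp₁ (mod_of_dvd hp₁D hD2 (by omega))
  have l5 := prime_norm hcd hp₂ (mod_of_dvd hp₂D hD3 (by omega))
  push_cast at l4 l5
  rw [← es₁] at l1
  rw [← es₂] at l2
  exact combine haZ hbZ hcZ hdZ heZ hs₁ hs₂ hm (by exact_mod_cast hn)
    (by exact_mod_cast hp₁.pos) (by exact_mod_cast hp₂.pos) hs₁def hs₂def hNm l1 l2 l3 l4 l5

end Pool.Agent.Work.MP_f6469e_gt.Mir
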