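import Pool.Agent.Work.MP_f6469e_gt.Mir.Sys
import Pool.Agent.Work.MP_f6469e_gt.Mir.Mey

/-!
# Mir/IsoN (size M): cusps in faces of dimension at least four

Enumerate `T` (`T.equivFin.symm`) as `s : Fin k → _`, `k = T.card`. `exists_neg`: `z`; `exists_pos_system` with `r = 4` for the system
`s, z` (`k + 1 + 4 ≤ n + 1`): `w : Fin 4 → _`. `L (w i) (w i) = a i > 0` and `-L z z = e > 0` are integers; `meyer` gives
`∑ a i (y i)² = e (y₄)²`, `y₄ ≠ 0`; `u = ∑ y i w i + y₄ z ∈ Λ` has `L u u = 0` and `u ≠ 0` (`L u z = y₄ L z z ≠ 0`). Then `u 0 ≠ 0` (a null vector with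
`u 0 = 0` is zero); take `u` or `-u`.
-/

set_option autoImplicit false

namespace Pool.Agent.Work.MP_f6469e_gt.Mir

open Pool.Agent.Work.MP_f6469e_gt

theorem exists_cusp {n : ℕ} {Λ : AddSubgroup (Fin (n + 1) → ℝ)} (hΛ : IntLat n Λ)
    (T : Finset (Fin (n + 1) → ℝ)) (hT : ∀ t ∈ T, t ∈ Λ ∧ 0 < L n t t)
    (ho : ∀ s ∈ T, ∀ t ∈ T, s ≠ t → L n s t = 0) (hc : T.card + 4 ≤ n) :
    ∃ u ∈ Λ, 0 < u 0 ∧ L n u u = 0 ∧ ∀ t ∈ T, L n u t = 0 := by
  let s : Fin T.card → (Fin (n + 1) → ℝ) := fun i => (T.equivFin.symm i : Fin (n + 1) → ℝ)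
  have hsT : ∀ i, s i ∈ T := fun i => (T.equivFin.symm i).2
  have hsinj : ∀ i j, i ≠ j → s i ≠ s j := by
    intro i j hij h
    apply hij
    exact T.equivFin.symm.injective (Subtype.ext h)
  have hso : ∀ i j, i ≠ j → L n (s i) (s j) = 0 := fun i j hij =>
    ho _ (hsT i) _ (hsT j) (hsinj i j hij)
  obtain ⟨z, hz1, hz2, hz3⟩ := exists_neg hΛ (k := T.card) (by omega) s
    (fun i => (hT _ (hsT i)).1) (fun i => (hT _ (hsT i)).2) hso
  obtain ⟨w, hw1, hw2, hw3, hw4⟩ := exists_pos_system hΛ (k := T.card + 1) 4 (by omega)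
    (Fin.cons z s)
    (by
      intro i
      refine Fin.cases ?_ (fun i => ?_) i
      · rw [Fin.cons_zero]; exact hz1
      · rw [Fin.cons_succ]; exact (hT _ (hsT i)).1)
    (by
      intro i
      refine Fin.cases ?_ (fun i => ?_) i
      · rw [Fin.cons_zero]; exact hz3.ne
      · rw [Fin.cons_succ]; exact (hT _ (hsT i)).2.ne')
    (by
      intro i j
      refine Fin.cases ?_ (fun i => ?_) i
      · refine Fin.cases ?_ (fun j => ?_) j
        · intro h; exact absurd rfl h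
        · intro _
          rw [Fin.cons_zero, Fin.cons_succ]
          exact hz2 j
      · refine Fin.cases ?_ (fun j => ?_) j
        · intro _
          rw [Fin.cons_zero, Fin.cons_succ, L_comm]
          exact hz2 i
        · intro hij
          rw [Fin.cons_succ, Fin.cons_succ]
          exact hso i j fun h => hij (by rw [h])) (i₀ := 0)
    (by rw [Fin.cons_zero]; exact hz3)
  have hwz : ∀ i, L n (w i) z = 0 := by
    intro i
    have h1 := hw2 i 0
    rwa [Fin.cons_zero] at h1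
  have hws : ∀ i j, L n (w i) (s j) = 0 := by
    intro i j
    have h1 := hw2 i j.succ
    rwa [Fin.cons_succ] at h1
  -- the integers
  have hnat : ∀ x ∈ Λ, 0 < L n x x → ∃ m : ℕ, 0 < m ∧ L n x x = m := by
    intro x hx hpos
    obtain ⟨m, hm⟩ := hΛ.int x hx x hx
    rw [hm] at hpos
    have h1 : 0 < m := by exact_mod_cast hpos
    refine ⟨m.toNat, by omega, ?_⟩
    rw [hm]
    have h2 : ((m.toNat : ℕ) : ℤ) = m := by omega
    exact_mod_cast h2.symm
  obtain ⟨a, ha, ha'⟩ := hnat _ (hw1 0) (hw4 0)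
  obtain ⟨b, hb, hb'⟩ := hnat _ (hw1 1) (hw4 1)
  obtain ⟨c, hc0, hc'⟩ := hnat _ (hw1 2) (hw4 2)
  obtain ⟨d, hd, hd'⟩ := hnat _ (hw1 3) (hw4 3)
  obtain ⟨e, he, he'⟩ : ∃ e : ℕ, 0 < e ∧ L n z z = -(e : ℝ) := by
    obtain ⟨m, hm⟩ := hΛ.int z hz1 z hz1
    rw [hm] at hz3
    have h1 : m < 0 := by exact_mod_cast hz3
    refine ⟨(-m).toNat, by omega, ?_⟩
    rw [hm]
    have h2 : m = -(((-m).toNat : ℕ) : ℤ) := by omega
    exact_mod_cast h2
  obtain ⟨y0, y1, y2, y3, y4, hy4, hy⟩ := meyer ha hb hc0 hd he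
  have hyR : (a : ℝ) * (y0 : ℝ) ^ 2 + b * (y1 : ℝ) ^ 2 + c * (y2 : ℝ) ^ 2 + d * (y3 : ℝ) ^ 2 =
      e * (y4 : ℝ) ^ 2 := by exact_mod_cast hy
  obtain ⟨u, hu⟩ : ∃ u : Fin (n + 1) → ℝ, u = (y0 : ℝ) • w 0 + (y1 : ℝ) • w 1 + (y2 : ℝ) • w 2 +
      (y3 : ℝ) • w 3 + (y4 : ℝ) • z := ⟨_, rfl⟩
  have hmem : ∀ (m : ℤ) (x : Fin (n + 1) → ℝ), x ∈ Λ → (m : ℝ) • x ∈ Λ := by
    intro m x hx
    have h1 : (m : ℝ) • x = m • x := by
      rw [Int.cast_smul_eq_zsmul]
    rw [h1]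
    exact Λ.zsmul_mem hx m
  have huΛ : u ∈ Λ := by
    rw [hu]
    exact Λ.add_mem (Λ.add_mem (Λ.add_mem (Λ.add_mem (hmem _ _ (hw1 0)) (hmem _ _ (hw1 1)))
      (hmem _ _ (hw1 2))) (hmem _ _ (hw1 3))) (hmem _ _ hz1)
  have huz : L n u z = (y4 : ℝ) * L n z z := by
    rw [hu]
    simp only [L_add_left, L_smul_left, hwz]
    ring
  have huw : ∀ i, L n u (w i) = (y0 : ℝ) * L n (w 0) (w i) + (y1 : ℝ) * L n (w 1) (w i) +
      (y2 : ℝ) * L n (w 2) (w i) + (y3 : ℝ) * L n (w 3) (w i) := by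
    intro i
    rw [hu]
    simp only [L_add_left, L_smul_left]
    rw [L_comm z (w i), hwz]
    ring
  have h0 : L n u (w 0) = y0 * a := by
    rw [huw, hw3 1 0 (by decide), hw3 2 0 (by decide), hw3 3 0 (by decide), ha']
    ring
  have h1 : L n u (w 1) = y1 * b := by
    rw [huw, hw3 0 1 (by decide), hw3 2 1 (by decide), hw3 3 1 (by decide), hb']
    ring
  have h2 : L n u (w 2) = y2 * c := by
    rw [huw, hw3 0 2 (by decide), hw3 1 2 (by decide), hw3 3 2 (by decide), hc']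
    ring
  have h3 : L n u (w 3) = y3 * d := by
    rw [huw, hw3 0 3 (by decide), hw3 1 3 (by decide), hw3 2 3 (by decide), hd']
    ring
  have huu : L n u u = 0 := by
    have h4 : L n u u = (y0 : ℝ) * L n u (w 0) + (y1 : ℝ) * L n u (w 1) + (y2 : ℝ) * L n u (w 2) +
        (y3 : ℝ) * L n u (w 3) + (y4 : ℝ) * L n u z := by
      conv_lhs => arg 3; rw [hu]
      simp only [L_add_right, L_smul_right]
    rw [h4, h0, h1, h2, h3, huz, he']
    linear_combination hyR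
  have hus : ∀ t ∈ T, L n u t = 0 := by
    intro t ht
    obtain ⟨j, hj⟩ : ∃ j, s j = t := by
      refine ⟨T.equivFin ⟨t, ht⟩, ?_⟩
      show ((T.equivFin.symm (T.equivFin ⟨t, ht⟩) : T) : Fin (n + 1) → ℝ) = t
      rw [Equiv.symm_apply_apply]
    rw [← hj, hu]
    simp only [L_add_left, L_smul_left, hws, hz2]
    ring
  have hune : u ≠ 0 := by
    intro h
    rw [h, L_zero_left, he'] at huz
    have h5 : (y4 : ℝ) ≠ 0 := by exact_mod_cast hy4
    have h6 : (e : ℝ) ≠ 0 := by exact_mod_cast he.ne'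
    exact mul_ne_zero h5 (neg_ne_zero.2 h6) huz.symm
  have hu0 : u 0 ≠ 0 := by
    intro h
    apply hune
    have h5 : ∑ i : Fin n, u i.succ * u i.succ = 0 := by
      unfold L at huu
      rw [h] at huu
      linarith
    rw [Finset.sum_eq_zero_iff_of_nonneg (fun i _ => mul_self_nonneg _)] at h5
    funext i
    refine Fin.cases h (fun j => ?_) i
    exact mul_self_eq_zero.mp (h5 j (Finset.mem_univ _))
  rcases lt_or_gt_of_ne hu0 with h5 | h5
  · refine ⟨-u, Λ.neg_mem huΛ, ?_, ?_, ?_⟩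
    · rw [Pi.neg_apply]
      linarith
    · have : -u = (-1 : ℝ) • u := by rw [neg_one_smul]
      rw [this, L_smul_left, L_smul_right, huu]
      ring
    · intro t ht
      have : -u = (-1 : ℝ) • u := by rw [neg_one_smul]
      rw [this, L_smul_left, hus t ht]
      ring
  · exact ⟨u, huΛ, h5, huu, hus⟩

end Pool.Agent.Work.MP_f6469e_gt.Mir
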