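import Pool.Agent.Work.MP_f6469e_gt.Mir.Jac

/-!
# Mir/JacC (size M): three Jacobi symbols

`p₁`, `p₂` are `1` mod `8`, mod `8 κ₁`, mod `8 κ₂` (`8 κ₁ κ₂ ∣ D`); `n₀` is `1` mod `8`; `r₁`, `r₂`, `n₀` are odd (prime to `D`).
Facts: `J(κ₁ | p₂) = J(κ₂ | p₁) = 1` (`jac_of_mod`); `J(κ₁ | n₀) = J(κ₂ | n₀) = 1` (`jac_sq`, `8 κ₁ ∣ q² - n₀`);
`J(r₁ | n₀)² = J(r₂ | n₀)² = 1` (coprime).
* `J(r₁ | p₂) = J(p₂ | r₁) = J(n₀ | r₁) = J(r₁ | n₀)`; `J(n₀ | p₂) = J(p₂ | n₀) = J(-κ₁ r₁ | n₀) = J(κ₁ r₁ | n₀) = J(r₁ | n₀)`.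
  So `J(κ₁ r₁ n₀ | p₂) = 1`.
* `J(r₂ | p₁) = J(p₁ | r₂) = J(n₀ | r₂) = J(r₂ | n₀)`; `J(n₀ | p₁) = J(p₁ | n₀) = J(κ₁ r₁ | n₀) = J(-κ₂ r₂ | n₀) = J(κ₂ r₂ | n₀) = J(r₂ | n₀)`.
  So `J(κ₂ r₂ n₀ | p₁) = 1`.
* `J(p₁ | p₂) = J(p₂ | p₁) = J(n₀ | p₁) = J(p₁ | n₀) = J(κ₁ r₁ | n₀)`, `J(n₀ | p₂) = J(κ₁ r₁ | n₀)`. So `J(p₁ n₀ | p₂) = 1`.
(`jac_rec`, `jac_mod`, `jac_neg`, `jacobiSym.mul_left`.)
-/

set_option autoImplicit false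

namespace Pool.Agent.Work.MP_f6469e_gt.Mir

open Pool.Agent.Work.MP_f6469e_gt

private theorem jc_mod {D p m : ℕ} (hm : 0 < m) (h : 8 * m ∣ D) (hp : p % D = 1) :
    p % (8 * m) = 1 := by
  have h1 : p ≡ 1 [MOD D] := by
    have h2 : 1 % D = 1 := by
      rcases Nat.eq_zero_or_pos D with h3 | h3
      · rw [h3]
      · apply Nat.mod_eq_of_lt
        have := Nat.le_of_dvd h3 h
        omega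
    rw [Nat.ModEq, hp, h2]
  have h4 := h1.of_dvd h
  rw [Nat.ModEq] at h4
  rw [h4]
  apply Nat.mod_eq_of_lt
  omega

private theorem jc_odd {D r : ℕ} (h : D.Coprime r) (h2 : 2 ∣ D) : r % 2 = 1 := by
  by_contra hcon
  have h3 : 2 ∣ r := by omega
  have h4 := Nat.dvd_gcd h2 h3
  rw [h] at h4
  omega

private theorem jc_sq {r n : ℕ} (h : r.Coprime n) : jacobiSym r n * jacobiSym r n = 1 := by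
  have h1 : jacobiSym r n ^ 2 = 1 := by
    apply jacobiSym.sq_one
    rw [Int.gcd_natCast_natCast]
    exact h
  rwa [sq] at h1

theorem jac_three {κ₁ r₁ κ₂ r₂ n₀ D p₁ p₂ : ℕ} (hκ₁ : 0 < κ₁) (hκ₂ : 0 < κ₂) (hr₁ : 0 < r₁)
    (hr₂ : 0 < r₂) (hD : 8 * κ₁ * κ₂ ∣ D) (hDr₁ : D.Coprime r₁) (hDr₂ : D.Coprime r₂)
    (hDn : D.Coprime n₀) (hr₁n : r₁.Coprime n₀) (hr₂n : r₂.Coprime n₀) (hn8 : n₀ % 8 = 1)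
    (hq : ∃ q : ℤ, ((8 * κ₁ * κ₂ : ℕ) : ℤ) ∣ q ^ 2 - n₀)
    (hsum : (n₀ : ℤ) ∣ κ₁ * r₁ + κ₂ * r₂) (hp₁ : p₁.Prime) (hp₂ : p₂.Prime)
    (hp₁D : p₁ % D = 1) (hp₂D : p₂ % D = 1) (h1 : (r₂ : ℤ) ∣ p₁ - n₀)
    (h2 : (n₀ : ℤ) ∣ p₁ - κ₁ * r₁) (h3 : (r₁ : ℤ) ∣ p₂ - n₀) (h4 : (n₀ : ℤ) ∣ p₂ + κ₁ * r₁)
    (h5 : (p₁ : ℤ) ∣ p₂ - n₀) :
    jacobiSym (κ₁ * r₁ * n₀) p₂ = 1 ∧ jacobiSym (κ₂ * r₂ * n₀) p₁ = 1 ∧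
      jacobiSym (p₁ * n₀) p₂ = 1 := by
  obtain ⟨q, hq⟩ := hq
  have hD1 : 8 * κ₁ ∣ D := (Dvd.intro _ rfl).trans hD
  have hD2 : 8 * κ₂ ∣ D := by
    refine Dvd.dvd.trans ?_ hD
    exact ⟨κ₁, by ring⟩
  have h2D : 2 ∣ D := (Dvd.intro _ (by ring : 2 * (4 * κ₁) = 8 * κ₁)).trans hD1
  have hκ₁D : κ₁ ∣ D := (Dvd.intro_left _ rfl).trans hD1
  have hκ₂D : κ₂ ∣ D := (Dvd.intro_left _ rfl).trans hD2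
  have m1 := jc_mod hκ₁ hD1 hp₁D
  have m2 := jc_mod hκ₂ hD2 hp₁D
  have m3 := jc_mod hκ₁ hD1 hp₂D
  have o1 := jc_odd hDr₁ h2D
  have o2 := jc_odd hDr₂ h2D
  have p14 : p₁ % 4 = 1 := by
    have h6 := jc_mod (m := 1) one_pos ((Dvd.intro _ (by ring : 8 * 1 * κ₁ = 8 * κ₁)).trans hD1) hp₁D
    omega
  have p24 : p₂ % 4 = 1 := by
    have h6 := jc_mod (m := 1) one_pos ((Dvd.intro _ (by ring : 8 * 1 * κ₁ = 8 * κ₁)).trans hD1) hp₂D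
    omega
  have n4 : n₀ % 4 = 1 := by omega
  -- the symbols
  have a1 : jacobiSym κ₁ p₂ = 1 := jac_of_mod hκ₁ m3
  have a2 : jacobiSym κ₂ p₁ = 1 := jac_of_mod hκ₂ m2
  have a3 : jacobiSym κ₁ n₀ = 1 := by
    refine jac_sq hκ₁ hn8 (Nat.Coprime.coprime_dvd_left hκ₁D hDn) (q := q) (Dvd.dvd.trans ?_ hq)
    exact ⟨κ₂, by push_cast; ring⟩
  have a4 : jacobiSym κ₂ n₀ = 1 := by
    refine jac_sq hκ₂ hn8 (Nat.Coprime.coprime_dvd_left hκ₂D hDn) (q := q) (Dvd.dvd.trans ?_ hq)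
    exact ⟨κ₁, by push_cast; ring⟩
  have e1 := jc_sq hr₁n
  have e2 := jc_sq hr₂n
  have b1 : jacobiSym r₁ p₂ = jacobiSym r₁ n₀ := by
    rw [jac_rec o1 p24, jac_mod h3, jac_rec o1 n4]
  have g1 : jacobiSym ((κ₁ : ℤ) * r₁) n₀ = jacobiSym r₁ n₀ := by
    rw [jacobiSym.mul_left, a3, one_mul]
  have g2 : jacobiSym ((κ₂ : ℤ) * r₂) n₀ = jacobiSym r₂ n₀ := by
    rw [jacobiSym.mul_left, a4, one_mul]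
  have b2 : jacobiSym n₀ p₂ = jacobiSym r₁ n₀ := by
    rw [jac_rec (by omega) p24, jac_mod (b := -((κ₁ : ℤ) * r₁)) (by rw [sub_neg_eq_add]; exact h4),
      jac_neg n4, g1]
  have b3 : jacobiSym r₂ p₁ = jacobiSym r₂ n₀ := by
    rw [jac_rec o2 p14, jac_mod h1, jac_rec o2 n4]
  have b4 : jacobiSym p₁ n₀ = jacobiSym r₁ n₀ := by
    rw [jac_mod h2, g1]
  have b5 : jacobiSym p₁ n₀ = jacobiSym r₂ n₀ := by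
    rw [jac_mod h2, jac_mod (b := -((κ₂ : ℤ) * r₂)) (by rw [sub_neg_eq_add]; exact hsum),
      jac_neg n4, g2]
  have b6 : jacobiSym n₀ p₁ = jacobiSym p₁ n₀ := jac_rec (by omega) p14
  have b7 : jacobiSym p₁ p₂ = jacobiSym p₁ n₀ := by
    rw [jac_rec (by omega) p24, jac_mod h5, b6]
  refine ⟨?_, ?_, ?_⟩
  · rw [jacobiSym.mul_left, jacobiSym.mul_left, a1, b1, b2, one_mul, e1]
  · rw [jacobiSym.mul_left, jacobiSym.mul_left, a2, b3, b6, b5, one_mul, e2]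
  · rw [jacobiSym.mul_left, b7, b4, b2, e1]

end Pool.Agent.Work.MP_f6469e_gt.Mir
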