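import Pool.Agent.Work.MP_f6469e_gt.Mir.Defs

/-!
# Mir/LegP (size M): the box principle for the equation of Legendre

Pigeonhole. `X = Nat.sqrt (b * c)`, `Y = Nat.sqrt (c * a)`, `Z = Nat.sqrt (a * b)`. The map
`(x, y, z) ↦ (a x - s y mod c, b y - t z mod a, a x - r z mod b)` from the triples `0 ≤ x ≤ X`, `0 ≤ y ≤ Y`, `0 ≤ z ≤ Z` to
`ZMod c × ZMod a × ZMod b` is not injective, since `(X + 1) (Y + 1) (Z + 1) > a b c`: the squares satisfy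
`(X + 1)² > b c` etc. (`Nat.lt_succ_sqrt'`), so the square of the product is `> (a b c)²`. The difference of two triples with the
same image has `|x| ≤ X`, so `x² ≤ X² ≤ b c`, etc. (`Nat.sqrt_le'`). `Fintype.exists_ne_map_eq_of_card_lt`,
`ZMod.intCast_zmod_eq_zero_iff_dvd`-type lemmas.
-/

set_option autoImplicit false

namespace Pool.Agent.Work.MP_f6469e_gt.Mir

open Pool.Agent.Work.MP_f6469e_gt

theorem legendre_box {a b c : ℕ} (ha : 0 < a) (hb : 0 < b) (hc : 0 < c) (s t r : ℤ) :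
    ∃ x y z : ℤ, (x ≠ 0 ∨ y ≠ 0 ∨ z ≠ 0) ∧ x ^ 2 ≤ b * c ∧ y ^ 2 ≤ c * a ∧ z ^ 2 ≤ a * b ∧
      (c : ℤ) ∣ a * x - s * y ∧ (a : ℤ) ∣ b * y - t * z ∧ (b : ℤ) ∣ a * x - r * z := by
  have := NeZero.mk ha.ne'
  have := NeZero.mk hb.ne'
  have := NeZero.mk hc.ne'
  obtain ⟨X, hX⟩ : ∃ X, X = Nat.sqrt (b * c) := ⟨_, rfl⟩
  obtain ⟨Y, hY⟩ : ∃ Y, Y = Nat.sqrt (c * a) := ⟨_, rfl⟩
  obtain ⟨Z, hZ⟩ : ∃ Z, Z = Nat.sqrt (a * b) := ⟨_, rfl⟩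
  have hX1 : X ^ 2 ≤ b * c := by rw [hX]; exact Nat.sqrt_le' _
  have hY1 : Y ^ 2 ≤ c * a := by rw [hY]; exact Nat.sqrt_le' _
  have hZ1 : Z ^ 2 ≤ a * b := by rw [hZ]; exact Nat.sqrt_le' _
  have hX2 : b * c < (X + 1) ^ 2 := by rw [hX]; exact Nat.lt_succ_sqrt' _
  have hY2 : c * a < (Y + 1) ^ 2 := by rw [hY]; exact Nat.lt_succ_sqrt' _
  have hZ2 : a * b < (Z + 1) ^ 2 := by rw [hZ]; exact Nat.lt_succ_sqrt' _
  have hlt : c * (a * b) < (X + 1) * ((Y + 1) * (Z + 1)) := by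
    have h1 : (c * (a * b)) ^ 2 < ((X + 1) * ((Y + 1) * (Z + 1))) ^ 2 := by
      have h2 := Nat.mul_lt_mul'' hX2 (Nat.mul_lt_mul'' hY2 hZ2)
      calc (c * (a * b)) ^ 2 = b * c * (c * a * (a * b)) := by ring
        _ < (X + 1) ^ 2 * ((Y + 1) ^ 2 * (Z + 1) ^ 2) := h2
        _ = ((X + 1) * ((Y + 1) * (Z + 1))) ^ 2 := by ring
    exact lt_of_pow_lt_pow_left₀ 2 (Nat.zero_le _) h1
  obtain ⟨p, q, hpq, hf⟩ := Fintype.exists_ne_map_eq_of_card_lt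
    (fun p : Fin (X + 1) × Fin (Y + 1) × Fin (Z + 1) =>
      (((((a : ℤ) * (p.1 : ℕ) - s * (p.2.1 : ℕ) : ℤ) : ZMod c),
        (((b : ℤ) * (p.2.1 : ℕ) - t * (p.2.2 : ℕ) : ℤ) : ZMod a),
        (((a : ℤ) * (p.1 : ℕ) - r * (p.2.2 : ℕ) : ℤ) : ZMod b)) : ZMod c × ZMod a × ZMod b))
    (by simpa [Fintype.card_prod, ZMod.card] using hlt)
  simp only [Prod.mk.injEq, ZMod.intCast_eq_intCast_iff_dvd_sub] at hf
  obtain ⟨f1, f2, f3⟩ := hf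
  have bnd : ∀ (K B : ℕ) (i j : Fin (K + 1)), K ^ 2 ≤ B →
      (((i : ℕ) : ℤ) - ((j : ℕ) : ℤ)) ^ 2 ≤ B := by
    intro K B i j hK
    have hi := i.2
    have hj := j.2
    have h1 : (((i : ℕ) : ℤ) - ((j : ℕ) : ℤ)) ^ 2 ≤ (K : ℤ) ^ 2 := by
      apply sq_le_sq'
      · omega
      · omega
    exact h1.trans (by exact_mod_cast hK)
  refine ⟨((q.1 : ℕ) : ℤ) - ((p.1 : ℕ) : ℤ), ((q.2.1 : ℕ) : ℤ) - ((p.2.1 : ℕ) : ℤ),
    ((q.2.2 : ℕ) : ℤ) - ((p.2.2 : ℕ) : ℤ), ?_, ?_, ?_, ?_, ?_, ?_, ?_⟩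
  · by_contra h
    push Not at h
    apply hpq
    obtain ⟨h1, h2, h3⟩ := h
    refine Prod.ext (Fin.ext ?_) (Prod.ext (Fin.ext ?_) (Fin.ext ?_))
    · omega
    · omega
    · omega
  · exact_mod_cast bnd X (b * c) q.1 p.1 hX1
  · exact_mod_cast bnd Y (c * a) q.2.1 p.2.1 hY1
  · exact_mod_cast bnd Z (a * b) q.2.2 p.2.2 hZ1
  · refine (congrArg ((c : ℤ) ∣ ·) ?_).mp f1
    ring
  · refine (congrArg ((a : ℤ) ∣ ·) ?_).mp f2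
    ring
  · refine (congrArg ((b : ℤ) ∣ ·) ?_).mp f3
    ring

end Pool.Agent.Work.MP_f6469e_gt.Mir
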