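import Pool.Agent.Work.MP_f6469e_gt.Mir.Gd

/-!
# Mir/LocO (size M-L): a quaternary form represents a square, odd prime

Write `b i = ℓ^(2 e i) c i` with `c i = u i` or `c i = ℓ u i`, `ℓ ∤ u i` (`Nat.exists_eq_pow_mul_and_not_dvd`). With `E = ∑ e i` and
`x i = ℓ^(E - e i) y i` we get `∑ b i x i² = ℓ^(2 E) ∑ c i y i²`, so it suffices to find `y` with `Good ℓ (∑ c i y i²)`
(`Good ℓ M → Good ℓ (ℓ^(2E) M)` is clear). At least two of the `c i` are units, or at least three are `ℓ` times a unit.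
* two units `u`, `v` (places `i ≠ j`; other `y` zero): there are `y i`, `y j` with `u y i² + v y j² ≡ 1` mod `ℓ`
  (`FiniteField.exists_root_sum_quadratic`, as in `ZMod.sq_add_sq`); then `Good` with `j = 0`, `s = 1`.
* three places with `c = ℓ u, ℓ v, ℓ w`: first `x, y` with `u x² + v y² ≡ -w` mod `ℓ`, `u x² + v y² + w = ℓ c`; then `z = 1 + ℓ k` with
  `c + 2 w k ≡ 1` mod `ℓ`: `u x² + v y² + w z² ≡ ℓ` mod `ℓ²`, so the sum is `ℓ (ℓ + ℓ² d) = ℓ² (1 + ℓ d)`: `Good` with `j = 1`, `s = 1`.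
-/

set_option autoImplicit false

namespace Pool.Agent.Work.MP_f6469e_gt.Mir

open Pool.Agent.Work.MP_f6469e_gt

/-- a binary form represents everything modulo an odd prime. -/
private theorem two_sq {ℓ : ℕ} (hℓ : ℓ.Prime) (h2 : ℓ ≠ 2) {u v : ℤ} (hu : ¬ (ℓ : ℤ) ∣ u)
    (hv : ¬ (ℓ : ℤ) ∣ v) (w : ℤ) : ∃ x y : ℤ, (ℓ : ℤ) ∣ u * x ^ 2 + v * y ^ 2 - w := by
  classical
  have : Fact ℓ.Prime := ⟨hℓ⟩
  have hu' : (u : ZMod ℓ) ≠ 0 := by
    rw [Ne, ZMod.intCast_zmod_eq_zero_iff_dvd]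
    exact hu
  have hv' : (v : ZMod ℓ) ≠ 0 := by
    rw [Ne, ZMod.intCast_zmod_eq_zero_iff_dvd]
    exact hv
  have hodd : Fintype.card (ZMod ℓ) % 2 = 1 := by
    rw [ZMod.card]
    rcases hℓ.eq_two_or_odd with h | h
    · exact absurd h h2
    · exact h
  obtain ⟨a, b, hab⟩ := FiniteField.exists_root_sum_quadratic
    (f := Polynomial.C (u : ZMod ℓ) * Polynomial.X ^ 2)
    (g := Polynomial.C (v : ZMod ℓ) * Polynomial.X ^ 2 - Polynomial.C (w : ZMod ℓ))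
    (Polynomial.degree_C_mul_X_pow 2 hu')
    (by
      rw [Polynomial.degree_sub_C]
      · exact Polynomial.degree_C_mul_X_pow 2 hv'
      · rw [Polynomial.degree_C_mul_X_pow 2 hv']
        norm_num) hodd
  refine ⟨(a.val : ℤ), (b.val : ℤ), ?_⟩
  rw [← ZMod.intCast_zmod_eq_zero_iff_dvd]
  push_cast
  rw [ZMod.natCast_zmod_val, ZMod.natCast_zmod_val]
  simp only [Polynomial.eval_mul, Polynomial.eval_C, Polynomial.eval_pow, Polynomial.eval_X,
    Polynomial.eval_sub] at hab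
  rw [← hab]
  ring

private theorem good_one {ℓ : ℕ} (hℓ : ℓ.Prime) (h2 : ℓ ≠ 2) {M : ℤ} (h : (ℓ : ℤ) ∣ M - 1)
    (j : ℕ) : Good ℓ ((ℓ : ℤ) ^ (2 * j) * M) := by
  refine ⟨j, M, rfl, Or.inr ⟨h2, ?_, 1, ?_⟩⟩
  · intro h3
    have h4 : (ℓ : ℤ) ∣ 1 := by
      have h5 := dvd_sub h3 h
      simpa using h5
    have h5 : (ℓ : ℤ) ≤ 1 := Int.le_of_dvd one_pos h4
    have h6 := hℓ.two_le
    omega
  · have h3 : (1 : ℤ) ^ 2 - M = -(M - 1) := by ring
    rw [h3]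
    exact (dvd_neg).2 h

private theorem good_mul {ℓ : ℕ} {M : ℤ} (h : Good ℓ M) (E : ℕ) :
    Good ℓ ((ℓ : ℤ) ^ (2 * E) * M) := by
  obtain ⟨j, M', h1, h2⟩ := h
  refine ⟨E + j, M', ?_, h2⟩
  rw [h1, ← mul_assoc, ← pow_add]
  congr 2
  ring

/-- two unit coefficients. -/
private theorem case_two {ℓ : ℕ} (hℓ : ℓ.Prime) (h2 : ℓ ≠ 2) (c : Fin 4 → ℤ) {i j : Fin 4}
    (hij : i ≠ j) (hi : ¬ (ℓ : ℤ) ∣ c i) (hj : ¬ (ℓ : ℤ) ∣ c j) :
    ∃ x : Fin 4 → ℤ, Good ℓ (∑ i, c i * x i ^ 2) := by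
  classical
  obtain ⟨x, y, hxy⟩ := two_sq hℓ h2 hi hj 1
  refine ⟨fun k => if k = i then x else if k = j then y else 0, ?_⟩
  have hsum : ∑ k, c k * (if k = i then x else if k = j then y else 0) ^ 2 =
      c i * x ^ 2 + c j * y ^ 2 := by
    rw [Finset.sum_eq_add i j hij]
    · rw [if_pos rfl, if_neg hij.symm, if_pos rfl]
    · rintro k - ⟨h3, h4⟩
      rw [if_neg h3, if_neg h4]
      ring
    · intro h
      exact absurd (Finset.mem_univ i) h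
    · intro h
      exact absurd (Finset.mem_univ j) h
  rw [hsum]
  have h3 := good_one hℓ h2 hxy 0
  simpa using h3

/-- three coefficients `ℓ` times a unit. -/
private theorem case_three {ℓ : ℕ} (hℓ : ℓ.Prime) (h2 : ℓ ≠ 2) (c : Fin 4 → ℤ) {i j k : Fin 4}
    (hij : i ≠ j) (hik : i ≠ k) (hjk : j ≠ k) {u v w : ℤ} (hi : c i = ℓ * u) (hj : c j = ℓ * v)
    (hk : c k = ℓ * w) (hu : ¬ (ℓ : ℤ) ∣ u) (hv : ¬ (ℓ : ℤ) ∣ v) (hw : ¬ (ℓ : ℤ) ∣ w) :
    ∃ x : Fin 4 → ℤ, Good ℓ (∑ i, c i * x i ^ 2) := by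
  classical
  have hp : Prime (ℓ : ℤ) := Nat.prime_iff_prime_int.1 hℓ
  obtain ⟨x, y, d, hd⟩ := two_sq hℓ h2 hu hv (-w)
  -- the inverse of `2 w`
  have h2w : ¬ (ℓ : ℤ) ∣ 2 * w := by
    intro h
    rcases hp.dvd_or_dvd h with h | h
    · have h3 : ℓ ∣ 2 := by exact_mod_cast h
      have h4 := Nat.le_of_dvd (by norm_num) h3
      have h5 := hℓ.two_le
      omega
    · exact hw h
  have hcop : IsCoprime (ℓ : ℤ) (2 * w) := (Prime.coprime_iff_not_dvd hp).2 h2w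
  obtain ⟨α, β, hαβ⟩ := hcop
  -- `κ = β (1 - d)`
  refine ⟨fun m => if m = i then x else if m = j then y else if m = k then
    1 + ℓ * (β * (1 - d)) else 0, ?_⟩
  have hsum : ∑ m, c m * (if m = i then x else if m = j then y else if m = k then
      1 + ℓ * (β * (1 - d)) else 0) ^ 2 =
      c i * x ^ 2 + c j * y ^ 2 + c k * (1 + ℓ * (β * (1 - d))) ^ 2 := by
    rw [← Finset.sum_subset (Finset.subset_univ {i, j, k})]
    · rw [Finset.sum_insert (by simp [hij, hik]), Finset.sum_insert (by simp [hjk]),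
        Finset.sum_singleton, if_pos rfl, if_neg hij.symm, if_pos rfl, if_neg hik.symm,
        if_neg hjk.symm, if_pos rfl]
      ring
    · intro m _ hm
      simp only [Finset.mem_insert, Finset.mem_singleton, not_or] at hm
      rw [if_neg hm.1, if_neg hm.2.1, if_neg hm.2.2]
      ring
  rw [hsum, hi, hj, hk]
  have e1 : (ℓ : ℤ) * u * x ^ 2 + ℓ * v * y ^ 2 + ℓ * w * (1 + ℓ * (β * (1 - d))) ^ 2 =
      (ℓ : ℤ) ^ (2 * 1) * (1 + ℓ * (-(α * (1 - d)) + w * (β * (1 - d)) ^ 2)) := by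
    linear_combination (ℓ : ℤ) * hd + (ℓ : ℤ) ^ 2 * (1 - d) * hαβ
  rw [e1]
  apply good_one hℓ h2
  exact ⟨-(α * (1 - d)) + w * (β * (1 - d)) ^ 2, by ring⟩

theorem good_odd {ℓ : ℕ} (hℓ : ℓ.Prime) (h2 : ℓ ≠ 2) (b : Fin 4 → ℕ) (hb : ∀ i, 0 < b i) :
    ∃ x : Fin 4 → ℤ, Good ℓ (∑ i, b i * x i ^ 2) := by
  classical
  have hex : ∀ i, ∃ (n u : ℕ), ¬ ℓ ∣ u ∧ b i = ℓ ^ n * u := fun i =>
    Nat.exists_eq_pow_mul_and_not_dvd (hb i).ne' ℓ hℓ.ne_one
  choose n u hu hbu using hex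
  -- the reduced coefficients
  have hred : ∃ y : Fin 4 → ℤ, Good ℓ (∑ i, ((ℓ : ℤ) ^ (n i % 2) * u i) * y i ^ 2) := by
    have hui : ∀ i, ¬ (ℓ : ℤ) ∣ (u i : ℤ) := fun i h => hu i (by exact_mod_cast h)
    have hd : ∀ i, n i % 2 = 0 ∨ n i % 2 = 1 := fun i => by omega
    have two : ∀ i j : Fin 4, i ≠ j → n i % 2 = 0 → n j % 2 = 0 →
        ∃ y : Fin 4 → ℤ, Good ℓ (∑ i, ((ℓ : ℤ) ^ (n i % 2) * u i) * y i ^ 2) := by
      intro i j hij h3 h4
      refine case_two hℓ h2 (fun i => (ℓ : ℤ) ^ (n i % 2) * u i) hij ?_ ?_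
      · rw [h3, pow_zero, one_mul]
        exact hui i
      · rw [h4, pow_zero, one_mul]
        exact hui j
    have three : ∀ i j k : Fin 4, i ≠ j → i ≠ k → j ≠ k → n i % 2 = 1 → n j % 2 = 1 →
        n k % 2 = 1 →
        ∃ y : Fin 4 → ℤ, Good ℓ (∑ i, ((ℓ : ℤ) ^ (n i % 2) * u i) * y i ^ 2) := by
      intro i j k hij hik hjk h3 h4 h5
      refine case_three hℓ h2 (fun i => (ℓ : ℤ) ^ (n i % 2) * u i) hij hik hjk (u := u i)
        (v := u j) (w := u k) ?_ ?_ ?_ (hui i) (hui j) (hui k)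
      · rw [h3, pow_one]
      · rw [h4, pow_one]
      · rw [h5, pow_one]
    rcases hd 0 with a0 | a0
    · rcases hd 1 with a1 | a1
      · exact two 0 1 (by decide) a0 a1
      · rcases hd 2 with a2 | a2
        · exact two 0 2 (by decide) a0 a2
        · rcases hd 3 with a3 | a3
          · exact two 0 3 (by decide) a0 a3
          · exact three 1 2 3 (by decide) (by decide) (by decide) a1 a2 a3
    · rcases hd 1 with a1 | a1
      · rcases hd 2 with a2 | a2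
        · exact two 1 2 (by decide) a1 a2
        · rcases hd 3 with a3 | a3
          · exact two 1 3 (by decide) a1 a3
          · exact three 0 2 3 (by decide) (by decide) (by decide) a0 a2 a3
      · rcases hd 2 with a2 | a2
        · rcases hd 3 with a3 | a3
          · exact two 2 3 (by decide) a2 a3
          · exact three 0 1 3 (by decide) (by decide) (by decide) a0 a1 a3
        · exact three 0 1 2 (by decide) (by decide) (by decide) a0 a1 a2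
  obtain ⟨y, hy⟩ := hred
  refine ⟨fun i => (ℓ : ℤ) ^ (∑ j, n j / 2 - n i / 2) * y i, ?_⟩
  have hE : ∀ i, n i / 2 ≤ ∑ j, n j / 2 := fun i =>
    Finset.single_le_sum (f := fun j => n j / 2) (fun _ _ => Nat.zero_le _) (Finset.mem_univ i)
  have hsum : ∑ i, (b i : ℤ) * ((ℓ : ℤ) ^ (∑ j, n j / 2 - n i / 2) * y i) ^ 2 =
      (ℓ : ℤ) ^ (2 * ∑ j, n j / 2) * ∑ i, ((ℓ : ℤ) ^ (n i % 2) * u i) * y i ^ 2 := by
    rw [Finset.mul_sum]
    refine Finset.sum_congr rfl fun i _ => ?_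
    have h3 := hE i
    have h4 : n i = n i % 2 + 2 * (n i / 2) := (Nat.mod_add_div _ _).symm
    have h5 : (b i : ℤ) = (ℓ : ℤ) ^ (n i % 2) * (ℓ : ℤ) ^ (2 * (n i / 2)) * u i := by
      rw [hbu i]
      push_cast
      rw [← pow_add, ← h4]
    have h6 : (ℓ : ℤ) ^ (2 * (n i / 2)) * ((ℓ : ℤ) ^ (∑ j, n j / 2 - n i / 2)) ^ 2 =
        (ℓ : ℤ) ^ (2 * ∑ j, n j / 2) := by
      rw [← pow_mul, ← pow_add]
      congr 1
      omega
    rw [h5, ← h6]
    ring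
  rw [hsum]
  exact good_mul hy _

end Pool.Agent.Work.MP_f6469e_gt.Mir
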