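import Pool.Agent.Work.MP_f6469e_gt.Mir.IsoN
import Pool.Agent.Work.MP_f6469e_gt.Mir.Finu
import Pool.Agent.Work.MP_f6469e_gt.Mir.PDj

/-!
# Mir/MinP (size M): the minimal pair

`p ∈ Face n e T`. `Face n e T` is compact (closed in the compact set `cpt`). `Cus n Λ e T` is not empty: `exists_cusp` for the set of the `c i • e i`, `i ∈ T`
(`rat`, `orth`; `Finset.image`, `card_image_le`). There are `X` with `x 0 ≤ X` and hence `c > 0` with `c * u 0 ≤ -L x u` for all `x ∈ Face n e T` and all future null `u`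
(`x 0 - √(∑ (x i.succ)²) = 1 / (x 0 + √…) ≥ 1 / (2 X)`). Fix `u* ∈ Cus`; the set `U` of `u ∈ Cus` with `c * u 0 ≤ -L p u*` is finite (`finite_bdd`,
`null_bound`) and not empty. For `u ∈ U` let `m u` be the minimum of `-L x u` on the face; choose `u` with the least `m u` and a point `x₁` of the face with
`-L x₁ u = m u =: μ`. This is a minimum over all pairs (if `u ∈ Cus` is not in `U` then `-L x u ≥ c u 0 > -L p u* ≥ μ`). Then apply `exists_min` to
`S = {u ∈ Cus | L x₁ u = -μ}`.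
-/

set_option autoImplicit false

namespace Pool.Agent.Work.MP_f6469e_gt.Mir

open Pool.Agent.Work.MP_f6469e_gt

private theorem lower {n : ℕ} {x u : Fin (n + 1) → ℝ} (hx0 : 0 < x 0) (hxx : L n x x = -1)
    (hu0 : 0 < u 0) (huu : L n u u = 0) : u 0 / (2 * x 0) ≤ -L n x u := by
  have hcs := Finset.sum_mul_sq_le_sq_mul_sq Finset.univ (fun i : Fin n => x i.succ)
    (fun i : Fin n => u i.succ)
  have h1 : (∑ i : Fin n, x i.succ ^ 2) = x 0 ^ 2 - 1 := by
    have := hxx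
    unfold L at this
    simp only [← pow_two] at this
    linarith
  have h2 : (∑ i : Fin n, u i.succ ^ 2) = u 0 ^ 2 := by
    have := huu
    unfold L at this
    simp only [← pow_two] at this
    linarith
  have h3 : 0 ≤ ∑ i : Fin n, x i.succ ^ 2 := Finset.sum_nonneg fun _ _ => sq_nonneg _
  rw [h1] at h3
  rw [h1, h2] at hcs
  have h4 : -L n x u = x 0 * u 0 - ∑ i : Fin n, x i.succ * u i.succ := by
    unfold L; ring
  rw [h4]
  have h5 : 0 ≤ x 0 * u 0 - u 0 / (2 * x 0) := by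
    have h6 : x 0 * u 0 - u 0 / (2 * x 0) = u 0 * (2 * x 0 ^ 2 - 1) / (2 * x 0) := by
      field_simp
    rw [h6]
    refine div_nonneg (mul_nonneg hu0.le ?_) (by positivity)
    nlinarith
  have h7 : (∑ i : Fin n, x i.succ * u i.succ) ^ 2 ≤ (x 0 * u 0 - u 0 / (2 * x 0)) ^ 2 := by
    have h8 : (x 0 * u 0 - u 0 / (2 * x 0)) ^ 2 =
        (x 0 ^ 2 - 1) * u 0 ^ 2 + (u 0 / (2 * x 0)) ^ 2 := by
      field_simp
      ring
    rw [h8]
    have := sq_nonneg (u 0 / (2 * x 0))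
    linarith
  have h9 := abs_le_of_sq_le_sq h7 h5
  have h10 := le_abs_self (∑ i : Fin n, x i.succ * u i.succ)
  linarith

theorem Piece.exists_pair {n N : ℕ} {e : Fin N → (Fin (n + 1) → ℝ)}
    {Λ : AddSubgroup (Fin (n + 1) → ℝ)} {B T : Finset (Fin N)} {p : Fin (n + 1) → ℝ}
    (h : Piece n N e Λ B T p) :
    ∃ x₁ ∈ Face n e T, ∃ u₁ ∈ Cus n Λ e T,
      (∀ x ∈ Face n e T, ∀ u ∈ Cus n Λ e T, -L n x₁ u₁ ≤ -L n x u) ∧
      ∀ u ∈ Cus n Λ e T, L n x₁ u = L n x₁ u₁ → -L n p u₁ ≤ -L n p u := by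
  classical
  have hpp' : L n p p < 0 := by rw [h.pp]; norm_num
  have hpK : p ∈ Face n e T := by
    refine ⟨h.p0, h.pp, fun i => ?_, h.pT⟩
    by_cases hi : i ∈ T
    · exact (h.pT i hi).le
    · exact (h.pn i hi).le
  have hL : ∀ y : Fin (n + 1) → ℝ, Continuous fun x : Fin (n + 1) → ℝ => L n x y := fun y =>
    continuous_L.comp (continuous_id.prodMk continuous_const)
  have hK : IsCompact (Face n e T) := by
    have h1 : Face n e T = {x : Fin (n + 1) → ℝ | 0 < x 0 ∧ L n x x = -1 ∧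
        ∀ i, L n x (e i) ≤ 0} ∩ ⋂ i ∈ T, {x | L n x (e i) = 0} := by
      ext x
      simp only [Set.mem_inter_iff, Set.mem_iInter]
      exact ⟨fun hx => ⟨⟨hx.1, hx.2.1, hx.2.2.1⟩, hx.2.2.2⟩,
        fun hx => ⟨hx.1.1, hx.1.2.1, hx.1.2.2, hx.2⟩⟩
    rw [h1]
    refine h.cpt.inter_right ?_
    exact isClosed_biInter fun i _ => isClosed_eq (hL (e i)) continuous_const
  obtain ⟨xm, hxm, hmax⟩ := hK.exists_isMaxOn ⟨p, hpK⟩ (continuous_apply 0).continuousOn
  have hX : ∀ x ∈ Face n e T, x 0 ≤ xm 0 := fun x hx => hmax hx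
  obtain ⟨X, hXd⟩ : ∃ X : ℝ, X = xm 0 := ⟨_, rfl⟩
  rw [← hXd] at hX
  have hX0 : 0 < X := lt_of_lt_of_le h.p0 (hX p hpK)
  have hlow : ∀ x ∈ Face n e T, ∀ u : Fin (n + 1) → ℝ, 0 < u 0 → L n u u = 0 →
      (2 * X)⁻¹ * u 0 ≤ -L n x u := by
    intro x hx u hu0 huu
    refine le_trans ?_ (lower hx.1 hx.2.1 hu0 huu)
    rw [div_eq_mul_inv, mul_comm (u 0)]
    refine mul_le_mul_of_nonneg_right ?_ hu0.le
    exact inv_anti₀ (by have := hx.1; positivity) (by linarith [hX x hx])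
  have hrat := h.rat
  choose! c hc using hrat
  obtain ⟨us, husΛ, hus0, husu, husT⟩ := exists_cusp h.lat (T.image fun i => c i • e i)
    (fun t ht => by
      obtain ⟨i, hi, rfl⟩ := Finset.mem_image.mp ht
      refine ⟨(hc i (h.sub hi)).2, ?_⟩
      have := (hc i (h.sub hi)).1
      rw [L_smul_left, L_smul_right, h.unit i]
      positivity)
    (fun s hs t ht hst => by
      obtain ⟨i, hi, rfl⟩ := Finset.mem_image.mp hs
      obtain ⟨j, hj, rfl⟩ := Finset.mem_image.mp ht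
      have hij : i ≠ j := fun hh => hst (by rw [hh])
      rw [L_smul_left, L_smul_right, h.orth i hi j hj hij]; ring)
    (le_trans (Nat.add_le_add_right Finset.card_image_le 4) h.card)
  have husC : us ∈ Cus n Λ e T := by
    refine ⟨husΛ, hus0, husu, fun i hi => ?_⟩
    have h1 := husT (c i • e i) (Finset.mem_image_of_mem _ hi)
    rw [L_smul_right] at h1
    exact (mul_eq_zero.mp h1).resolve_left (hc i (h.sub hi)).1.ne'
  have hg : ∀ u : Fin (n + 1) → ℝ, ∃ x ∈ Face n e T, ∀ y ∈ Face n e T,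
      -L n x u ≤ -L n y u := by
    intro u
    obtain ⟨x, hx, hmin⟩ := hK.exists_isMinOn ⟨p, hpK⟩ (hL u).neg.continuousOn
    exact ⟨x, hx, fun y hy => hmin hy⟩
  choose g hgK hgmin using hg
  have hfin : {u | u ∈ Cus n Λ e T ∧ (2 * X)⁻¹ * u 0 ≤ -L n p us}.Finite := by
    refine (finite_bdd h.lat (2 * X * -L n p us)).subset ?_
    intro u hu
    refine ⟨hu.1.1, fun i => (null_bound hu.1.2.1 hu.1.2.2.1 i).trans ?_⟩
    have h1 := hu.2
    rw [inv_mul_le_iff₀ (by positivity)] at h1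
    exact h1
  have husU : us ∈ {u | u ∈ Cus n Λ e T ∧ (2 * X)⁻¹ * u 0 ≤ -L n p us} :=
    ⟨husC, hlow p hpK us hus0 husu⟩
  obtain ⟨u₂, hu₂, hu₂min⟩ := Set.exists_min_image _ (fun u => -L n (g u) u) hfin ⟨us, husU⟩
  have hall : ∀ x ∈ Face n e T, ∀ u ∈ Cus n Λ e T, -L n (g u₂) u₂ ≤ -L n x u := by
    intro x hx u hu
    by_cases huU : (2 * X)⁻¹ * u 0 ≤ -L n p us
    · exact (hu₂min u ⟨hu, huU⟩).trans (hgmin u x hx)
    · push Not at huU
      have h1 := hlow x hx u hu.2.1 hu.2.2.1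
      have h2 := (hu₂min us husU).trans (hgmin us p hpK)
      linarith
  obtain ⟨u₁, hu₁, hu₁min⟩ := exists_min h.lat h.p0 hpp'
    {u | u ∈ Cus n Λ e T ∧ L n (g u₂) u = L n (g u₂) u₂}
    (fun u hu => ⟨hu.1.1, hu.1.2.1, hu.1.2.2.1⟩) ⟨u₂, hu₂.1, rfl⟩
  refine ⟨g u₂, hgK u₂, u₁, hu₁.1, fun x hx u hu => ?_, fun u hu hxu => ?_⟩
  · rw [hu₁.2]
    exact hall x hx u hu
  · exact hu₁min u ⟨hu, hxu.trans hu₁.2⟩

end Pool.Agent.Work.MP_f6469e_gt.Mir
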