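import Pool.Agent.Work.MP_f6469e_gt.Mir.Cliq
import Pool.Agent.Work.MP_f6469e_gt.Mir.Defs

/-!
# Mir/PIni (size M): the initial situation

`exists_clique` for `α = Fin N`, `W = B`, `r i j := L (e i) (e j) = 0`, `k = n - 3`: a clique with more than `n - 3` elements would contain one with exactly `n - 2`
elements (`Finset.exists_subset_card_eq`), excluded by `hno`. `p' = x - ∑ t ∈ T, L x (e t) e t` for the interior point `x`: `L p' (e t) = 0` for `t ∈ T`
(orthonormal); for `j ∉ T`: `L p' (e j) = L x (e j) - ∑ t, L x (e t) L (e t) (e j) ≤ L x (e j) < 0` (both factors are `≤ 0`, by `hB`).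
`L p' p' = -1 - ∑ (L x (e t))² < 0`, `L x p' = -1 - ∑ (L x (e t))² < 0`, so `0 < p' 0` (`time_zero`). `p = (√(-L p' p'))⁻¹ p'`.
-/

set_option autoImplicit false

namespace Pool.Agent.Work.MP_f6469e_gt.Mir

open Pool.Agent.Work.MP_f6469e_gt

theorem exists_piece {n : ℕ} (hn : 4 ≤ n) {N : ℕ} {e : Fin N → (Fin (n + 1) → ℝ)}
    (hunit : ∀ i, L n (e i) (e i) = 1)
    (hin : ∃ x : Fin (n + 1) → ℝ, 0 < x 0 ∧ L n x x = -1 ∧ ∀ i, L n x (e i) < 0)
    (hc : IsCompact {x : Fin (n + 1) → ℝ | 0 < x 0 ∧ L n x x = -1 ∧ ∀ i, L n x (e i) ≤ 0})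
    {Λ : AddSubgroup (Fin (n + 1) → ℝ)} (hΛ : IntLat n Λ) {B : Finset (Fin N)}
    (hrat : ∀ i ∈ B, ∃ c : ℝ, 0 < c ∧ c • e i ∈ Λ)
    (hA : ∀ i, i ∉ B → ∀ x ∈ Λ, x - (2 * L n x (e i)) • e i ∈ Λ)
    (hB : ∀ i ∈ B, ∀ j, j ≠ i → L n (e i) (e j) = 0 ∨ L n (e i) (e j) ≤ -1)
    (hno : ¬ ∃ T ⊆ B, T.card = n - 2 ∧ ∀ i ∈ T, ∀ j ∈ T, i ≠ j → L n (e i) (e j) = 0) :
    ∃ (T : Finset (Fin N)) (p : Fin (n + 1) → ℝ), Piece n N e Λ B T p := by
  classical
  obtain ⟨x, hx0, hxx, hxe⟩ := hin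
  have hcl : ∀ T : Finset (Fin N), (T : Set (Fin N)) ⊆ (B : Set (Fin N)) →
      (∀ v ∈ T, ∀ w ∈ T, v ≠ w → L n (e v) (e w) = 0) → T.card ≤ n - 3 := by
    intro T hT hTo
    by_contra hcard
    obtain ⟨T', hT', hc'⟩ := Finset.exists_subset_card_eq (s := T) (n := n - 2) (by omega)
    exact hno ⟨T', fun i hi => Finset.mem_coe.1 (hT (Finset.mem_coe.2 (hT' hi))), hc',
      fun i hi j hj hij => hTo i (hT' hi) j (hT' hj) hij⟩
  obtain ⟨T, hTB, hTo, hTc, hTtop⟩ := exists_clique (B : Set (Fin N))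
    (fun i j => L n (e i) (e j) = 0) (fun v w h => by rw [L_comm]; exact h) (by omega) hcl
  have hTB' : T ⊆ B := fun i hi => Finset.mem_coe.1 (hTB (Finset.mem_coe.2 hi))
  obtain ⟨q, hq⟩ : ∃ q : Fin (n + 1) → ℝ, q = x - ∑ t ∈ T, (L n x (e t)) • e t := ⟨_, rfl⟩
  have hqL : ∀ z, L n q z = L n x z - ∑ t ∈ T, L n x (e t) * L n (e t) z := by
    intro z
    rw [hq, L_sub_left, L_sum_left]
    simp only [L_smul_left]
  have hqT : ∀ i ∈ T, L n q (e i) = 0 := by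
    intro i hi
    rw [hqL, Finset.sum_eq_single i (fun j hj hji => by rw [hTo j hj i hi hji, mul_zero])
      (fun h => absurd hi h), hunit, mul_one, sub_self]
  have hqn : ∀ j, j ∉ T → L n q (e j) < 0 := by
    intro j hj
    rw [hqL]
    have h1 : 0 ≤ ∑ t ∈ T, L n x (e t) * L n (e t) (e j) := by
      refine Finset.sum_nonneg fun t ht => ?_
      have h2 : L n (e t) (e j) ≤ 0 := by
        rcases hB t (hTB' ht) j (fun h => hj (h ▸ ht)) with h3 | h3
        · exact h3.le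
        · linarith
      exact mul_nonneg_of_nonpos_of_nonpos (hxe t).le h2
    have := hxe j
    linarith
  have hqx : L n q x < 0 := by
    rw [hqL, hxx]
    have h1 : 0 ≤ ∑ t ∈ T, L n x (e t) * L n (e t) x := by
      refine Finset.sum_nonneg fun t _ => ?_
      rw [L_comm (e t) x]
      exact mul_self_nonneg _
    linarith
  have hqq : L n q q = L n q x := by
    rw [hqL q, Finset.sum_eq_zero (fun t ht => by rw [L_comm (e t) q, hqT t ht, mul_zero]), sub_zero,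
      L_comm]
  have hqq0 : L n q q < 0 := by rw [hqq]; exact hqx
  have hq0 : 0 < q 0 := time_zero (x := x) (by rw [hxx]; norm_num) hx0 hqq0.le
    (by rw [L_comm]; exact hqx)
  have hs : 0 < √(-L n q q) := Real.sqrt_pos.2 (by linarith)
  refine ⟨T, (√(-L n q q))⁻¹ • q, ⟨hΛ, hunit, hc, hrat, hA, hB, hTB', hTo, by omega, ?_, ?_, ?_, ?_, ?_⟩⟩
  · intro i hi j hj hiT hjT hij h1 h2
    exact hTtop i (Finset.mem_coe.2 hi) j (Finset.mem_coe.2 hj) hiT hjT hij h1 h2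
  · rw [Pi.smul_apply, smul_eq_mul]
    positivity
  · rw [L_smul_left, L_smul_right]
    have h1 : √(-L n q q) * √(-L n q q) = -L n q q := Real.mul_self_sqrt (by linarith)
    field_simp
    rw [sq, h1]
    try ring
  · intro i hi
    rw [L_smul_left, hqT i hi, mul_zero]
  · intro i hi
    rw [L_smul_left]
    exact mul_neg_of_pos_of_neg (inv_pos.2 hs) (hqn i hi)

end Pool.Agent.Work.MP_f6469e_gt.Mir
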