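import Pool.Agent.Work.MP_f6469e_gt.Mir.Reg
import Pool.Agent.Work.MP_f6469e_gt.Mir.PIni
import Pool.Agent.Work.MP_f6469e_gt.Mir.MinP
import Pool.Agent.Work.MP_f6469e_gt.Mir.Foot
import Pool.Agent.Work.MP_f6469e_gt.Mir.Back

/-!
# Mir/Main: the theorem on polytopes (proved from the modules)
-/

set_option autoImplicit false

namespace Pool.Agent.Work.MP_f6469e_gt.Mir

open Pool.Agent.Work.MP_f6469e_gt

theorem polytope {n : ℕ} (hn : 4 ≤ n) {N : ℕ} (e : Fin N → (Fin (n + 1) → ℝ))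
    (hunit : ∀ i, L n (e i) (e i) = 1)
    (hin : ∃ x : Fin (n + 1) → ℝ, 0 < x 0 ∧ L n x x = -1 ∧ ∀ i, L n x (e i) < 0)
    (hc : IsCompact {x : Fin (n + 1) → ℝ | 0 < x 0 ∧ L n x x = -1 ∧ ∀ i, L n x (e i) ≤ 0})
    {Λ : AddSubgroup (Fin (n + 1) → ℝ)} (hΛ : IntLat n Λ) (B : Finset (Fin N))
    (hrat : ∀ i ∈ B, ∃ c : ℝ, 0 < c ∧ c • e i ∈ Λ)
    (hA : ∀ i, i ∉ B → ∀ x ∈ Λ, x - (2 * L n x (e i)) • e i ∈ Λ)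
    (hB : ∀ i ∈ B, ∀ j, j ≠ i → L n (e i) (e j) = 0 ∨ L n (e i) (e j) ≤ -1) :
    ∃ T ⊆ B, T.card = n - 2 ∧ ∀ i ∈ T, ∀ j ∈ T, i ≠ j → L n (e i) (e j) = 0 := by
  by_contra hno
  obtain ⟨T, p, h⟩ := exists_piece hn hunit hin hc hΛ hrat hA hB hno
  obtain ⟨x₁, hx₁, u₁, hu₁, hmin, hsec⟩ := h.exists_pair
  obtain ⟨b, hb, hbT, hbo, hxb, hu⟩ := h.foot hx₁ hu₁ hmin hsec
  exact h.back hx₁ hu₁ hmin hb hbT hbo hxb hu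

end Pool.Agent.Work.MP_f6469e_gt.Mir
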