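import Pool.Agent.Work.MP_f6469e_gt.Mir.Pell

/-!
# Mir/MirA (size M): the mirror lemma

By `hint` the numbers `L n (w i) (w i) = a i`, `L n v v = R`, `L n u v = s` are integers, `a i > 0`, `R > 0`, `s ≠ 0`. `pell` gives `t`, `y`.
Put `ũ = 2 s v - R u` (so `L ũ ũ = 4 s² R - 4 s² R = 0`, `L u ũ = 2 s²`, `L ũ v = 2 s R - R s = s R`), `X = ∑ y i w i`
(`L X X = ∑ a i y i² = t (t R - 1)`, `L X u = L X v = 0`) and `u' = (1 - t R) u + t ũ + 2 s X ∈ Λ` (integer coefficients: use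
`zsmul_mem` and `zsmul = real smul`). Then `L u' u' = 2 (1 - t R) t 2 s² + 4 s² t (t R - 1) = 0`,
`L u' v = (1 - t R) s + t s R = s`, `L u u' = 2 t s² > 0`. The last statement: `u'` is a combination of `u`, `v`, `w i`.
-/

set_option autoImplicit false

namespace Pool.Agent.Work.MP_f6469e_gt.Mir

open Pool.Agent.Work.MP_f6469e_gt

theorem mirror {n : ℕ} {Λ : AddSubgroup (Fin (n + 1) → ℝ)}
    (hint : ∀ x ∈ Λ, ∀ y ∈ Λ, ∃ m : ℤ, L n x y = m) {u v : Fin (n + 1) → ℝ} (hu : u ∈ Λ)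
    (hv : v ∈ Λ) (huu : L n u u = 0) (huv : L n u v ≠ 0) (hvv : 0 < L n v v)
    (w : Fin 3 → (Fin (n + 1) → ℝ)) (hw : ∀ i, w i ∈ Λ) (hpos : ∀ i, 0 < L n (w i) (w i))
    (horth : ∀ i j, i ≠ j → L n (w i) (w j) = 0) (hwu : ∀ i, L n (w i) u = 0)
    (hwv : ∀ i, L n (w i) v = 0) :
    ∃ u' ∈ Λ, L n u' u' = 0 ∧ L n u' v = L n u v ∧ 0 < L n u u' ∧
      ∀ z : Fin (n + 1) → ℝ, L n u z = 0 → L n v z = 0 → (∀ i, L n (w i) z = 0) →
        L n u' z = 0 := by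
  choose a ha using fun i => hint (w i) (hw i) (w i) (hw i)
  obtain ⟨R, hR⟩ := hint v hv v hv
  obtain ⟨s, hs⟩ := hint u hu v hv
  have hapos : ∀ i, 0 < a i := by
    intro i
    have h1 := hpos i
    rw [ha i] at h1
    exact_mod_cast h1
  have hRpos : 0 < R := by
    rw [hR] at hvv
    exact_mod_cast hvv
  have hs0 : (s : ℝ) ≠ 0 := by
    rw [← hs]
    exact huv
  obtain ⟨t, y, ht, hty⟩ := pell a hapos hRpos
  have hty2 : (a 0 : ℝ) * (y 0 : ℝ) ^ 2 + a 1 * (y 1 : ℝ) ^ 2 + a 2 * (y 2 : ℝ) ^ 2 =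
      t * (t * R - 1) := by
    rw [Fin.sum_univ_three] at hty
    exact_mod_cast hty
  have ht0 : (0 : ℝ) < t := by exact_mod_cast ht
  have hmem : ∀ (k : ℤ) (x : Fin (n + 1) → ℝ), x ∈ Λ → (k : ℝ) • x ∈ Λ := by
    intro k x hx
    rw [Int.cast_smul_eq_zsmul ℝ k x]
    exact Λ.zsmul_mem hx k
  have w01 := horth 0 1 (by decide)
  have w02 := horth 0 2 (by decide)
  have w12 := horth 1 2 (by decide)
  have w10 := horth 1 0 (by decide)
  have w20 := horth 2 0 (by decide)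
  have w21 := horth 2 1 (by decide)
  have hwu' : ∀ i, L n u (w i) = 0 := fun i => by rw [L_comm, hwu]
  have hwv' : ∀ i, L n v (w i) = 0 := fun i => by rw [L_comm, hwv]
  have hs' : L n v u = s := by rw [L_comm, hs]
  obtain ⟨u', hu'⟩ : ∃ u' : Fin (n + 1) → ℝ, u' = ((1 - 2 * t * R : ℤ) : ℝ) • u +
      ((2 * t * s : ℤ) : ℝ) • v + (((2 * s * y 0 : ℤ) : ℝ) • w 0 + ((2 * s * y 1 : ℤ) : ℝ) • w 1 +
        ((2 * s * y 2 : ℤ) : ℝ) • w 2) := ⟨_, rfl⟩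
  have hL : ∀ z, L n u' z = (1 - 2 * t * R) * L n u z + 2 * t * s * L n v z +
      (2 * s * y 0 * L n (w 0) z + 2 * s * y 1 * L n (w 1) z + 2 * s * y 2 * L n (w 2) z) := by
    intro z
    rw [hu']
    simp only [L_add_left, L_smul_left]
    push_cast
    ring
  have e1 : L n u' u = 2 * t * s * s := by
    rw [hL, huu, hs', hwu, hwu, hwu]
    ring
  have e2 : L n u' v = s := by
    rw [hL, hs, hR, hwv, hwv, hwv]
    ring
  have e3 : L n u' (w 0) = 2 * s * y 0 * a 0 := by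
    rw [hL, hwu', hwv', ha, w10, w20]
    ring
  have e4 : L n u' (w 1) = 2 * s * y 1 * a 1 := by
    rw [hL, hwu', hwv', ha, w01, w21]
    ring
  have e5 : L n u' (w 2) = 2 * s * y 2 * a 2 := by
    rw [hL, hwu', hwv', ha, w02, w12]
    ring
  refine ⟨u', ?_, ?_, ?_, ?_, ?_⟩
  · rw [hu']
    exact Λ.add_mem (Λ.add_mem (hmem _ _ hu) (hmem _ _ hv))
      (Λ.add_mem (Λ.add_mem (hmem _ _ (hw 0)) (hmem _ _ (hw 1))) (hmem _ _ (hw 2)))
  · rw [hL, L_comm u u', L_comm v u', L_comm (w 0) u', L_comm (w 1) u', L_comm (w 2) u', e1, e2, e3,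
      e4, e5]
    linear_combination 4 * (s : ℝ) ^ 2 * hty2
  · rw [e2, hs]
  · rw [L_comm, e1]
    have h1 : 0 < (s : ℝ) * s := mul_self_pos.2 hs0
    have h2 : 2 * (t : ℝ) * s * s = 2 * t * (s * s) := by ring
    rw [h2]
    positivity
  · intro z h1 h2 h3
    rw [hL, h1, h2, h3, h3, h3]
    ring

end Pool.Agent.Work.MP_f6469e_gt.Mir
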