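import Pool.Agent.Work.MP_f6469e_gt.Mir.Sys
import Pool.Agent.Work.MP_f6469e_gt.Mir.MirA
import Pool.Agent.Work.MP_f6469e_gt.Mir.Dis

/-!
# Mir/MirT (size M): the mirror image of a cusp

`v₂ = R u - s v` with the integers `R = L v v > 0`, `s = L u v ≠ 0`: `v₂ ∈ Λ`, `L v₂ v = 0`, `L v₂ v₂ = -s² R < 0`, orthogonal to `T`. The system
`T, v, v₂` (enumerate `T` by `T.equivFin.symm`, append `v`, `v₂`) is orthogonal with nonzero norms, `v₂` is time-like;
`exists_pos_system` with `r = 3` (`T.card + 2 + 3 ≤ n + 1`) gives `w : Fin 3 → _`, orthogonal to `T`, `v`, `v₂`, hence to `u` (`R u = v₂ + s v`).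
`mirror` gives `u'` with `L u' v = L u v`, `0 < L u u'`, orthogonal to `T` (last statement of `mirror` with `z = t`). Take `-u'`: `L u (-u') < 0`, so
`0 < (-u') 0`: for null vectors: otherwise `u' 0 ≥ 0`, and then `L u u' ≤ 0` by Cauchy-Schwarz.
-/

set_option autoImplicit false

namespace Pool.Agent.Work.MP_f6469e_gt.Mir

open Pool.Agent.Work.MP_f6469e_gt

private theorem smul_mem_of_int {n : ℕ} {Λ : AddSubgroup (Fin (n + 1) → ℝ)}
    {x : Fin (n + 1) → ℝ} (hx : x ∈ Λ) {r : ℝ} {m : ℤ} (h : r = m) : r • x ∈ Λ := by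
  rw [h, Int.cast_smul_eq_zsmul ℝ m x]
  exact Λ.zsmul_mem hx m

theorem exists_mirror {n : ℕ} {Λ : AddSubgroup (Fin (n + 1) → ℝ)} (hΛ : IntLat n Λ)
    (T : Finset (Fin (n + 1) → ℝ)) (hT : ∀ t ∈ T, t ∈ Λ ∧ 0 < L n t t)
    (ho : ∀ s ∈ T, ∀ t ∈ T, s ≠ t → L n s t = 0) (hc : T.card + 4 ≤ n)
    {u v : Fin (n + 1) → ℝ} (hu : u ∈ Λ) (hu0 : 0 < u 0) (huu : L n u u = 0)
    (huT : ∀ t ∈ T, L n u t = 0) (hv : v ∈ Λ) (hvv : 0 < L n v v) (hvT : ∀ t ∈ T, L n v t = 0)
    (huv : L n u v ≠ 0) :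
    ∃ u' ∈ Λ, 0 < u' 0 ∧ L n u' u' = 0 ∧ (∀ t ∈ T, L n u' t = 0) ∧ L n u' v = -L n u v := by
  classical
  obtain ⟨R, hR⟩ := hΛ.int v hv v hv
  obtain ⟨s, hs⟩ := hΛ.int u hu v hv
  obtain ⟨v₂, hv₂⟩ : ∃ v₂, v₂ = (L n v v) • u - (L n u v) • v := ⟨_, rfl⟩
  have hv₂Λ : v₂ ∈ Λ := by
    rw [hv₂]
    exact Λ.sub_mem (smul_mem_of_int hu hR) (smul_mem_of_int hv hs)
  have hv₂v : L n v₂ v = 0 := by
    rw [hv₂, L_sub_left, L_smul_left, L_smul_left]; ring
  have hvv₂ : L n v v₂ = 0 := by rw [L_comm]; exact hv₂v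
  have hv₂v₂ : L n v₂ v₂ < 0 := by
    have h1 : L n v₂ v₂ = -(L n u v ^ 2 * L n v v) := by
      rw [hv₂]
      simp only [L_sub_left, L_sub_right, L_smul_left, L_smul_right, huu, L_comm v u]
      ring
    rw [h1]
    have h2 : 0 < L n u v ^ 2 := by positivity
    have := mul_pos h2 hvv
    linarith
  have hv₂T : ∀ t ∈ T, L n v₂ t = 0 := by
    intro t ht
    rw [hv₂, L_sub_left, L_smul_left, L_smul_left, huT t ht, hvT t ht]; ring
  obtain ⟨t, ht⟩ : ∃ t : Fin T.card → (Fin (n + 1) → ℝ),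
      t = fun i => ((T.equivFin.symm i : T) : Fin (n + 1) → ℝ) := ⟨_, rfl⟩
  have htT : ∀ i, t i ∈ T := fun i => by rw [ht]; exact (T.equivFin.symm i).2
  have htne : ∀ i j, i ≠ j → t i ≠ t j := by
    intro i j hij hh
    rw [ht] at hh
    exact hij (T.equivFin.symm.injective (Subtype.ext hh))
  have htsurj : ∀ z ∈ T, ∃ i, t i = z := by
    intro z hz
    refine ⟨T.equivFin ⟨z, hz⟩, ?_⟩
    rw [ht]
    simp
  have hF2 : ∀ P : Fin 2 → Prop, P 0 → P 1 → ∀ i, P i := by
    intro P h0 h1 i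
    fin_cases i
    · exact h0
    · exact h1
  obtain ⟨w, hwΛ, hws, hwo, hwp⟩ := exists_pos_system hΛ (k := T.card + 2) 3 (by omega)
    (Fin.append t ![v, v₂])
    (fun i => by
      induction i using Fin.addCases with
      | left i => rw [Fin.append_left]; exact (hT _ (htT i)).1
      | right i =>
        rw [Fin.append_right]
        exact hF2 (fun i => (![v, v₂] : Fin 2 → _) i ∈ Λ) hv hv₂Λ i)
    (fun i => by
      induction i using Fin.addCases with
      | left i => rw [Fin.append_left]; exact (hT _ (htT i)).2.ne'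
      | right i =>
        rw [Fin.append_right]
        exact hF2 (fun i => L n ((![v, v₂] : Fin 2 → _) i) ((![v, v₂] : Fin 2 → _) i) ≠ 0)
          hvv.ne' hv₂v₂.ne i)
    (fun i j hij => by
      induction i using Fin.addCases with
      | left i =>
        rw [Fin.append_left]
        induction j using Fin.addCases with
        | left j =>
          rw [Fin.append_left]
          exact ho _ (htT i) _ (htT j) (htne i j fun hh => hij (by rw [hh]))
        | right j =>
          rw [Fin.append_right, L_comm]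
          exact hF2 (fun j => L n ((![v, v₂] : Fin 2 → _) j) (t i) = 0)
            (hvT _ (htT i)) (hv₂T _ (htT i)) j
      | right i =>
        rw [Fin.append_right]
        induction j using Fin.addCases with
        | left j =>
          rw [Fin.append_left]
          exact hF2 (fun i => L n ((![v, v₂] : Fin 2 → _) i) (t j) = 0)
            (hvT _ (htT j)) (hv₂T _ (htT j)) i
        | right j =>
          rw [Fin.append_right]
          have hij' : i ≠ j := fun hh => hij (by rw [hh])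
          revert hij'
          refine hF2 (fun i => i ≠ j → L n ((![v, v₂] : Fin 2 → _) i)
            ((![v, v₂] : Fin 2 → _) j) = 0) ?_ ?_ i
          · refine hF2 (fun j => (0 : Fin 2) ≠ j → L n ((![v, v₂] : Fin 2 → _) 0)
              ((![v, v₂] : Fin 2 → _) j) = 0) (fun hh => absurd rfl hh) (fun _ => hvv₂) j
          · refine hF2 (fun j => (1 : Fin 2) ≠ j → L n ((![v, v₂] : Fin 2 → _) 1)
              ((![v, v₂] : Fin 2 → _) j) = 0) (fun _ => hv₂v) (fun hh => absurd rfl hh) j)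
    (i₀ := Fin.natAdd T.card 1)
    (by rw [Fin.append_right]; exact hv₂v₂)
  have hwT : ∀ i, ∀ z ∈ T, L n (w i) z = 0 := by
    intro i z hz
    obtain ⟨j, rfl⟩ := htsurj z hz
    have := hws i (Fin.castAdd 2 j)
    rwa [Fin.append_left] at this
  have hwv : ∀ i, L n (w i) v = 0 := by
    intro i
    have := hws i (Fin.natAdd T.card 0)
    rwa [Fin.append_right] at this
  have hwv₂ : ∀ i, L n (w i) v₂ = 0 := by
    intro i
    have := hws i (Fin.natAdd T.card 1)
    rwa [Fin.append_right] at this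
  have hwu : ∀ i, L n (w i) u = 0 := by
    intro i
    have h1 := hwv₂ i
    rw [hv₂, L_sub_right, L_smul_right, L_smul_right, hwv i, mul_zero, sub_zero] at h1
    exact (mul_eq_zero.mp h1).resolve_left hvv.ne'
  obtain ⟨u', hu'Λ, hu'u', hu'v, hpos, hlast⟩ := mirror hΛ.int hu hv huu huv hvv w hwΛ hwp hwo
    hwu hwv
  refine ⟨-u', Λ.neg_mem hu'Λ, ?_, ?_, ?_, ?_⟩
  · rcases lt_trichotomy (u' 0) 0 with hh | hh | hh
    · simpa using hh
    · exfalso
      have h1 := hu'u'
      unfold L at h1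
      rw [hh] at h1
      have h2 : ∑ i : Fin n, u' i.succ * u' i.succ = 0 := by linarith
      rw [Finset.sum_eq_zero_iff_of_nonneg (fun i _ => mul_self_nonneg _)] at h2
      have h3 : L n u u' = 0 := by
        unfold L
        rw [hh, Finset.sum_eq_zero (fun i hi => by
          rw [mul_self_eq_zero.mp (h2 i hi), mul_zero])]
        ring
      linarith
    · exfalso
      have := null_le hu0 huu hh hu'u'.le
      linarith
  · rw [L_neg_left, L_neg_right, hu'u']; ring
  · intro z hz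
    rw [L_neg_left, hlast z (huT z hz) (hvT z hz) (fun i => hwT i z hz), neg_zero]
  · rw [L_neg_left, hu'v]

end Pool.Agent.Work.MP_f6469e_gt.Mir
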