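import Pool.Agent.Work.MP_f6469e_gt.Mir.Defs

/-!
# Mir/Orth (size M-L): extension of an orthogonal system in a lattice

`P = ∏ i, L (s i) (s i)` is a nonzero integer. For `x ∈ Λ` let `π x = P x - ∑ i, (P / L (s i) (s i)) L x (s i) s i`. The coefficients are
integers (`P / L (s i) (s i)` is the product over `j ≠ i`), so `π x ∈ Λ`; `L (π x) (s i) = 0`. If `L (π x) (π y) ≠ 0` for some `x, y ∈ Λ`
then one of `π x`, `π y`, `π x + π y` is the required vector (`L (π x + π y) (π x + π y) = L (π x) (π x) + 2 L (π x) (π y) + L (π y) (π y)`).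
Otherwise `0 = L (π x) (π y) = P L (π x) y` for all `x, y ∈ Λ`, so `L (π x) y = 0` for all `y ∈ ℝ^(n+1)` (the span of `Λ` is everything), so
`π x = 0` (take for `y` the coordinate vectors), so `x` is a combination of the `s i`, for all `x ∈ Λ`, hence for all `x`: the `k ≤ n` vectors
`s i` span `ℝ^(n+1)`, a contradiction to the dimension (`finrank_range_le_card` or `finrank_span_le_card`).
-/

set_option autoImplicit false

namespace Pool.Agent.Work.MP_f6469e_gt.Mir

open Pool.Agent.Work.MP_f6469e_gt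

theorem exists_orth {n : ℕ} {Λ : AddSubgroup (Fin (n + 1) → ℝ)} (hΛ : IntLat n Λ) {k : ℕ}
    (hk : k ≤ n) (s : Fin k → (Fin (n + 1) → ℝ)) (hs : ∀ i, s i ∈ Λ)
    (hne : ∀ i, L n (s i) (s i) ≠ 0) (ho : ∀ i j, i ≠ j → L n (s i) (s j) = 0) :
    ∃ w ∈ Λ, (∀ i, L n w (s i) = 0) ∧ L n w w ≠ 0 := by
  classical
  choose d hd using fun i => hΛ.int (s i) (hs i) (s i) (hs i)
  have hd0 : ∀ i, (d i : ℝ) ≠ 0 := fun i => by rw [← hd i]; exact hne i
  let π : (Fin (n + 1) → ℝ) → (Fin (n + 1) → ℝ) := fun x =>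
    ((∏ i, d i : ℤ) : ℝ) • x - ∑ i, (((∏ j ∈ Finset.univ.erase i, d j : ℤ) : ℝ) * L n x (s i)) • s i
  have hP0 : ((∏ i, d i : ℤ) : ℝ) ≠ 0 := by
    push_cast
    exact Finset.prod_ne_zero_iff.2 fun i _ => hd0 i
  have hc : ∀ i, ((∏ j ∈ Finset.univ.erase i, d j : ℤ) : ℝ) * d i = ((∏ i, d i : ℤ) : ℝ) := by
    intro i
    rw [← Int.cast_mul, Finset.prod_erase_mul _ _ (Finset.mem_univ i)]
  have hπmem : ∀ x ∈ Λ, π x ∈ Λ := by
    intro x hx
    refine Λ.sub_mem ?_ (Λ.sum_mem fun i _ => ?_)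
    · rw [Int.cast_smul_eq_zsmul ℝ]
      exact Λ.zsmul_mem hx _
    · obtain ⟨m, hm⟩ := hΛ.int x hx (s i) (hs i)
      rw [hm, ← Int.cast_mul, Int.cast_smul_eq_zsmul ℝ]
      exact Λ.zsmul_mem (hs i) _
  have hπL : ∀ x z, L n (π x) z = ((∏ i, d i : ℤ) : ℝ) * L n x z -
      ∑ i, ((∏ j ∈ Finset.univ.erase i, d j : ℤ) : ℝ) * L n x (s i) * L n (s i) z := by
    intro x z
    show L n (((∏ i, d i : ℤ) : ℝ) • x -
      ∑ i, (((∏ j ∈ Finset.univ.erase i, d j : ℤ) : ℝ) * L n x (s i)) • s i) z = _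
    rw [L_sub_left, L_smul_left, L_sum_left]
    simp only [L_smul_left]
  have hπs : ∀ x i, L n (π x) (s i) = 0 := by
    intro x i
    rw [hπL, Finset.sum_eq_single i]
    · rw [hd i, mul_right_comm, hc, sub_self]
    · intro j _ hj
      rw [ho j i hj, mul_zero]
    · intro h
      exact absurd (Finset.mem_univ i) h
  by_cases hex : ∃ x ∈ Λ, ∃ y ∈ Λ, L n (π x) (π y) ≠ 0
  · obtain ⟨x, hx, y, hy, hxy⟩ := hex
    by_cases h1 : L n (π x) (π x) = 0
    · by_cases h2 : L n (π y) (π y) = 0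
      · refine ⟨π x + π y, Λ.add_mem (hπmem x hx) (hπmem y hy), fun i => ?_, ?_⟩
        · rw [L_add_left, hπs, hπs, add_zero]
        · rw [L_add_left, L_add_right, L_add_right, h1, h2, L_comm (π y) (π x)]
          intro h3
          apply hxy
          linarith
      · exact ⟨π y, hπmem y hy, hπs y, h2⟩
    · exact ⟨π x, hπmem x hx, hπs x, h1⟩
  · exfalso
    push Not at hex
    have h1 : ∀ x ∈ Λ, ∀ y ∈ Λ, L n (π x) y = 0 := by
      intro x hx y hy
      have h2 := hex y hy x hx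
      rw [hπL, Finset.sum_eq_zero (fun i _ => by rw [L_comm (s i), hπs, mul_zero]), sub_zero,
        mul_eq_zero] at h2
      rw [L_comm]
      exact h2.resolve_left hP0
    have h2 : ∀ x ∈ Λ, ∀ y, L n (π x) y = 0 := by
      intro x hx y
      let f : (Fin (n + 1) → ℝ) →ₗ[ℝ] ℝ :=
        { toFun := fun y => L n (π x) y
          map_add' := fun y z => L_add_right (π x) y z
          map_smul' := fun a y => L_smul_right a (π x) y }
      have h3 : Submodule.span ℝ (Λ : Set (Fin (n + 1) → ℝ)) ≤ LinearMap.ker f :=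
        Submodule.span_le.2 fun y hy => h1 x hx y hy
      rw [hΛ.span] at h3
      exact h3 (Submodule.mem_top (x := y))
    have h3 : ∀ x ∈ Λ, π x = 0 := by
      intro x hx
      funext i
      refine Fin.cases ?_ (fun j => ?_) i
      · have h4 := h2 x hx (Pi.single 0 1)
        unfold L at h4
        rw [Finset.sum_eq_zero (fun i _ => by
          rw [Pi.single_eq_of_ne (Fin.succ_ne_zero i), mul_zero]), Pi.single_eq_same] at h4
        simpa using h4
      · have h4 := h2 x hx (Pi.single j.succ 1)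
        unfold L at h4
        rw [Finset.sum_eq_single j (fun i _ hij => by
          rw [Pi.single_eq_of_ne (fun h => hij (Fin.succ_injective _ h)), mul_zero])
          (fun h => absurd (Finset.mem_univ j) h), Pi.single_eq_same,
          Pi.single_eq_of_ne (Fin.succ_ne_zero j).symm] at h4
        simpa using h4
    have h4 : ∀ x ∈ Λ, x ∈ Submodule.span ℝ (Set.range s) := by
      intro x hx
      have h5 : ((∏ i, d i : ℤ) : ℝ) • x =
          ∑ i, (((∏ j ∈ Finset.univ.erase i, d j : ℤ) : ℝ) * L n x (s i)) • s i :=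
        sub_eq_zero.1 (h3 x hx)
      have h6 : ((∏ i, d i : ℤ) : ℝ) • x ∈ Submodule.span ℝ (Set.range s) := by
        rw [h5]
        exact Submodule.sum_mem _ fun i _ =>
          Submodule.smul_mem _ _ (Submodule.subset_span ⟨i, rfl⟩)
      exact (Submodule.smul_mem_iff _ hP0).1 h6
    have h5 : Submodule.span ℝ (Set.range s) = ⊤ := by
      rw [eq_top_iff, ← hΛ.span]
      exact Submodule.span_le.2 h4
    have h6 := finrank_range_le_card (R := ℝ) s
    unfold Set.finrank at h6
    rw [h5, finrank_top, Module.finrank_fin_fun, Fintype.card_fin] at h6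
    omega

end Pool.Agent.Work.MP_f6469e_gt.Mir
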