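import Pool.Agent.Work.MP_f6469e_gt.Mir.PNor
import Pool.Agent.Work.MP_f6469e_gt.Mir.Dir

/-!
# Mir/Rep (size M): a definite ternary form represents n = 1 mod 8 β γ rationally

Choose a prime `p` with `p ≡ 1` mod `8 β γ` and `γ p ≡ -1` mod `n` (`crt`, `exists_prime_mod`; `n` and `8 β γ` are coprime,
`γ` is invertible mod `n`; take `p > 2`). `n` is odd, `n ≥ 1`.
(i) `prime_norm` (`m = β`): `x₂² + β y₂² = p w₂²`, `w₂ ≠ 0`.
(ii) `legendre` with `a = γ`, `b = p`, `c = n`: `γ y₁² + p z₁² = n w₁²`, `w₁ ≠ 0`. Conditions: `γ`, `p`, `n` are pairwise coprime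
(`p ∣ n` would give `p ∣ γ p + 1`), `1 < γ p`, `n ∣ 1² + γ p`, `γ ∣ 1² - p n`, and `p ∣ r² - γ n` from `exists_sq` and
`J(γ n | p) = J(γ | p) J(n | p) = 1 * J(p | n)` (`jac_of_mod`, `jac_rec`) with `J(p | n) = J(γ p | n) J(γ | n) = J(-1 | n) = 1`
(`jac_of_mod` for `n`: `n % (8 * γ) = 1`; `jac_mod`, `jac_neg`; `J(γ | n) = 1`).
Multiply (ii) by `w₂²`: `n (w₁ w₂)² = γ (y₁ w₂)² + z₁² (x₂² + β y₂²)`: `x = z₁ x₂`, `y = z₁ y₂`, `z = y₁ w₂`, `w = w₁ w₂`.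
-/

set_option autoImplicit false

namespace Pool.Agent.Work.MP_f6469e_gt.Mir

open Pool.Agent.Work.MP_f6469e_gt

private theorem dvd_mod_one {p m : ℕ} (hm : 1 < m) (h : (m : ℤ) ∣ (p : ℤ) - 1) : p % m = 1 := by
  obtain ⟨e, he⟩ := h
  have h1 : (p : ℤ) % (m : ℤ) = 1 := by
    have h2 : (p : ℤ) = 1 + m * e := by linarith
    rw [h2, Int.add_mul_emod_self_left]
    exact Int.emod_eq_of_lt (by norm_num) (by exact_mod_cast hm)
  exact_mod_cast h1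

theorem ternary_rep {β γ n : ℕ} (hβ : 0 < β) (hγ : 0 < γ) (hn : n % (8 * β * γ) = 1) :
    ∃ x y z w : ℤ, w ≠ 0 ∧ x ^ 2 + β * y ^ 2 + γ * z ^ 2 = n * w ^ 2 := by
  obtain ⟨k, hk⟩ : ∃ k : ℕ, n = 8 * β * γ * k + 1 := ⟨n / (8 * β * γ), by
    have := Nat.div_add_mod n (8 * β * γ)
    rw [hn] at this
    exact this.symm⟩
  have hkz : (n : ℤ) = 8 * β * γ * k + 1 := by exact_mod_cast hk
  have hn0 : 0 < n := by rw [hk]; exact Nat.succ_pos _
  have hcop : IsCoprime ((8 * β * γ : ℕ) : ℤ) (n : ℤ) := by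
    refine ⟨-k, 1, ?_⟩
    rw [hkz]
    push_cast
    ring
  obtain ⟨c, hc1, hc2⟩ := crt hcop 1 (8 * β * k)
  have hc : IsCoprime c ((8 * β * γ * n : ℕ) : ℤ) := by
    have e : ((8 * β * γ * n : ℕ) : ℤ) = ((8 * β * γ : ℕ) : ℤ) * n := by push_cast; ring
    rw [e]
    refine IsCoprime.mul_right ?_ ?_
    · obtain ⟨e, he⟩ := hc1
      refine ⟨1, -e, ?_⟩
      linear_combination he
    · obtain ⟨e, he⟩ := hc2
      refine ⟨-γ, 1 + γ * e, ?_⟩
      linear_combination (-(γ : ℤ)) * he + hkz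
  obtain ⟨p, hp, hpK, hpc⟩ := exists_prime_mod (M := 8 * β * γ * n) (by positivity) hc (n + γ + 2)
  have hp1 : ((8 * β * γ : ℕ) : ℤ) ∣ (p : ℤ) - 1 := by
    have h1 : ((8 * β * γ : ℕ) : ℤ) ∣ (p : ℤ) - c :=
      Dvd.dvd.trans ⟨(n : ℤ), by push_cast; ring⟩ hpc
    have h2 : (p : ℤ) - 1 = (p - c) + (c - 1) := by ring
    rw [h2]
    exact dvd_add h1 hc1
  have hpn : (n : ℤ) ∣ γ * p + 1 := by
    have h1 : (n : ℤ) ∣ (p : ℤ) - c :=
      Dvd.dvd.trans ⟨((8 * β * γ : ℕ) : ℤ), by push_cast; ring⟩ hpc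
    have h2 : (γ : ℤ) * p + 1 = γ * (p - c) + γ * (c - 8 * β * k) + n := by
      rw [hkz]
      ring
    rw [h2]
    exact dvd_add (dvd_add (Dvd.dvd.mul_left h1 _) (Dvd.dvd.mul_left hc2 _)) (dvd_refl _)
  have hpβ : p % (8 * β) = 1 := dvd_mod_one (by omega)
    (Dvd.dvd.trans ⟨(γ : ℤ), by push_cast; ring⟩ hp1)
  have hpγ : p % (8 * γ) = 1 := dvd_mod_one (by omega)
    (Dvd.dvd.trans ⟨(β : ℤ), by push_cast; ring⟩ hp1)
  have hnγ : n % (8 * γ) = 1 := dvd_mod_one (by omega)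
    ⟨β * k, by rw [hkz]; push_cast; ring⟩
  have hn4 : n % 4 = 1 := by
    have : n = 4 * (2 * β * γ * k) + 1 := by rw [hk]; ring
    omega
  have hp4 : p % 4 = 1 := by
    have h1 := Nat.div_add_mod p (8 * γ)
    rw [hpγ] at h1
    have h2 : p = 4 * (2 * γ * (p / (8 * γ))) + 1 := by
      conv_lhs => rw [← h1]
      ring
    omega
  obtain ⟨x₂, y₂, w₂, hw₂, h₂⟩ := prime_norm hβ hp hpβ
  have hJ : jacobiSym ((γ : ℤ) * n) p = 1 := by
    have j1 : jacobiSym γ p = 1 := jac_of_mod hγ hpγ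
    have j2 : jacobiSym n p = jacobiSym p n := jac_rec (by omega) hp4
    have j3 : jacobiSym γ n = 1 := jac_of_mod hγ hnγ
    have j4 : jacobiSym ((γ : ℤ) * p) n = jacobiSym (-1) n := jac_mod (by
      rw [sub_neg_eq_add]
      exact hpn)
    have j5 : jacobiSym (-1) n = 1 := by
      rw [jac_neg hn4 1, jacobiSym.one_left]
    rw [jacobiSym.mul_left, j3, one_mul, j5] at j4
    rw [jacobiSym.mul_left, j1, one_mul, j2, j4]
  have hcγp : γ.Coprime p := by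
    rw [← Nat.isCoprime_iff_coprime]
    obtain ⟨e, he⟩ := hp1
    refine ⟨-(8 * β * e), 1, ?_⟩
    push_cast at he
    linear_combination he
  have hcγn : γ.Coprime n := by
    rw [← Nat.isCoprime_iff_coprime]
    refine ⟨-(8 * β * k), 1, ?_⟩
    rw [hkz]
    ring
  have hcpn : p.Coprime n :=
    (Nat.Prime.coprime_iff_not_dvd hp).2 fun h => by
      have := Nat.le_of_dvd hn0 h
      omega
  obtain ⟨y₁, z₁, w₁, hw₁, h₁⟩ := legendre (a := γ) (b := p) (c := n) hγ hp.pos hn0 hcγp hcpn hcγn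
    (by
      have h1 : 1 < p := hp.one_lt
      have h2 : 1 * p ≤ γ * p := Nat.mul_le_mul_right p hγ
      omega)
    ⟨1, by
      have e : (1 : ℤ) ^ 2 + γ * p = γ * p + 1 := by ring
      rw [e]
      exact hpn⟩
    ⟨1, by
      obtain ⟨e, he⟩ := hp1
      refine ⟨-(8 * β * (e * n + k)), ?_⟩
      push_cast at he
      rw [hkz]
      rw [hkz] at *
      linear_combination (-(8 * (β : ℤ) * γ * k + 1)) * he⟩
    (exists_sq hp (by omega) hJ)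
  refine ⟨z₁ * x₂, z₁ * y₂, y₁ * w₂, w₁ * w₂, mul_ne_zero hw₁ hw₂, ?_⟩
  linear_combination z₁ ^ 2 * h₂ + w₂ ^ 2 * h₁

end Pool.Agent.Work.MP_f6469e_gt.Mir
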