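import Pool.Agent.Work.MP_f6469e_gt.Mir.Cls
import Pool.Agent.Work.MP_f6469e_gt.Mir.Rep

/-!
# Mir/Pell (size M): the equation q(X) = t (t R - 1) for a definite ternary form q

Let `h` be the factor of `exists_scale`, `β = 4 a₀ a₁`, `γ = a₀ a₂` (natural numbers, `Int.toNat`), `T = 8 β γ`, `m₁ = T - 1`,
`m = a₀ m₁`, `n₁ = m₁ (m₁ a₀ R h² T² - 1)`. Then `n₁ > 0`, `n₁ ≡ (-1)(-1) = 1` mod `T`, so `ternary_rep` gives
`n₁ w² = x² + β y² + γ z²`, `w ≠ 0`. Multiply by `a₀`: `a₀ n₁ w² = a₀ x² + a₁ (2 a₀ y)² + a₂ (a₀ z)²`. `exists_scale` with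
`N = a₀ n₁`, `d = |w|`: `∑ a i y₀ i² = h² a₀ n₁`. With `t = h² T² m`:
`t (t R - 1) = h² T² a₀ m₁ (h² T² a₀ m₁ R - 1) = T² h² a₀ n₁ = ∑ a i (T y₀ i)²`.
-/

set_option autoImplicit false

namespace Pool.Agent.Work.MP_f6469e_gt.Mir

open Pool.Agent.Work.MP_f6469e_gt

theorem pell (a : Fin 3 → ℤ) (ha : ∀ i, 0 < a i) {R : ℤ} (hR : 0 < R) :
    ∃ (t : ℤ) (y : Fin 3 → ℤ), 0 < t ∧ ∑ i, a i * y i ^ 2 = t * (t * R - 1) := by
  obtain ⟨h, hh, hsc⟩ := exists_scale a ha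
  have h0 := ha 0
  have h1 := ha 1
  have h2 := ha 2
  obtain ⟨β, hβ⟩ := Int.eq_ofNat_of_zero_le (by positivity : 0 ≤ 4 * a 0 * a 1)
  obtain ⟨γ, hγ⟩ := Int.eq_ofNat_of_zero_le (by positivity : 0 ≤ a 0 * a 2)
  have hβ0 : (0 : ℤ) < β := by rw [← hβ]; positivity
  have hγ0 : (0 : ℤ) < γ := by rw [← hγ]; positivity
  obtain ⟨T, hT⟩ : ∃ T : ℤ, T = 8 * β * γ := ⟨_, rfl⟩
  have hT1 : 1 < T := by
    rw [hT]
    nlinarith [mul_pos hβ0 hγ0]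
  obtain ⟨n₁, hn₁⟩ : ∃ n₁ : ℤ, n₁ = (T - 1) * ((T - 1) * a 0 * R * h ^ 2 * T ^ 2 - 1) := ⟨_, rfl⟩
  have hQ : 1 ≤ a 0 * R * h ^ 2 := by
    have : 0 < a 0 * R * h ^ 2 := by positivity
    omega
  have hn0 : 0 < n₁ := by
    rw [hn₁]
    refine mul_pos (by linarith) ?_
    have e1 : (T - 1) * a 0 * R * h ^ 2 * T ^ 2 = (T - 1) * T ^ 2 * (a 0 * R * h ^ 2) := by ring
    have e2 : (T - 1) * T ^ 2 * 1 ≤ (T - 1) * T ^ 2 * (a 0 * R * h ^ 2) :=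
      mul_le_mul_of_nonneg_left hQ (by
        have : 0 ≤ T - 1 := by linarith
        positivity)
    have e3 : 1 < (T - 1) * T ^ 2 := by nlinarith
    rw [e1]
    linarith
  obtain ⟨n, hn⟩ := Int.eq_ofNat_of_zero_le hn0.le
  have hmod : n % (8 * β * γ) = 1 := by
    have e1 : ((n : ℤ) % ((8 * β * γ : ℕ) : ℤ)) = 1 := by
      have e2 : (((8 * β * γ : ℕ) : ℤ)) = T := by
        rw [hT]
        push_cast
        ring
      rw [e2, ← hn, hn₁]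
      have e3 : (T - 1) * ((T - 1) * a 0 * R * h ^ 2 * T ^ 2 - 1) =
          1 + T * ((T - 1) ^ 2 * a 0 * R * h ^ 2 * T - 1) := by ring
      rw [e3, Int.add_mul_emod_self_left]
      exact Int.emod_eq_of_lt (by norm_num) hT1
    exact_mod_cast e1
  obtain ⟨x, y, z, w, hw, he⟩ := ternary_rep (by exact_mod_cast hβ0) (by exact_mod_cast hγ0) hmod
  have hY : ∑ i, a i * (![x, 2 * a 0 * y, a 0 * z] : Fin 3 → ℤ) i ^ 2 = a 0 * n₁ * |w| ^ 2 := by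
    rw [Fin.sum_univ_three, sq_abs]
    show a 0 * x ^ 2 + a 1 * (2 * a 0 * y) ^ 2 + a 2 * (a 0 * z) ^ 2 = a 0 * n₁ * w ^ 2
    have hβ' : (β : ℤ) = 4 * a 0 * a 1 := hβ.symm
    have hγ' : (γ : ℤ) = a 0 * a 2 := hγ.symm
    have hn' : n₁ = (n : ℤ) := hn
    rw [hβ', hγ', ← hn'] at he
    linear_combination a 0 * he
  obtain ⟨y₀, hy₀⟩ := hsc _ _ _ (abs_pos.2 hw) hY
  refine ⟨h ^ 2 * T ^ 2 * (a 0 * (T - 1)), fun i => T * y₀ i, ?_, ?_⟩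
  · have : 0 < T - 1 := by linarith
    positivity
  · have e1 : ∑ i, a i * (T * y₀ i) ^ 2 = T ^ 2 * ∑ i, a i * y₀ i ^ 2 := by
      rw [Fin.sum_univ_three, Fin.sum_univ_three]
      ring
    rw [e1, hy₀, hn₁]
    ring

end Pool.Agent.Work.MP_f6469e_gt.Mir
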