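import Pool.Agent.Work.MP_f6469e_gt.Mir.IsoN
import Pool.Agent.Work.MP_f6469e_gt.Mir.MirT
import Pool.Agent.Work.MP_f6469e_gt.Mir.Dis
import Pool.Agent.Work.MP_f6469e_gt.Mir.Cliq

/-!
# Mir/Reg (size M-L): the theorem on regions

`exists_clique` with `r v w := L v w = 0`, `k = n - 3` (cliques have less than `n - 2` elements): `T`, `T.card + 4 ≤ n`. Let `𝓒` be the set of
the `u ∈ Λ`, `0 < u 0`, `L u u = 0`, `L u t = 0` for `t ∈ T`; it is not empty (`exists_cusp`). Suppose that for all `u ∈ 𝓒` there is `w ∈ W` with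
`0 < L u w`. (a) If `u ∈ 𝓒`, `w ∈ W`, `0 < L u w` then `w ∉ T` and `w` is orthogonal to `T`: otherwise `Dj t w` for some `t ∈ T` (`hd`, `x₀`) and
`Dj.null_zero` gives `L u w ≤ 0`. (b) Choose a pair `(u, w)`, `u ∈ 𝓒`, `w ∈ W`, `0 < L u w`, with minimal `L u w ^ 2 / L w w`: this number is `m² / c` with
positive integers `m`, `c ≤ C`; multiplied by `⌊C⌋₊!` it is a natural number. (c) `exists_mirror` with `v = w`: `u' ∈ 𝓒`, `L u' w = -L u w < 0`.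
Take `w' ∈ W` with `0 < L u' w'`; `w' ≠ w`, and by (a) and the property of `T`: `L w w' ≠ 0`, so `Dj w w'`, and `Dj.depth` gives
`L u' w' ^ 2 / L w' w' < L u' w ^ 2 / L w w = L u w ^ 2 / L w w`, a contradiction.
-/

set_option autoImplicit false

namespace Pool.Agent.Work.MP_f6469e_gt.Mir

open Pool.Agent.Work.MP_f6469e_gt

theorem region {n : ℕ} (hn : 4 ≤ n) {Λ : AddSubgroup (Fin (n + 1) → ℝ)} (hΛ : IntLat n Λ)
    (W : Set (Fin (n + 1) → ℝ)) {C : ℝ}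
    (hW : ∀ v ∈ W, v ∈ Λ ∧ 0 < L n v v ∧ L n v v ≤ C)
    (hd : ∀ v ∈ W, ∀ w ∈ W, v ≠ w →
      L n v w = 0 ∨ (L n v w < 0 ∧ L n v v * L n w w ≤ L n v w ^ 2))
    (hx : ∃ x : Fin (n + 1) → ℝ, 0 < x 0 ∧ L n x x < 0 ∧ ∀ v ∈ W, L n x v < 0)
    (hT : ∀ T : Finset (Fin (n + 1) → ℝ), (T : Set (Fin (n + 1) → ℝ)) ⊆ W →
      (∀ v ∈ T, ∀ w ∈ T, v ≠ w → L n v w = 0) → T.card < n - 2) :
    ∃ u ∈ Λ, 0 < u 0 ∧ L n u u = 0 ∧ ∀ v ∈ W, L n u v ≤ 0 := by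
  classical
  obtain ⟨x, hx0, hxx, hxW⟩ := hx
  obtain ⟨T, hTW, hTo, hTc, hTtop⟩ := exists_clique W (fun v w => L n v w = 0)
    (fun v w h => by rw [L_comm]; exact h) (k := n - 3) (by omega)
    (fun T h1 h2 => by have := hT T h1 h2; omega)
  have hTΛ : ∀ t ∈ T, t ∈ Λ ∧ 0 < L n t t := fun t ht =>
    ⟨(hW t (hTW ht)).1, (hW t (hTW ht)).2.1⟩
  have hTc' : T.card + 4 ≤ n := by omega
  by_contra hno
  push Not at hno
  obtain ⟨u₀, hu₀Λ, hu₀0, hu₀u, hu₀T⟩ := exists_cusp hΛ T hTΛ hTo hTc'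
  have hDj : ∀ v ∈ W, ∀ w ∈ W, v ≠ w → L n v w ≠ 0 → Dj n v w := by
    intro v hv w hw hvw hne
    rcases hd v hv w hw hvw with h | ⟨h1, h2⟩
    · exact absurd h hne
    · exact ⟨(hW v hv).2.1, (hW w hw).2.1, h1, h2, x, hxx, hx0, (hxW v hv).le,
        (hxW w hw).le, Or.inl (hxW v hv)⟩
  have ha : ∀ u : Fin (n + 1) → ℝ, 0 < u 0 → L n u u = 0 → (∀ t ∈ T, L n u t = 0) →
      ∀ w ∈ W, 0 < L n u w → w ∉ T ∧ ∀ t ∈ T, L n t w = 0 := by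
    intro u hu0 huu huT w hw hpos
    have hwT : w ∉ T := fun hh => by rw [huT w hh] at hpos; exact lt_irrefl _ hpos
    refine ⟨hwT, fun t ht => ?_⟩
    by_contra hne
    have := (hDj t (hTW ht) w hw (fun hh => hwT (by rw [← hh]; exact ht)) hne).null_zero
      hu0 huu (huT t ht)
    linarith
  have hq : ∀ u ∈ Λ, ∀ w ∈ W, ∃ q : ℕ,
      (q : ℝ) * L n w w = (⌊C⌋₊.factorial : ℝ) * L n u w ^ 2 := by
    intro u hu w hw
    obtain ⟨hwΛ, hww, hwC⟩ := hW w hw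
    obtain ⟨m, hm⟩ := hΛ.int u hu w hwΛ
    obtain ⟨c, hc⟩ := hΛ.int w hwΛ w hwΛ
    have hc0 : 0 < c := by
      have : (0 : ℝ) < (c : ℝ) := by rw [← hc]; exact hww
      exact_mod_cast this
    obtain ⟨k, rfl⟩ := Int.eq_ofNat_of_zero_le hc0.le
    have hk0 : 0 < k := by exact_mod_cast hc0
    have hkC : k ≤ ⌊C⌋₊ := by
      refine Nat.le_floor ?_
      have h1 : ((k : ℤ) : ℝ) ≤ C := by rw [← hc]; exact hwC
      exact_mod_cast h1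
    obtain ⟨d, hd'⟩ := Nat.dvd_factorial hk0 hkC
    refine ⟨d * m.natAbs ^ 2, ?_⟩
    rw [hm, hc, hd']
    have h2 : ((m.natAbs : ℕ) : ℝ) ^ 2 = (m : ℝ) ^ 2 := by
      rw [Nat.cast_natAbs, Int.cast_abs, sq_abs]
    push_cast
    rw [h2]
    ring
  have hex : ∃ q : ℕ, ∃ u ∈ Λ, 0 < u 0 ∧ L n u u = 0 ∧ (∀ t ∈ T, L n u t = 0) ∧
      ∃ w ∈ W, 0 < L n u w ∧ (q : ℝ) * L n w w = (⌊C⌋₊.factorial : ℝ) * L n u w ^ 2 := by
    obtain ⟨w, hw, hpos⟩ := hno u₀ hu₀Λ hu₀0 hu₀u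
    obtain ⟨q, hq'⟩ := hq u₀ hu₀Λ w hw
    exact ⟨q, u₀, hu₀Λ, hu₀0, hu₀u, hu₀T, w, hw, hpos, hq'⟩
  obtain ⟨u, huΛ, hu0, huu, huT, w, hw, hpos, hqw⟩ := Nat.find_spec hex
  obtain ⟨hwT, hwo⟩ := ha u hu0 huu huT w hw hpos
  obtain ⟨u', hu'Λ, hu'0, hu'u, hu'T, hu'w⟩ := exists_mirror hΛ T hTΛ hTo hTc' huΛ hu0 huu
    huT (hW w hw).1 (hW w hw).2.1 (fun t ht => by rw [L_comm]; exact hwo t ht) hpos.ne'
  obtain ⟨w', hw', hpos'⟩ := hno u' hu'Λ hu'0 hu'u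
  have hne : w ≠ w' := by
    intro hh
    rw [← hh, hu'w] at hpos'
    linarith
  obtain ⟨hw'T, hw'o⟩ := ha u' hu'0 hu'u hu'T w' hw' hpos'
  have hno0 : L n w w' ≠ 0 := hTtop w hw w' hw' hwT hw'T hne hwo hw'o
  have hdep := (hDj w hw w' hw' hne hno0).depth hu'0 hu'u (by rw [hu'w]; linarith) hpos'
  obtain ⟨q', hq'⟩ := hq u' hu'Λ w' hw'
  have hlt : q' < Nat.find hex := by
    have h1 : (0 : ℝ) < L n w w := (hW w hw).2.1
    have h2 : (0 : ℝ) < L n w' w' := (hW w' hw').2.1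
    have h3 : (0 : ℝ) < (⌊C⌋₊.factorial : ℝ) := by exact_mod_cast Nat.factorial_pos _
    rw [hu'w, neg_sq] at hdep
    have h4 : (q' : ℝ) * (L n w' w' * L n w w) <
        (Nat.find hex : ℝ) * (L n w' w' * L n w w) := by
      calc (q' : ℝ) * (L n w' w' * L n w w) = ((q' : ℝ) * L n w' w') * L n w w := by ring
        _ = (⌊C⌋₊.factorial : ℝ) * (L n u' w' ^ 2 * L n w w) := by rw [hq']; ring
        _ < (⌊C⌋₊.factorial : ℝ) * (L n u w ^ 2 * L n w' w') :=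
          mul_lt_mul_of_pos_left hdep h3
        _ = ((⌊C⌋₊.factorial : ℝ) * L n u w ^ 2) * L n w' w' := by ring
        _ = (Nat.find hex : ℝ) * (L n w' w' * L n w w) := by rw [← hqw]; ring
    have h5 := lt_of_mul_lt_mul_right h4 (mul_pos h2 h1).le
    exact_mod_cast h5
  exact Nat.find_min hex hlt ⟨u', hu'Λ, hu'0, hu'u, hu'T, w', hw', hpos', hq'⟩

end Pool.Agent.Work.MP_f6469e_gt.Mir
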