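import Pool.Agent.Work.MP_f6469e_gt.Mir.Gd
import Pool.Agent.Work.MP_f6469e_gt.Mir.Dir

/-!
# Mir/SqL (size M): square roots modulo M

Induction on the factorization of `M` (`Nat.recOnPosPrimePosCoprime`, or induction on the number of prime factors): coprime products by
`crt_sq`; prime powers `ℓ^k` by induction on `k` from `good_coprime`:
* `ℓ ≠ 2`: if `ℓ^k ∣ s² - n₀` with `k ≥ 1` (so `ℓ ∤ s`), write `s² - n₀ = ℓ^k c`, choose `t` with `2 s t ≡ -c` mod `ℓ`; `(s + ℓ^k t)² - n₀` is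
  divisible by `ℓ^(k+1)`.
* `ℓ = 2`: `s = 1` for `k ≤ 3`; if `2^k ∣ s² - n₀`, `k ≥ 3`, `s` odd, `s² - n₀ = 2^k c`: replace `s` by `s + 2^(k-1) c`:
  `s² + 2^k s c + 2^(2k-2) c² - n₀ = 2^k c (1 + s) + 2^(2k-2) c²`, divisible by `2^(k+1)` (`2k - 2 ≥ k + 1`).
-/

set_option autoImplicit false

namespace Pool.Agent.Work.MP_f6469e_gt.Mir

open Pool.Agent.Work.MP_f6469e_gt

private theorem sqL_two {n₀ : ℤ} (h : n₀ % 8 = 1) (k : ℕ) :
    ∃ q : ℤ, (2 : ℤ) ^ (k + 3) ∣ q ^ 2 - n₀ := by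
  induction k with
  | zero =>
    refine ⟨1, ?_⟩
    norm_num
    omega
  | succ k ih =>
    obtain ⟨s, c, hc⟩ := ih
    have hs : s % 2 = 1 := by
      by_contra hne
      have h2 : s % 2 = 0 := by omega
      obtain ⟨t, ht⟩ := Int.dvd_of_emod_eq_zero h2
      have h3 : n₀ = 2 * (2 * t ^ 2 - 4 * (2 ^ k * c)) := by
        rw [ht] at hc
        have h4 : (2 : ℤ) ^ (k + 3) = 8 * 2 ^ k := by ring
        rw [h4] at hc
        linear_combination -hc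
      omega
    obtain ⟨t, ht⟩ : ∃ t, 1 + s = 2 * t := ⟨(1 + s) / 2, by omega⟩
    refine ⟨s + 2 ^ (k + 2) * c, c * t + 2 ^ k * c ^ 2, ?_⟩
    have h4 : (2 : ℤ) ^ (k + 3) = 8 * 2 ^ k := by ring
    have h5 : (2 : ℤ) ^ (k + 2) = 4 * 2 ^ k := by ring
    have h6 : (2 : ℤ) ^ (k + 1 + 3) = 16 * 2 ^ k := by ring
    rw [h4] at hc
    rw [h5, h6]
    linear_combination hc + 8 * 2 ^ k * c * ht

private theorem sqL_pow {ℓ : ℕ} (hℓ : ℓ.Prime) {n₀ : ℤ} (hn : ¬ (ℓ : ℤ) ∣ n₀) (hg : Good ℓ n₀)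
    (k : ℕ) : ∃ q : ℤ, (ℓ : ℤ) ^ k ∣ q ^ 2 - n₀ := by
  obtain ⟨g2, g1⟩ := good_coprime hℓ hg hn
  by_cases h2 : ℓ = 2
  · obtain ⟨q, hq⟩ := sqL_two (g2 h2) k
    refine ⟨q, ?_⟩
    rw [h2]
    push_cast
    exact (pow_dvd_pow 2 (by omega : k ≤ k + 3)).trans hq
  · induction k with
    | zero => exact ⟨0, by simp⟩
    | succ k ih =>
      rcases Nat.eq_zero_or_pos k with rfl | hk
      · obtain ⟨s, hs⟩ := g1 h2
        exact ⟨s, by simpa using hs⟩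
      · obtain ⟨s, c, hc⟩ := ih
        have hpr : Prime (ℓ : ℤ) := Nat.prime_iff_prime_int.1 hℓ
        have hℓs : ¬ (ℓ : ℤ) ∣ s := by
          intro hd
          apply hn
          have h3 : (ℓ : ℤ) ∣ s ^ 2 - n₀ := by
            rw [hc]
            exact (dvd_pow_self _ hk.ne').mul_right _
          have h4 : (ℓ : ℤ) ∣ s ^ 2 := dvd_pow hd two_ne_zero
          have h5 := dvd_sub h4 h3
          rw [sub_sub_cancel] at h5
          exact h5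
        have hℓ2 : ¬ (ℓ : ℤ) ∣ 2 := by
          intro hd
          have h3 : ℓ ∣ 2 := by exact_mod_cast hd
          exact h2 ((Nat.prime_dvd_prime_iff_eq hℓ Nat.prime_two).1 h3)
        have hcop : IsCoprime (2 * s) (ℓ : ℤ) := by
          rw [isCoprime_comm]
          rw [hpr.coprime_iff_not_dvd]
          intro hd
          rcases hpr.dvd_or_dvd hd with h | h
          · exact hℓ2 h
          · exact hℓs h
        obtain ⟨u, v, huv⟩ := hcop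
        obtain ⟨j, rfl⟩ : ∃ j, k = j + 1 := ⟨k - 1, by omega⟩
        refine ⟨s + ℓ ^ (j + 1) * (-(c * u)), c * v + ℓ ^ j * (c * u) ^ 2, ?_⟩
        have h6 : (ℓ : ℤ) ^ (j + 1 + 1) = ℓ ^ j * ℓ * ℓ := by ring
        have h7 : (ℓ : ℤ) ^ (j + 1) = ℓ ^ j * ℓ := by ring
        rw [h7] at hc
        rw [h6, h7]
        linear_combination hc - ℓ ^ j * ℓ * c * huv

theorem exists_sqrt_mod {n₀ : ℤ} {M : ℕ} (hM : 0 < M)
    (h : ∀ ℓ : ℕ, ℓ.Prime → ℓ ∣ M → ¬ (ℓ : ℤ) ∣ n₀ ∧ Good ℓ n₀) :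
    ∃ q : ℤ, (M : ℤ) ∣ q ^ 2 - n₀ := by
  induction M using Nat.recOnPosPrimePosCoprime with
  | prime_pow ℓ k hℓ hk =>
    obtain ⟨h1, h2⟩ := h ℓ hℓ (dvd_pow_self ℓ hk.ne')
    obtain ⟨q, hq⟩ := sqL_pow hℓ h1 h2 k
    exact ⟨q, by push_cast; exact hq⟩
  | zero => exact absurd hM (lt_irrefl 0)
  | one => exact ⟨0, by simp⟩
  | coprime a b ha hb hab iha ihb =>
    have hc : IsCoprime (a : ℤ) (b : ℤ) := Nat.isCoprime_iff_coprime.2 hab
    have h1 := iha (by omega) fun ℓ hℓ hd => h ℓ hℓ (hd.mul_right b)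
    have h2 := ihb (by omega) fun ℓ hℓ hd => h ℓ hℓ (hd.mul_left a)
    obtain ⟨q, hq⟩ := crt_sq hc h1 h2
    exact ⟨q, by push_cast; exact hq⟩

end Pool.Agent.Work.MP_f6469e_gt.Mir
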