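import Pool.Agent.Work.MP_f6469e_gt.Mir.Orth

/-!
# Mir/Sys (size M): orthogonal systems

* `exists_pos_system`: induction on `r`. For `r + 1`: append the vectors found so far to `s` (`Fin.append`), use `exists_orth` for the next
  one, `w`; it is orthogonal to the time-like vector `s i₀` and not zero, so `0 < L w w` (`L_pos_of_orth`).
* `exists_neg`: induction on `n - k`. Take `w` from `exists_orth`. If `L w w < 0` we are done. Otherwise append `w` to `s` (`Fin.snoc`): a positive
  orthogonal system of `k + 1` vectors. If `k + 1 ≤ n` use the induction hypothesis; if `k + 1 = n + 1` the system is a basis of `ℝ^(n+1)` (orthogonal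
  vectors with nonzero norm are independent), so `L x x ≥ 0` for all `x`, a contradiction for `x = (1, 0, …, 0)`.
-/

set_option autoImplicit false

namespace Pool.Agent.Work.MP_f6469e_gt.Mir

open Pool.Agent.Work.MP_f6469e_gt

theorem exists_pos_system {n : ℕ} {Λ : AddSubgroup (Fin (n + 1) → ℝ)} (hΛ : IntLat n Λ)
    {k : ℕ} (r : ℕ) (hk : k + r ≤ n + 1) (s : Fin k → (Fin (n + 1) → ℝ)) (hs : ∀ i, s i ∈ Λ)
    (hne : ∀ i, L n (s i) (s i) ≠ 0) (ho : ∀ i j, i ≠ j → L n (s i) (s j) = 0) {i₀ : Fin k}
    (hneg : L n (s i₀) (s i₀) < 0) :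
    ∃ w : Fin r → (Fin (n + 1) → ℝ), (∀ i, w i ∈ Λ) ∧ (∀ i j, L n (w i) (s j) = 0) ∧
      (∀ i j, i ≠ j → L n (w i) (w j) = 0) ∧ ∀ i, 0 < L n (w i) (w i) := by
  induction r with
  | zero =>
    exact ⟨fun i => i.elim0, fun i => i.elim0, fun i => i.elim0, fun i => i.elim0,
      fun i => i.elim0⟩
  | succ r ih =>
    obtain ⟨w, hw1, hw2, hw3, hw4⟩ := ih (by omega)
    obtain ⟨v, hv1, hv2, hv3⟩ := exists_orth hΛ (k := k + r) (by omega) (Fin.append s w)
      (by
        intro i
        refine Fin.addCases (fun i => ?_) (fun i => ?_) i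
        · rw [Fin.append_left]; exact hs i
        · rw [Fin.append_right]; exact hw1 i)
      (by
        intro i
        refine Fin.addCases (fun i => ?_) (fun i => ?_) i
        · rw [Fin.append_left]; exact hne i
        · rw [Fin.append_right]; exact (hw4 i).ne')
      (by
        intro i j
        refine Fin.addCases (fun i => ?_) (fun i => ?_) i
        · refine Fin.addCases (fun j => ?_) (fun j => ?_) j
          · intro hij
            rw [Fin.append_left, Fin.append_left]
            exact ho i j fun h => hij (by rw [h])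
          · intro _
            rw [Fin.append_left, Fin.append_right, L_comm]
            exact hw2 j i
        · refine Fin.addCases (fun j => ?_) (fun j => ?_) j
          · intro _
            rw [Fin.append_left, Fin.append_right]
            exact hw2 i j
          · intro hij
            rw [Fin.append_right, Fin.append_right]
            exact hw3 i j fun h => hij (by rw [h]))
    have hvs : ∀ j, L n v (s j) = 0 := by
      intro j
      have h1 := hv2 (Fin.castAdd r j)
      rwa [Fin.append_left] at h1
    have hvw : ∀ j, L n v (w j) = 0 := by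
      intro j
      have h1 := hv2 (Fin.natAdd k j)
      rwa [Fin.append_right] at h1
    have hv0 : v ≠ 0 := by
      intro h
      apply hv3
      rw [h]
      exact L_zero_left _
    have hvpos : 0 < L n v v := L_pos_of_orth hneg (by rw [L_comm]; exact hvs i₀) hv0
    refine ⟨Fin.cons v w, ?_, ?_, ?_, ?_⟩
    · intro i
      refine Fin.cases ?_ (fun i => ?_) i
      · rw [Fin.cons_zero]; exact hv1
      · rw [Fin.cons_succ]; exact hw1 i
    · intro i j
      refine Fin.cases ?_ (fun i => ?_) i
      · rw [Fin.cons_zero]; exact hvs j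
      · rw [Fin.cons_succ]; exact hw2 i j
    · intro i j
      refine Fin.cases ?_ (fun i => ?_) i
      · refine Fin.cases ?_ (fun j => ?_) j
        · intro h; exact absurd rfl h
        · intro _
          rw [Fin.cons_zero, Fin.cons_succ]
          exact hvw j
      · refine Fin.cases ?_ (fun j => ?_) j
        · intro _
          rw [Fin.cons_zero, Fin.cons_succ, L_comm]
          exact hvw i
        · intro hij
          rw [Fin.cons_succ, Fin.cons_succ]
          exact hw3 i j fun h => hij (by rw [h])
    · intro i
      refine Fin.cases ?_ (fun i => ?_) i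
      · rw [Fin.cons_zero]; exact hvpos
      · rw [Fin.cons_succ]; exact hw4 i

private theorem no_full {n : ℕ} (t : Fin (n + 1) → (Fin (n + 1) → ℝ))
    (hpos : ∀ i, 0 < L n (t i) (t i)) (ho : ∀ i j, i ≠ j → L n (t i) (t j) = 0) : False := by
  have hsq : ∀ c : Fin (n + 1) → ℝ, ∀ j, L n (∑ i, c i • t i) (t j) = c j * L n (t j) (t j) := by
    intro c j
    rw [L_sum_left, Finset.sum_eq_single j]
    · rw [L_smul_left]
    · intro i _ hij
      rw [L_smul_left, ho i j hij, mul_zero]
    · intro h
      exact absurd (Finset.mem_univ j) h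
  have hli : LinearIndependent ℝ t := by
    rw [Fintype.linearIndependent_iff]
    intro c hc j
    have h1 := hsq c j
    rw [hc, L_zero_left] at h1
    rcases mul_eq_zero.1 h1.symm with h2 | h2
    · exact h2
    · exact absurd h2 (hpos j).ne'
  have hspan : Submodule.span ℝ (Set.range t) = ⊤ := by
    apply hli.span_eq_top_of_card_eq_finrank'
    rw [Module.finrank_fintype_fun_eq_card]
  have hx : (Pi.single 0 1 : Fin (n + 1) → ℝ) ∈ Submodule.span ℝ (Set.range t) := by
    rw [hspan]
    exact Submodule.mem_top
  obtain ⟨c, hc⟩ := (Submodule.mem_span_range_iff_exists_fun ℝ).1 hx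
  have h1 : L n (Pi.single 0 1 : Fin (n + 1) → ℝ) (Pi.single 0 1) = -1 := by
    simp [L, Pi.single_apply]
  have h2 : 0 ≤ L n (∑ i, c i • t i) (∑ i, c i • t i) := by
    rw [L_sum_right]
    refine Finset.sum_nonneg fun j _ => ?_
    rw [L_smul_right, hsq c j]
    have h3 : c j * (c j * L n (t j) (t j)) = c j ^ 2 * L n (t j) (t j) := by ring
    rw [h3]
    exact mul_nonneg (sq_nonneg _) (hpos j).le
  rw [hc, h1] at h2
  linarith

private theorem exists_neg_aux {n : ℕ} {Λ : AddSubgroup (Fin (n + 1) → ℝ)} (hΛ : IntLat n Λ)
    (m : ℕ) : ∀ k : ℕ, k + m = n → ∀ s : Fin k → (Fin (n + 1) → ℝ), (∀ i, s i ∈ Λ) →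
    (∀ i, 0 < L n (s i) (s i)) → (∀ i j, i ≠ j → L n (s i) (s j) = 0) →
    ∃ z ∈ Λ, (∀ j, L n z (s j) = 0) ∧ L n z z < 0 := by
  induction m with
  | zero =>
    intro k hk s hs hpos ho
    obtain ⟨w, h1, h2, h3⟩ := exists_orth hΛ (k := k) (by omega) s hs (fun i => (hpos i).ne') ho
    rcases lt_or_gt_of_ne h3 with h4 | h4
    · exact ⟨w, h1, h2, h4⟩
    · exfalso
      have hkn : k = n := by omega
      subst hkn
      refine no_full (Fin.cons w s) ?_ ?_
      · intro i
        refine Fin.cases ?_ (fun i => ?_) i
        · rw [Fin.cons_zero]; exact h4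
        · rw [Fin.cons_succ]; exact hpos i
      · intro i j
        refine Fin.cases ?_ (fun i => ?_) i
        · refine Fin.cases ?_ (fun j => ?_) j
          · intro h; exact absurd rfl h
          · intro _
            rw [Fin.cons_zero, Fin.cons_succ]
            exact h2 j
        · refine Fin.cases ?_ (fun j => ?_) j
          · intro _
            rw [Fin.cons_zero, Fin.cons_succ, L_comm]
            exact h2 i
          · intro hij
            rw [Fin.cons_succ, Fin.cons_succ]
            exact ho i j fun h => hij (by rw [h])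
  | succ m ih =>
    intro k hk s hs hpos ho
    obtain ⟨w, h1, h2, h3⟩ := exists_orth hΛ (k := k) (by omega) s hs (fun i => (hpos i).ne') ho
    rcases lt_or_gt_of_ne h3 with h4 | h4
    · exact ⟨w, h1, h2, h4⟩
    · obtain ⟨z, hz1, hz2, hz3⟩ := ih (k + 1) (by omega) (Fin.cons w s)
        (by
          intro i
          refine Fin.cases ?_ (fun i => ?_) i
          · rw [Fin.cons_zero]; exact h1
          · rw [Fin.cons_succ]; exact hs i)
        (by
          intro i
          refine Fin.cases ?_ (fun i => ?_) i
          · rw [Fin.cons_zero]; exact h4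
          · rw [Fin.cons_succ]; exact hpos i)
        (by
          intro i j
          refine Fin.cases ?_ (fun i => ?_) i
          · refine Fin.cases ?_ (fun j => ?_) j
            · intro h; exact absurd rfl h
            · intro _
              rw [Fin.cons_zero, Fin.cons_succ]
              exact h2 j
          · refine Fin.cases ?_ (fun j => ?_) j
            · intro _
              rw [Fin.cons_zero, Fin.cons_succ, L_comm]
              exact h2 i
            · intro hij
              rw [Fin.cons_succ, Fin.cons_succ]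
              exact ho i j fun h => hij (by rw [h]))
      refine ⟨z, hz1, fun j => ?_, hz3⟩
      have h5 := hz2 j.succ
      rwa [Fin.cons_succ] at h5

theorem exists_neg {n : ℕ} {Λ : AddSubgroup (Fin (n + 1) → ℝ)} (hΛ : IntLat n Λ) {k : ℕ}
    (hk : k ≤ n) (s : Fin k → (Fin (n + 1) → ℝ)) (hs : ∀ i, s i ∈ Λ)
    (hpos : ∀ i, 0 < L n (s i) (s i)) (ho : ∀ i j, i ≠ j → L n (s i) (s j) = 0) :
    ∃ z ∈ Λ, (∀ j, L n z (s j) = 0) ∧ L n z z < 0 :=
  exists_neg_aux hΛ (n - k) k (by omega) s hs hpos ho

end Pool.Agent.Work.MP_f6469e_gt.Mir
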